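import Mathlib

/-!
# Interleaved functions have the same asymptotics
-/

set_option autoImplicit false

open Filter Topology Set

namespace Pool.Agent.L7h13.AF

/-- `X ((1-δ) T) ≤ (1 + C/T) Y(T) + C T` for large `T`, for all `δ` -/
def Ilv (X Y : ℝ → ℝ) : Prop := ∀ δ : ℝ, 0 < δ → δ < 1 → ∃ C T₀ : ℝ, 0 ≤ C ∧ ∀ T : ℝ, T₀ ≤ T →
  X ((1 - δ) * T) ≤ (1 + C / T) * Y T + C * T

lemma log_ratio {r : ℝ} (hr : 0 < r) (B : ℝ) :
    Tendsto (fun T : ℝ => Real.log (r * T) ^ B / Real.log T ^ B) atTop (𝓝 1) := by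
  have h1 : Tendsto (fun T : ℝ => Real.log (r * T) / Real.log T) atTop (𝓝 1) := by
    have h2 : Tendsto (fun T : ℝ => Real.log r / Real.log T + 1) atTop (𝓝 (0 + 1)) :=
      (Real.tendsto_log_atTop.const_div_atTop _).add_const 1
    rw [zero_add] at h2
    refine h2.congr' ?_
    filter_upwards [eventually_gt_atTop 1] with T hT
    have hT0 : 0 < T := by linarith
    have : Real.log T ≠ 0 := (Real.log_pos hT).ne'
    rw [Real.log_mul hr.ne' hT0.ne']
    field_simp
  have h3 := h1.rpow_const (p := B) (Or.inl one_ne_zero)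
  rw [Real.one_rpow] at h3
  refine h3.congr' ?_
  filter_upwards [eventually_gt_atTop 1, eventually_gt_atTop (1 / r)] with T hT hT2
  have hT0 : 0 < T := by linarith
  have : 1 < r * T := by rw [div_lt_iff₀ hr] at hT2; linarith
  rw [Real.div_rpow (Real.log_pos this).le (Real.log_pos hT).le]

/-- the quotient at `r T` -/
lemma scale {Y : ℝ → ℝ} {B c r : ℝ} (hr : 0 < r)
    (hY : Tendsto (fun T : ℝ => Y T / (T * Real.log T ^ B)) atTop (𝓝 c)) :
    Tendsto (fun T : ℝ => Y (r * T) / (T * Real.log T ^ B)) atTop (𝓝 (r * c)) := by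
  have h1 : Tendsto (fun T : ℝ => r * T) atTop atTop := tendsto_id.const_mul_atTop hr
  have h2 := ((hY.comp h1).mul (log_ratio hr B)).const_mul r
  rw [mul_one] at h2
  refine h2.congr' ?_
  filter_upwards [eventually_gt_atTop 1, eventually_gt_atTop (1 / r)] with T hT hT2
  have hT0 : 0 < T := by linarith
  have h3 : 1 < r * T := by rw [div_lt_iff₀ hr] at hT2; linarith
  have h4 : 0 < Real.log (r * T) ^ B := Real.rpow_pos_of_pos (Real.log_pos h3) _
  have h5 : 0 < Real.log T ^ B := Real.rpow_pos_of_pos (Real.log_pos hT) _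
  simp only [Function.comp_def]
  field_simp

lemma upper_ilv {X Y : ℝ → ℝ} {B c : ℝ} (hB : 0 < B) (h : Ilv X Y)
    (hY : Tendsto (fun T : ℝ => Y T / (T * Real.log T ^ B)) atTop (𝓝 c)) :
    ∀ η : ℝ, 0 < η → ∀ᶠ T : ℝ in atTop, X T / (T * Real.log T ^ B) ≤ c + η := by
  intro η hη
  -- choose `r = 1/(1-δ)` with `r c < c + η/2`
  obtain ⟨r, hr1, hr⟩ : ∃ r : ℝ, 1 < r ∧ r * c < c + η / 2 := by
    have hc : Tendsto (fun r : ℝ => r * c) (𝓝[>] 1) (𝓝 (1 * c)) :=
      (tendsto_id.mono_left nhdsWithin_le_nhds).mul_const c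
    rw [one_mul] at hc
    have h1 := hc.eventually (gt_mem_nhds (by linarith : c < c + η / 2))
    obtain ⟨r, hr⟩ := (h1.and self_mem_nhdsWithin).exists
    exact ⟨r, hr.2, hr.1⟩
  have hr0 : 0 < r := by linarith
  obtain ⟨C, T₀, hC, hT₀⟩ := h (1 - 1 / r) (by
    have : 1 / r < 1 := by rw [div_lt_one hr0]; exact hr1
    linarith) (by have : 0 < 1 / r := by positivity
                  linarith)
  have s1 := scale hr0 hY
  have s2 : Tendsto (fun T : ℝ => 1 + C / (r * T)) atTop (𝓝 (1 + 0)) := by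
    refine tendsto_const_nhds.add ?_
    exact (tendsto_id.const_mul_atTop hr0).const_div_atTop C
  have s3 : Tendsto (fun T : ℝ => C * r / Real.log T ^ B) atTop (𝓝 0) := by
    exact ((tendsto_rpow_atTop hB).comp Real.tendsto_log_atTop).const_div_atTop _
  have s4 := (s2.mul s1).add s3
  rw [add_zero, add_zero, one_mul] at s4
  have h5 := s4.eventually (gt_mem_nhds (by linarith : r * c < c + η))
  filter_upwards [h5, eventually_gt_atTop 1, eventually_ge_atTop (T₀ / r)] with T h6 hT hT2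
  have hT0 : 0 < T := by linarith
  have h7 := hT₀ (r * T) (by rw [div_le_iff₀ hr0] at hT2; linarith)
  have e : (1 - (1 - 1 / r)) * (r * T) = T := by field_simp; ring
  rw [e] at h7
  have h8 : 0 < Real.log T ^ B := Real.rpow_pos_of_pos (Real.log_pos hT) _
  refine le_trans ?_ h6.le
  rw [div_le_iff₀ (by positivity)]
  refine h7.trans (le_of_eq ?_)
  field_simp

lemma lower_ilv {X Y : ℝ → ℝ} {B c : ℝ} (hB : 0 < B) (h : Ilv Y X)
    (hY : Tendsto (fun T : ℝ => Y T / (T * Real.log T ^ B)) atTop (𝓝 c)) :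
    ∀ η : ℝ, 0 < η → ∀ᶠ T : ℝ in atTop, c - η ≤ X T / (T * Real.log T ^ B) := by
  intro η hη
  obtain ⟨r, hr0, hr1, hr⟩ : ∃ r : ℝ, 0 < r ∧ r < 1 ∧ c - η / 2 < r * c := by
    have hc : Tendsto (fun r : ℝ => r * c) (𝓝[<] 1) (𝓝 (1 * c)) :=
      (tendsto_id.mono_left nhdsWithin_le_nhds).mul_const c
    rw [one_mul] at hc
    have h1 := hc.eventually (lt_mem_nhds (by linarith : c - η / 2 < c))
    have h2 : ∀ᶠ r : ℝ in 𝓝[<] 1, 0 < r := nhdsWithin_le_nhds (Ioi_mem_nhds one_pos)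
    obtain ⟨r, hr⟩ := ((h1.and h2).and self_mem_nhdsWithin).exists
    exact ⟨r, hr.1.2, hr.2, hr.1.1⟩
  obtain ⟨C, T₀, hC, hT₀⟩ := h (1 - r) (by linarith) (by linarith)
  have s1 := scale hr0 hY
  have s2 : Tendsto (fun T : ℝ => 1 + C / T) atTop (𝓝 (1 + 0)) := by
    refine tendsto_const_nhds.add ?_
    exact tendsto_id.const_div_atTop C
  have s3 : Tendsto (fun T : ℝ => C / Real.log T ^ B) atTop (𝓝 0) := by
    exact ((tendsto_rpow_atTop hB).comp Real.tendsto_log_atTop).const_div_atTop _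
  have s4 := (s1.sub s3).div s2 (by norm_num)
  rw [add_zero, div_one, sub_zero] at s4
  have h5 := s4.eventually (lt_mem_nhds (by linarith : c - η < r * c))
  filter_upwards [h5, eventually_gt_atTop 1, eventually_ge_atTop T₀] with T h6 hT hT2
  have hT0 : 0 < T := by linarith
  have h7 := hT₀ T hT2
  have e : (1 - (1 - r)) * T = r * T := by ring
  rw [e] at h7
  have h8 : 0 < Real.log T ^ B := Real.rpow_pos_of_pos (Real.log_pos hT) _
  refine h6.le.trans ?_
  simp only [Pi.div_apply]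
  have h9 : 0 < 1 + C / T := by positivity
  rw [div_le_iff₀ h9]
  have e2 : Y (r * T) / (T * Real.log T ^ B) - C / Real.log T ^ B = (Y (r * T) - C * T) / (T * Real.log T ^ B) := by
    field_simp
  rw [e2, div_mul_eq_mul_div]
  refine div_le_div_of_nonneg_right ?_ (by positivity)
  linarith

theorem ilv_one {X Y : ℝ → ℝ} {B c : ℝ} (hB : 0 < B) (h1 : Ilv X Y) (h2 : Ilv Y X)
    (hY : Tendsto (fun T : ℝ => Y T / (T * Real.log T ^ B)) atTop (𝓝 c)) :
    Tendsto (fun T : ℝ => X T / (T * Real.log T ^ B)) atTop (𝓝 c) := by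
  rw [Metric.tendsto_nhds]
  intro η hη
  filter_upwards [upper_ilv hB h1 hY (η / 2) (by linarith), lower_ilv hB h2 hY (η / 2) (by linarith)] with T a1 a2
  rw [Real.dist_eq, abs_lt]
  constructor <;> linarith

theorem ilv_iff {X Y : ℝ → ℝ} {B c : ℝ} (hB : 0 < B) (h1 : Ilv X Y) (h2 : Ilv Y X) :
    Tendsto (fun T : ℝ => X T / (T * Real.log T ^ B)) atTop (𝓝 c) ↔
      Tendsto (fun T : ℝ => Y T / (T * Real.log T ^ B)) atTop (𝓝 c) :=
  ⟨ilv_one hB h2 h1, ilv_one hB h1 h2⟩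

end Pool.Agent.L7h13.AF
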