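import Pool.Agent.L7h13.AF.Cut
import Pool.Agent.L7h13.AF.Tau

/-!
# Moments and area integrals
-/

set_option autoImplicit false

open Complex MeasureTheory Set Filter Topology

namespace Pool.Agent.L7h13.AF

open Pool.Agent.W188.QS (cp XX lam)

noncomputable section

variable {k : ℝ} {w w1 w2 : ℝ → ℝ} {a b X : ℝ}

/-- area integral with affine kernel, heights between `2` and `T` -/
def ZZ (k p q T : ℝ) : ℝ := ∫ z in SI 2 T, (p + q * (z.1 - 1 / 2)) * Fk riemannZeta k (pt z.1 z.2)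

/-- `|ζ|^k` on the line -/
def zl (k t : ℝ) : ℝ := ‖riemannZeta (pt (1 / 2) t)‖ ^ k

def MM (k T : ℝ) : ℝ := ∫ t in (0:ℝ)..T, zl k t

/-- the moment with the weight `lam`, from `50` on -/
def LM (k T : ℝ) : ℝ := ∫ t in (50:ℝ)..T, lam t * zl k t

lemma zl_nonneg (k t : ℝ) : 0 ≤ zl k t := by unfold zl; positivity

lemma line_cont : Continuous fun t : ℝ => riemannZeta (pt (1 / 2) t) := by
  refine continuous_iff_continuousAt.2 fun t => ?_
  have hne : pt (1 / 2) t ≠ 1 := by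
    intro h
    have := congrArg Complex.re h
    rw [pt_re] at this
    norm_num at this
  have hc : Continuous fun t : ℝ => pt (1 / 2) t := pt_cont.comp (by fun_prop : Continuous fun y : ℝ => ((1/2:ℝ), y))
  exact (differentiableAt_riemannZeta hne).continuousAt.comp hc.continuousAt

lemma zl_cont (hk : 0 < k) : Continuous (zl k) := by
  unfold zl
  exact line_cont.norm.rpow_const fun _ => Or.inr hk.le

lemma zl_ii (hk : 0 < k) (a b : ℝ) : IntervalIntegrable (zl k) volume a b := (zl_cont hk).intervalIntegrable _ _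

lemma lz_ii (hk : 0 < k) {a b : ℝ} (ha : 1 < a) (hab : a ≤ b) : IntervalIntegrable (fun t => lam t * zl k t) volume a b := by
  refine ContinuousOn.intervalIntegrable ?_
  rw [uIcc_of_le hab]
  exact (lam_cont.mono fun y hy => lt_of_lt_of_le ha hy.1).mul (zl_cont hk).continuousOn

/-- the area density is locally integrable -/
theorem loc_int (hk : 0 < k) (ha : 1 < a) {p q : ℝ} (hp : 0 ≤ p) (hq : 0 ≤ q) :
    IntegrableOn (fun z : ℝ × ℝ => (p + q * (z.1 - 1 / 2)) * Fk riemannZeta k (pt z.1 z.2)) (SI a b) := by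
  rcases lt_or_ge b a with hba | hab
  · have : SI a b = ∅ := by unfold SI; rw [Icc_eq_empty (not_le.2 hba), prod_empty]
    rw [this]
    exact integrableOn_empty
  obtain ⟨w, w1, w2, hw, h0, h1, h2⟩ := exists_wt (a' := (1 + a) / 2) (a := a) (b := b) (b' := b + 1)
    (by linarith) hab (by linarith)
  obtain ⟨I, -, -⟩ := inf_id hk hw (fun y _ => h0 y) (by linarith) (by linarith) hp hq
  have hs : SI a b ⊆ SI ((1 + a) / 2) (b + 1) := prod_mono le_rfl (Icc_subset_Icc (by linarith) (by linarith))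
  refine (I.mono_set hs).congr_fun (fun z hz => ?_) SI_meas
  simp only
  rw [h2 _ hz.2, mul_one]

lemma dens_nonneg {p q : ℝ} (hp : 0 ≤ p) (hq : 0 ≤ q) {z : ℝ × ℝ} (hz : z ∈ SI a b) :
    0 ≤ (p + q * (z.1 - 1 / 2)) * Fk riemannZeta k (pt z.1 z.2) :=
  mul_nonneg (kap_nonneg hp hq hz.1) (Fk_nonneg _ _ _)

lemma ZZ_mono (hk : 0 < k) {p q : ℝ} (hp : 0 ≤ p) (hq : 0 ≤ q) : Monotone (ZZ k p q) := by
  intro S T hST
  refine setIntegral_mono_set (loc_int hk (by norm_num) hp hq) ?_ ?_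
  · filter_upwards [ae_restrict_mem SI_meas] with z hz
    exact dens_nonneg hp hq hz
  · exact (prod_mono le_rfl (Icc_subset_Icc le_rfl hST)).eventuallyLE

/-- the weighted area integral is at most the area integral -/
lemma w_le (hk : 0 < k) {p q : ℝ} (hp : 0 ≤ p) (hq : 0 ≤ q) {T : ℝ} (hw : Wt w w1 w2 2 T) (h0 : ∀ y ∈ Icc 2 T, 0 ≤ w y)
    (h1 : ∀ y ∈ Icc 2 T, w y ≤ 1) (hT : 2 ≤ T) :
    ∫ z in SI 2 T, (p + q * (z.1 - 1 / 2)) * w z.2 * Fk riemannZeta k (pt z.1 z.2) ≤ ZZ k p q T := by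
  obtain ⟨I, -, -⟩ := inf_id hk hw h0 (by norm_num) hT hp hq
  refine setIntegral_mono_on I (loc_int hk (by norm_num) hp hq) SI_meas fun z hz => ?_
  have f1 := kap_nonneg (x := z.1) hp hq hz.1
  have f2 := Fk_nonneg riemannZeta k (pt z.1 z.2)
  have f3 := h1 _ hz.2
  calc (p + q * (z.1 - 1 / 2)) * w z.2 * Fk riemannZeta k (pt z.1 z.2)
      ≤ (p + q * (z.1 - 1 / 2)) * 1 * Fk riemannZeta k (pt z.1 z.2) := by gcongr
    _ = _ := by ring

lemma w_ge (hk : 0 < k) {p q : ℝ} (hp : 0 ≤ p) (hq : 0 ≤ q) {T S : ℝ} (hw : Wt w w1 w2 2 T) (h0 : ∀ y ∈ Icc 2 T, 0 ≤ w y)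
    (hT : 2 ≤ T) (hS3 : 3 ≤ S) (hST : S ≤ T) (h1 : ∀ y, 3 ≤ y → y ≤ S → w y = 1) :
    ZZ k p q S ≤ ZZ k p q 3 + ∫ z in SI 2 T, (p + q * (z.1 - 1 / 2)) * w z.2 * Fk riemannZeta k (pt z.1 z.2) := by
  obtain ⟨I, -, -⟩ := inf_id hk hw h0 (by norm_num) hT hp hq
  have hsplit : SI 2 S = SI 2 3 ∪ Ici (1 / 2) ×ˢ Ioc 3 S := by
    unfold SI
    rw [← prod_union, Icc_union_Ioc_eq_Icc (by norm_num) hS3]
  have hdis : Disjoint (SI 2 3) (Ici (1 / 2) ×ˢ Ioc (3:ℝ) S) := by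
    rw [Set.disjoint_left]
    rintro z hz1 hz2
    exact absurd hz1.2.2 (not_le.2 hz2.2.1)
  have hm : MeasurableSet (Ici (1 / 2 : ℝ) ×ˢ Ioc (3:ℝ) S) := measurableSet_Ici.prod measurableSet_Ioc
  have hsub : Ici (1 / 2 : ℝ) ×ˢ Ioc (3:ℝ) S ⊆ SI 2 S := by rw [hsplit]; exact subset_union_right
  have hsub3 : SI 2 3 ⊆ SI 2 S := by rw [hsplit]; exact subset_union_left
  have J := loc_int (a := 2) (b := S) hk (by norm_num) hp hq
  unfold ZZ
  rw [hsplit, setIntegral_union hdis hm (J.mono_set hsub3) (J.mono_set hsub)]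
  refine add_le_add le_rfl ?_
  have e1 : ∫ z in Ici (1 / 2) ×ˢ Ioc 3 S, (p + q * (z.1 - 1 / 2)) * Fk riemannZeta k (pt z.1 z.2) =
      ∫ z in Ici (1 / 2) ×ˢ Ioc 3 S, (p + q * (z.1 - 1 / 2)) * w z.2 * Fk riemannZeta k (pt z.1 z.2) := by
    refine setIntegral_congr_fun hm fun z hz => ?_
    rw [h1 _ (le_of_lt hz.2.1) hz.2.2, mul_one]
  rw [e1]
  refine setIntegral_mono_set I ?_ ?_
  · filter_upwards [ae_restrict_mem SI_meas] with z hz
    exact mul_nonneg (mul_nonneg (kap_nonneg hp hq hz.1) (h0 _ hz.2)) (Fk_nonneg _ _ _)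
  · refine (Set.prod_mono (subset_refl _) fun y hy => ?_).eventuallyLE
    exact ⟨by linarith [hy.1], hy.2.trans hST⟩

/-- the identities with the error term -/
theorem two_err (hk : 0 < k) {δ : ℝ} (hδ : 0 < δ) (hδ1 : δ < 1) : ∃ C T₀ : ℝ, 1 ≤ C ∧ 50 ≤ T₀ ∧ ∀ T : ℝ, T₀ ≤ T → ∃ w w1 w2 : ℝ → ℝ,
    Wt w w1 w2 2 T ∧ (∀ y ∈ Icc 2 T, 0 ≤ w y) ∧ (∀ y ∈ Icc 2 T, w y ≤ 1) ∧ (∀ y, 3 ≤ y → y ≤ (1 - δ) * T → w y = 1) ∧
    50 ≤ (1 - δ) * T ∧ ∀ p q : ℝ, 0 ≤ p → p ≤ 1 → 0 ≤ q → q ≤ 1 →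
    |k ^ 2 * (∫ z in SI 2 T, (p + q * (z.1 - 1 / 2)) * w z.2 * Fk riemannZeta k (pt z.1 z.2)) - L0 w k 2 T p q| ≤
      C * (1 + T⁻¹ * AA w k (1 / 2) 2 T) := by
  obtain ⟨m, hm⟩ := exists_nat_ge (10 * k + 2)
  have hm2 : 2 ≤ m := by
    have : (2:ℝ) ≤ m := by linarith
    exact_mod_cast this
  obtain ⟨K, hK, hg⟩ := exists_gw m hm2 hδ hδ1
  obtain ⟨C, T₀, hC, he⟩ := err_le hk hm hK
  refine ⟨C, max (max T₀ 50) (50 / (1 - δ)), hC, (le_max_right _ _).trans (le_max_left _ _), fun T hT => ?_⟩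
  have h1 : T₀ ≤ T := ((le_max_left _ _).trans (le_max_left _ _)).trans hT
  have h2 : 50 ≤ T := ((le_max_right _ _).trans (le_max_left _ _)).trans hT
  have h3 : 50 / (1 - δ) ≤ T := (le_max_right _ _).trans hT
  obtain ⟨g, w, w1, w2, hG, hw⟩ := hg T (by linarith)
  refine ⟨w, w1, w2, hG.wt, hG.w0, fun y hy => ?_, hw, ?_, fun p q hp hp1 hq hq1 => ?_⟩
  · rw [hG.gw y hy]; exact pow_le_one₀ (hG.g0 y hy) (hG.g1 y hy)
  · rw [div_le_iff₀ (by linarith)] at h3; linarith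
  · have e := he T g w w1 w2 2 T h1 hG p q hp hp1 hq hq1
    obtain ⟨-, -, e2⟩ := inf_id hk hG.wt hG.w0 (by norm_num) hG.hab hp hq
    rw [e2]
    rwa [add_sub_cancel_left]

section line

variable {T : ℝ} (hk : 0 < k) (hw : Wt w w1 w2 2 T) (h0 : ∀ y ∈ Icc 2 T, 0 ≤ w y) (h1 : ∀ y ∈ Icc 2 T, w y ≤ 1) (hT : 50 ≤ T)

include hk hw

lemma AA_ii (a b : ℝ) : IntervalIntegrable (fun t => w t * zl k t) volume a b :=
  (hw.c.mul (zl_cont hk)).intervalIntegrable _ _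

include h0 h1 hT

lemma AA_le : AA w k (1 / 2) 2 T ≤ MM k T := by
  have e1 : AA w k (1 / 2) 2 T ≤ ∫ t in (2:ℝ)..T, zl k t := by
    refine intervalIntegral.integral_mono_on (by linarith) (AA_ii hk hw _ _) (zl_ii hk _ _) fun y hy => ?_
    exact mul_le_of_le_one_left (zl_nonneg _ _) (h1 y hy)
  have e2 : 0 ≤ ∫ t in (0:ℝ)..2, zl k t := intervalIntegral.integral_nonneg (by norm_num) fun y _ => zl_nonneg _ _
  unfold MM
  rw [← intervalIntegral.integral_add_adjacent_intervals (zl_ii hk 0 2) (zl_ii hk 2 T)]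
  linarith

omit h1 in
lemma AA_ge {S : ℝ} (hS3 : 3 ≤ S) (hST : S ≤ T) (h3 : ∀ y, 3 ≤ y → y ≤ S → w y = 1) :
    MM k S ≤ MM k 3 + AA w k (1 / 2) 2 T := by
  unfold MM AA
  rw [← intervalIntegral.integral_add_adjacent_intervals (zl_ii hk 0 3) (zl_ii hk 3 S)]
  refine add_le_add le_rfl ?_
  have e1 : ∫ t in (3:ℝ)..S, zl k t = ∫ t in (3:ℝ)..S, w t * zl k t := by
    refine intervalIntegral.integral_congr fun y hy => ?_
    rw [uIcc_of_le hS3] at hy
    show zl k y = w y * zl k y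
    rw [h3 y hy.1 hy.2, one_mul]
  rw [e1]
  have e2 : 0 ≤ ∫ t in (2:ℝ)..3, w t * zl k t := intervalIntegral.integral_nonneg (by norm_num) fun y hy =>
    mul_nonneg (h0 y ⟨hy.1, by linarith [hy.2]⟩) (zl_nonneg _ _)
  have e3 : 0 ≤ ∫ t in S..T, w t * zl k t := intervalIntegral.integral_nonneg hST fun y hy =>
    mul_nonneg (h0 y ⟨by linarith [hy.1], hy.2⟩) (zl_nonneg _ _)
  have e4 : ∫ t in (2:ℝ)..T, w t * zl k t = (∫ t in (2:ℝ)..3, w t * zl k t) + (∫ t in (3:ℝ)..S, w t * zl k t) +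
      ∫ t in S..T, w t * zl k t := by
    rw [intervalIntegral.integral_add_adjacent_intervals (AA_ii hk hw _ _) (AA_ii hk hw _ _),
      intervalIntegral.integral_add_adjacent_intervals (AA_ii hk hw _ _) (AA_ii hk hw _ _)]
  show _ ≤ ∫ t in (2:ℝ)..T, w t * zl k t
  rw [e4]
  linarith

lemma L0_V : |L0 w k 2 T 0 1 - AA w k (1 / 2) 2 T| ≤ T := by
  have e1 : L0 w k 2 T 0 1 = AA w k (1 / 2) 2 T - ∫ t in (2:ℝ)..T, w t := by
    have e0 := intervalIntegral.integral_sub (AA_ii hk hw 2 T) (hw.c.intervalIntegrable (μ := volume) 2 T)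
    unfold L0 AA
    refine Eq.trans ?_ e0
    refine intervalIntegral.integral_congr fun y _ => ?_
    show w y * (0 * (k / 2 * lam y * ‖riemannZeta (pt (1 / 2) y)‖ ^ k) + 1 * (‖riemannZeta (pt (1 / 2) y)‖ ^ k - 1)) =
      w y * ‖riemannZeta (pt (1 / 2) y)‖ ^ k - w y
    ring
  rw [e1, sub_sub_cancel_left, abs_neg]
  have e2 : 0 ≤ ∫ t in (2:ℝ)..T, w t := intervalIntegral.integral_nonneg (by linarith) h0
  rw [abs_of_nonneg e2]
  have e3 : ∫ t in (2:ℝ)..T, w t ≤ ∫ _ in (2:ℝ)..T, (1:ℝ) :=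
    intervalIntegral.integral_mono_on (by linarith) (hw.c.intervalIntegrable _ _) (by simp) h1
  rw [intervalIntegral.integral_const, smul_eq_mul, mul_one] at e3
  linarith

/-- the part above `50` with the weight `lam` -/
lemma L0_E {c : ℝ} (hc : ∀ y ∈ Icc (2:ℝ) 50, |lam y| * zl k y ≤ c) :
    ∃ Pw : ℝ, |L0 w k 2 T 1 0 - k / 2 * Pw| ≤ k / 2 * (48 * c) ∧ 0 ≤ Pw ∧ Pw ≤ LM k T ∧
      AA w k (1 / 2) 2 T ≤ (∫ t in (2:ℝ)..50, zl k t) + Pw ∧
      ∀ S : ℝ, 50 ≤ S → S ≤ T → (∀ y, 3 ≤ y → y ≤ S → w y = 1) → LM k S ≤ Pw := by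
  have hlz : ∀ {a b : ℝ}, 1 < a → a ≤ b → IntervalIntegrable (fun t => w t * (lam t * zl k t)) volume a b := by
    intro a b ha hab
    refine ContinuousOn.intervalIntegrable ?_
    rw [uIcc_of_le hab]
    exact hw.c.continuousOn.mul ((lam_cont.mono fun y hy => lt_of_lt_of_le ha hy.1).mul (zl_cont hk).continuousOn)
  have hlam : ∀ y : ℝ, 50 ≤ y → 1 ≤ lam y := fun y hy => Pool.Agent.W338.QS.lam_ge hy
  refine ⟨∫ t in (50:ℝ)..T, w t * (lam t * zl k t), ?_, ?_, ?_, ?_, fun S hS hST h3 => ?_⟩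
  · have e1 : L0 w k 2 T 1 0 = k / 2 * ∫ t in (2:ℝ)..T, w t * (lam t * zl k t) := by
      unfold L0
      rw [← intervalIntegral.integral_const_mul]
      refine intervalIntegral.integral_congr fun y _ => ?_
      show w y * (1 * (k / 2 * lam y * ‖riemannZeta (pt (1 / 2) y)‖ ^ k) + 0 * (‖riemannZeta (pt (1 / 2) y)‖ ^ k - 1)) =
        k / 2 * (w y * (lam y * ‖riemannZeta (pt (1 / 2) y)‖ ^ k))
      ring
    rw [e1, ← mul_sub, ← intervalIntegral.integral_add_adjacent_intervals (hlz (by norm_num) (by norm_num : (2:ℝ) ≤ 50))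
      (hlz (by norm_num) hT), add_sub_cancel_right, abs_mul, abs_of_pos (by linarith : 0 < k / 2)]
    refine mul_le_mul_of_nonneg_left ?_ (by linarith)
    have := intervalIntegral.norm_integral_le_of_norm_le_const (a := 2) (b := 50) (C := c)
      (f := fun t => w t * (lam t * zl k t)) (fun y hy => by
        rw [uIoc_of_le (by norm_num)] at hy
        have hy2 : y ∈ Icc 2 T := ⟨hy.1.le, by linarith [hy.2]⟩
        rw [norm_mul, norm_mul, Real.norm_eq_abs, Real.norm_eq_abs, Real.norm_of_nonneg (zl_nonneg _ _), abs_of_nonneg (h0 y hy2)]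
        have h4 : 0 ≤ |lam y| * zl k y := mul_nonneg (abs_nonneg _) (zl_nonneg _ _)
        exact (mul_le_of_le_one_left h4 (h1 y hy2)).trans (hc y ⟨hy.1.le, hy.2⟩))
    rw [Real.norm_eq_abs, abs_of_nonneg (by norm_num : (0:ℝ) ≤ 50 - 2)] at this
    linarith
  · refine intervalIntegral.integral_nonneg hT fun y hy => ?_
    have := hlam y hy.1
    exact mul_nonneg (h0 y ⟨by linarith [hy.1], hy.2⟩) (mul_nonneg (by linarith) (zl_nonneg _ _))
  · refine intervalIntegral.integral_mono_on hT (hlz (by norm_num) hT) (lz_ii hk (by norm_num) hT) fun y hy => ?_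
    have := hlam y hy.1
    exact mul_le_of_le_one_left (mul_nonneg (by linarith) (zl_nonneg _ _)) (h1 y ⟨by linarith [hy.1], hy.2⟩)
  · have e1 : AA w k (1 / 2) 2 T = (∫ t in (2:ℝ)..50, w t * zl k t) + ∫ t in (50:ℝ)..T, w t * zl k t :=
      (intervalIntegral.integral_add_adjacent_intervals (AA_ii hk hw _ _) (AA_ii hk hw _ _)).symm
    rw [e1]
    refine add_le_add ?_ ?_
    · refine intervalIntegral.integral_mono_on (by norm_num) (AA_ii hk hw _ _) (zl_ii hk _ _) fun y hy => ?_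
      exact mul_le_of_le_one_left (zl_nonneg _ _) (h1 y ⟨hy.1, by linarith [hy.2]⟩)
    · refine intervalIntegral.integral_mono_on hT (AA_ii hk hw _ _) (hlz (by norm_num) hT) fun y hy => ?_
      have := hlam y hy.1
      exact mul_le_mul_of_nonneg_left (le_mul_of_one_le_left (zl_nonneg _ _) this) (h0 y ⟨by linarith [hy.1], hy.2⟩)
  · have e1 : LM k S = ∫ t in (50:ℝ)..S, w t * (lam t * zl k t) := by
      unfold LM
      refine intervalIntegral.integral_congr fun y hy => ?_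
      rw [uIcc_of_le hS] at hy
      show _ = w y * _
      rw [h3 y (by linarith [hy.1]) hy.2, one_mul]
    rw [e1, ← intervalIntegral.integral_add_adjacent_intervals (hlz (by norm_num) hS) (hlz (by linarith) hST)]
    have : 0 ≤ ∫ t in S..T, w t * (lam t * zl k t) := intervalIntegral.integral_nonneg hST fun y hy => by
      have := hlam y (hS.trans hy.1)
      exact mul_nonneg (h0 y ⟨by linarith [hy.1], hy.2⟩) (mul_nonneg (by linarith) (zl_nonneg _ _))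
    linarith

end line

lemma MM_nonneg {T : ℝ} (hT : 0 ≤ T) : 0 ≤ MM k T := intervalIntegral.integral_nonneg hT fun y _ => zl_nonneg _ _

lemma inv_ineq {C T x y : ℝ} (hC : 0 ≤ C) (hT : 2 * C ≤ T) (hT0 : 0 < T) (hy : 0 ≤ y)
    (h : (1 - C / T) * x ≤ y) : x ≤ (1 + 2 * C / T) * y := by
  have h1 : C / T ≤ 1 / 2 := by rw [div_le_iff₀ hT0]; linarith
  have h2 : 0 ≤ C / T := by positivity
  have h3 : 2 * C / T = 2 * (C / T) := by ring
  rw [h3]
  set u := C / T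
  have h4 : 1 ≤ (1 + 2 * u) * (1 - u) := by nlinarith
  have h5 : (1 + 2 * u) * ((1 - u) * x) ≤ (1 + 2 * u) * y := mul_le_mul_of_nonneg_left h (by linarith)
  rcases le_or_gt x 0 with hx | hx
  · have : 0 ≤ (1 + 2 * u) * y := mul_nonneg (by linarith) hy
    linarith
  · nlinarith

theorem ilv_V (hk : 0 < k) : Ilv (fun T => k ^ 2 * ZZ k 0 1 T) (MM k) ∧ Ilv (MM k) (fun T => k ^ 2 * ZZ k 0 1 T) := by
  constructor
  · intro δ hδ hδ1
    obtain ⟨C, T₀, hC, hT₀, h⟩ := two_err hk hδ hδ1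
    refine ⟨C + 1 + k ^ 2 * |ZZ k 0 1 3|, T₀, by positivity, fun T hT => ?_⟩
    obtain ⟨w, w1, w2, hw, h0, h1, h3, h50, he⟩ := h T hT
    have hT50 : 50 ≤ T := hT₀.trans hT
    have hT0 : 0 < T := by linarith
    have e := he 0 1 le_rfl zero_le_one zero_le_one le_rfl
    have e1 := abs_le.1 e
    have e2 := abs_le.1 (L0_V hk hw h0 h1 hT50)
    have e3 := AA_le hk hw h0 h1 hT50
    have e4 := w_ge (p := 0) (q := 1) (S := (1 - δ) * T) hk le_rfl zero_le_one hw h0 (by linarith) (by linarith)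
      (by nlinarith) h3
    have e5 := le_abs_self (ZZ k 0 1 3)
    have hM := MM_nonneg (k := k) hT0.le
    set V := ∫ z in SI 2 T, (0 + 1 * (z.1 - 1 / 2)) * w z.2 * Fk riemannZeta k (pt z.1 z.2)
    have hk2 : 0 < k ^ 2 := by positivity
    have e6 : k ^ 2 * ZZ k 0 1 ((1 - δ) * T) ≤ k ^ 2 * |ZZ k 0 1 3| + k ^ 2 * V := by
      rw [← mul_add]; exact mul_le_mul_of_nonneg_left (by linarith) hk2.le
    have hA0 : 0 ≤ AA w k (1 / 2) 2 T := AA_nonneg (by linarith) h0 _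
    -- use the exact identity: `L0 ≤ AA`
    have e7 : L0 w k 2 T 0 1 ≤ AA w k (1 / 2) 2 T + T := by linarith [e2.2]
    have e8 : C * (1 + T⁻¹ * AA w k (1 / 2) 2 T) ≤ C + C / T * MM k T := by
      calc C * (1 + T⁻¹ * AA w k (1 / 2) 2 T) = C + C / T * AA w k (1 / 2) 2 T := by rw [div_eq_mul_inv]; ring
        _ ≤ _ := by gcongr
    have e9 : C ≤ C * T := by nlinarith
    have e10 : k ^ 2 * |ZZ k 0 1 3| ≤ k ^ 2 * |ZZ k 0 1 3| * T := by
      have : 0 ≤ k ^ 2 * |ZZ k 0 1 3| := by positivity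
      nlinarith
    have e11 : C / T * MM k T ≤ (C + 1 + k ^ 2 * |ZZ k 0 1 3|) / T * MM k T := by
      have : 0 ≤ k ^ 2 * |ZZ k 0 1 3| := by positivity
      gcongr
      linarith
    simp only
    nlinarith [e1.2]
  · intro δ hδ hδ1
    obtain ⟨C, T₀, hC, hT₀, h⟩ := two_err hk hδ hδ1
    refine ⟨2 * C + 4 + |MM k 3|, max T₀ (2 * C), by positivity, fun T hT' => ?_⟩
    have hT : T₀ ≤ T := (le_max_left _ _).trans hT'
    have hTC : 2 * C ≤ T := (le_max_right _ _).trans hT'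
    obtain ⟨w, w1, w2, hw, h0, h1, h3, h50, he⟩ := h T hT
    have hT50 : 50 ≤ T := hT₀.trans hT
    have hT0 : 0 < T := by linarith
    have e := he 0 1 le_rfl zero_le_one zero_le_one le_rfl
    have e1 := abs_le.1 e
    have e2 := abs_le.1 (L0_V hk hw h0 h1 hT50)
    have e3 := AA_ge hk hw h0 hT50 (S := (1 - δ) * T) (by linarith) (by nlinarith) h3
    have e4 := w_le (p := 0) (q := 1) hk le_rfl zero_le_one hw h0 h1 (by linarith)
    have e5 := le_abs_self (MM k 3)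
    set V := ∫ z in SI 2 T, (0 + 1 * (z.1 - 1 / 2)) * w z.2 * Fk riemannZeta k (pt z.1 z.2)
    have hk2 : 0 < k ^ 2 := by positivity
    have hZ0 : 0 ≤ ZZ k 0 1 T := setIntegral_nonneg SI_meas fun z hz => dens_nonneg le_rfl zero_le_one hz
    have e6 : k ^ 2 * V ≤ k ^ 2 * ZZ k 0 1 T := mul_le_mul_of_nonneg_left e4 hk2.le
    have e7 : (1 - C / T) * AA w k (1 / 2) 2 T ≤ k ^ 2 * ZZ k 0 1 T + T + C := by
      have : C / T * AA w k (1 / 2) 2 T = C * (T⁻¹ * AA w k (1 / 2) 2 T) := by rw [div_eq_mul_inv]; ring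
      have f1 := e1.1
      have f2 := e2.1
      nlinarith
    have e8 := inv_ineq (by linarith) hTC hT0 (by positivity) e7
    have e9 : 2 * C / T ≤ 1 := by rw [div_le_one hT0]; exact hTC
    have e10 : (1 + 2 * C / T) * (T + C) ≤ 4 * T := by
      have : 0 ≤ 2 * C / T := by positivity
      nlinarith
    have e11 : 2 * C / T * (k ^ 2 * ZZ k 0 1 T) ≤ (2 * C + 4 + |MM k 3|) / T * (k ^ 2 * ZZ k 0 1 T) := by
      gcongr
      have := abs_nonneg (MM k 3)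
      linarith
    have e12 : |MM k 3| ≤ |MM k 3| * T := by nlinarith [abs_nonneg (MM k 3)]
    simp only
    nlinarith

theorem ilv_E (hk : 0 < k) : Ilv (fun T => 2 * k * ZZ k 1 0 T) (LM k) ∧ Ilv (LM k) (fun T => 2 * k * ZZ k 1 0 T) := by
  obtain ⟨c, hc⟩ : ∃ c : ℝ, ∀ y ∈ Icc (2:ℝ) 50, |lam y| * zl k y ≤ c := by
    have hcont : ContinuousOn (fun y => |lam y| * zl k y) (Icc 2 50) :=
      (lam_cont.mono fun y hy => lt_of_lt_of_le (by norm_num : (1:ℝ) < 2) hy.1).abs.mul (zl_cont hk).continuousOn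
    obtain ⟨c, hc⟩ := isCompact_Icc.exists_bound_of_continuousOn hcont
    exact ⟨c, fun y hy => (le_abs_self _).trans (hc y hy)⟩
  have hc0 : 0 ≤ c := le_trans (mul_nonneg (abs_nonneg (lam 2)) (zl_nonneg k 2)) (hc 2 ⟨le_rfl, by norm_num⟩)
  set c₁ : ℝ := ∫ t in (2:ℝ)..50, zl k t with hc₁
  have hc₁0 : 0 ≤ c₁ := intervalIntegral.integral_nonneg (by norm_num) fun y _ => zl_nonneg _ _
  constructor
  · intro δ hδ hδ1
    obtain ⟨C, T₀, hC, hT₀, h⟩ := two_err hk hδ hδ1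
    have hB0 : 0 ≤ 2 / k * C * (1 + c₁) + 48 * c + 2 * k * |ZZ k 1 0 3| := by positivity
    refine ⟨2 / k * C * (1 + c₁) + 48 * c + 2 * k * |ZZ k 1 0 3|, T₀, hB0, fun T hT => ?_⟩
    obtain ⟨w, w1, w2, hw, h0, h1, h3, h50, he⟩ := h T hT
    have hT50 : 50 ≤ T := hT₀.trans hT
    have hT0 : 0 < T := by linarith
    have e1 := (abs_le.1 (he 1 0 zero_le_one le_rfl le_rfl zero_le_one)).2
    obtain ⟨Pw, p1, p2, p3, p4, -⟩ := L0_E hk hw h0 h1 hT50 hc
    have p1' := (abs_le.1 p1).2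
    have e4 := w_ge (p := 1) (q := 0) (S := (1 - δ) * T) hk zero_le_one le_rfl hw h0 (by linarith) (by linarith)
      (by nlinarith) h3
    have e5 := le_abs_self (ZZ k 1 0 3)
    set V := ∫ z in SI 2 T, (1 + 0 * (z.1 - 1 / 2)) * w z.2 * Fk riemannZeta k (pt z.1 z.2)
    -- `2 k V ≤ Pw + 48 c + (2/k) C (1 + T⁻¹ A)`
    have e6 : 2 * k * V ≤ Pw + 48 * c + 2 / k * (C * (1 + T⁻¹ * AA w k (1 / 2) 2 T)) := by
      have f1 : k ^ 2 * V ≤ k / 2 * Pw + k / 2 * (48 * c) + C * (1 + T⁻¹ * AA w k (1 / 2) 2 T) := by linarith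
      have f2 : 2 * k * V = 2 / k * (k ^ 2 * V) := by field_simp
      rw [f2]
      calc 2 / k * (k ^ 2 * V) ≤ 2 / k * (k / 2 * Pw + k / 2 * (48 * c) + C * (1 + T⁻¹ * AA w k (1 / 2) 2 T)) := by gcongr
        _ = _ := by field_simp
    have hT1 : T⁻¹ ≤ 1 := inv_le_one_of_one_le₀ (by linarith)
    have e7 : T⁻¹ * AA w k (1 / 2) 2 T ≤ c₁ + T⁻¹ * LM k T := by
      calc T⁻¹ * AA w k (1 / 2) 2 T ≤ T⁻¹ * (c₁ + LM k T) := by gcongr; linarith
        _ = T⁻¹ * c₁ + T⁻¹ * LM k T := by ring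
        _ ≤ 1 * c₁ + T⁻¹ * LM k T := by gcongr
        _ = _ := by ring
    have e8 : 2 / k * (C * (1 + T⁻¹ * AA w k (1 / 2) 2 T)) ≤ 2 / k * C * (1 + c₁) + 2 / k * C * (T⁻¹ * LM k T) := by
      calc 2 / k * (C * (1 + T⁻¹ * AA w k (1 / 2) 2 T)) ≤ 2 / k * (C * (1 + (c₁ + T⁻¹ * LM k T))) := by gcongr
        _ = _ := by ring
    have hLM : 0 ≤ LM k T := p2.trans p3
    have e9 : 2 / k * C * (T⁻¹ * LM k T) ≤ (2 / k * C * (1 + c₁) + 48 * c + 2 * k * |ZZ k 1 0 3|) / T * LM k T := by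
      have q0 : (2 / k * C * (1 + c₁) + 48 * c + 2 * k * |ZZ k 1 0 3|) / T * LM k T =
          (2 / k * C * (1 + c₁) + 48 * c + 2 * k * |ZZ k 1 0 3|) * (T⁻¹ * LM k T) := by rw [div_eq_mul_inv]; ring
      rw [q0]
      have q1 : 0 ≤ 2 / k * C * c₁ := by positivity
      have q2 : 0 ≤ 2 * k * |ZZ k 1 0 3| := by positivity
      have q3 : 0 ≤ T⁻¹ * LM k T := by positivity
      exact mul_le_mul_of_nonneg_right (by linarith) q3
    have e10 : 2 * k * ZZ k 1 0 ((1 - δ) * T) ≤ 2 * k * |ZZ k 1 0 3| + 2 * k * V := by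
      rw [← mul_add]; exact mul_le_mul_of_nonneg_left (by linarith) (by positivity)
    simp only
    nlinarith
  · intro δ hδ hδ1
    obtain ⟨C, T₀, hC, hT₀, h⟩ := two_err hk hδ hδ1
    set C' : ℝ := 2 / k * C with hC'
    have hC'0 : 0 ≤ C' := by positivity
    refine ⟨2 * C' + 2 * (48 * c + C' * (1 + c₁)), max T₀ (2 * C'), by positivity, fun T hT' => ?_⟩
    have hT : T₀ ≤ T := (le_max_left _ _).trans hT'
    have hTC : 2 * C' ≤ T := (le_max_right _ _).trans hT'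
    obtain ⟨w, w1, w2, hw, h0, h1, h3, h50, he⟩ := h T hT
    have hT50 : 50 ≤ T := hT₀.trans hT
    have hT0 : 0 < T := by linarith
    have e1 := (abs_le.1 (he 1 0 zero_le_one le_rfl le_rfl zero_le_one)).1
    obtain ⟨Pw, p1, p2, p3, p4, p5⟩ := L0_E hk hw h0 h1 hT50 hc
    have p1' := (abs_le.1 p1).1
    have e3 := p5 ((1 - δ) * T) h50 (by nlinarith) h3
    have e4 := w_le (p := 1) (q := 0) hk zero_le_one le_rfl hw h0 h1 (by linarith)
    set V := ∫ z in SI 2 T, (1 + 0 * (z.1 - 1 / 2)) * w z.2 * Fk riemannZeta k (pt z.1 z.2)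
    have hZ0 : 0 ≤ ZZ k 1 0 T := setIntegral_nonneg SI_meas fun z hz => dens_nonneg zero_le_one le_rfl hz
    have e6 : Pw ≤ 2 * k * V + 48 * c + C' * (1 + T⁻¹ * AA w k (1 / 2) 2 T) := by
      have f1 : k / 2 * Pw ≤ k ^ 2 * V + k / 2 * (48 * c) + C * (1 + T⁻¹ * AA w k (1 / 2) 2 T) := by linarith
      have f2 : Pw = 2 / k * (k / 2 * Pw) := by field_simp
      rw [f2]
      calc 2 / k * (k / 2 * Pw) ≤ 2 / k * (k ^ 2 * V + k / 2 * (48 * c) + C * (1 + T⁻¹ * AA w k (1 / 2) 2 T)) := by gcongr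
        _ = _ := by rw [hC']; field_simp
    have hT1 : T⁻¹ ≤ 1 := inv_le_one_of_one_le₀ (by linarith)
    have e7 : T⁻¹ * AA w k (1 / 2) 2 T ≤ c₁ + T⁻¹ * Pw := by
      calc T⁻¹ * AA w k (1 / 2) 2 T ≤ T⁻¹ * (c₁ + Pw) := by gcongr
        _ = T⁻¹ * c₁ + T⁻¹ * Pw := by ring
        _ ≤ 1 * c₁ + T⁻¹ * Pw := by gcongr
        _ = _ := by ring
    have e8 : C' * (1 + T⁻¹ * AA w k (1 / 2) 2 T) ≤ C' * (1 + c₁) + C' / T * Pw := by
      calc C' * (1 + T⁻¹ * AA w k (1 / 2) 2 T) ≤ C' * (1 + (c₁ + T⁻¹ * Pw)) := by gcongr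
        _ = _ := by rw [div_eq_mul_inv]; ring
    have e9 : 2 * k * V ≤ 2 * k * ZZ k 1 0 T := by gcongr
    have e10 : (1 - C' / T) * Pw ≤ 2 * k * ZZ k 1 0 T + (48 * c + C' * (1 + c₁)) := by linarith
    have e11 := inv_ineq hC'0 hTC hT0 (by positivity) e10
    have e12 : 2 * C' / T ≤ 1 := by rw [div_le_one hT0]; exact hTC
    have hD : 0 ≤ 48 * c + C' * (1 + c₁) := by positivity
    have e13 : (1 + 2 * C' / T) * (48 * c + C' * (1 + c₁)) ≤ 2 * (48 * c + C' * (1 + c₁)) := by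
      gcongr; linarith
    have e14 : 2 * (48 * c + C' * (1 + c₁)) ≤ 2 * (48 * c + C' * (1 + c₁)) * T := by nlinarith
    have e15 : 2 * C' / T * (2 * k * ZZ k 1 0 T) ≤ (2 * C' + 2 * (48 * c + C' * (1 + c₁))) / T * (2 * k * ZZ k 1 0 T) := by
      gcongr
      linarith
    have e16 : 0 ≤ 2 * C' * T := by positivity
    simp only
    nlinarith

end

end Pool.Agent.L7h13.AF
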