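import Pool.Agent.L7h13.AF.Fin
import Pool.Agent.TH806.LM.Fin

/-!
# The moments in smooth windows are of larger order than `T`
-/

set_option autoImplicit false

open Complex MeasureTheory Set Filter Topology

namespace Pool.Agent.L7h13.AF

noncomputable section

variable {k : ℝ}

/-- lower bound in windows of proportional length -/
theorem low_win (hk : 0 < k) {r : ℝ} (hr : 0 < r) (hr1 : r ≤ 1) : ∃ c : ℝ, 0 < c ∧ ∀ᶠ T : ℝ in atTop,
    c * (r * T) * Real.log T ^ ((k / 2) ^ 2) ≤ ∫ t in T..(T + r * T), zl k t := by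
  obtain ⟨E, c, C, W, δ, mE, hc, hC, hW, hδ, hδδ, hq, h⟩ := Pool.Agent.TH806.LM.a_FIN (k / 2) (1 / 2) 1 (by positivity)
    (by norm_num) one_pos
  refine ⟨c, hc, ?_⟩
  have hlog : ∀ᶠ T : ℝ in atTop, T / Real.log T ^ (1 / 2 : ℝ) ≤ r * T := by
    have h1 : Tendsto (fun T : ℝ => Real.log T ^ (1 / 2 : ℝ)) atTop atTop :=
      (tendsto_rpow_atTop (by norm_num)).comp Real.tendsto_log_atTop
    filter_upwards [h1.eventually_ge_atTop (1 / r), eventually_gt_atTop 1] with T h2 h3
    have h4 : 0 < Real.log T ^ (1 / 2 : ℝ) := lt_of_lt_of_le (by positivity) h2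
    rw [div_le_iff₀ h4]
    rw [div_le_iff₀ hr] at h2
    nlinarith
  filter_upwards [h (1 / 2) (by norm_num) (by norm_num), hlog, eventually_gt_atTop 1] with T hT h1 h2
  obtain ⟨-, -, h3⟩ := hT (r * T) h1 (by nlinarith)
  obtain ⟨h4, h5, -⟩ := h3 (k / 2) (by rw [abs_of_nonneg (by positivity)])
  rw [mul_assoc c]
  refine h5.trans ?_
  have e : ∀ t : ℝ, Pool.Agent.TH806.Xz t ^ (2 * (k / 2)) = zl k t := by
    intro t
    unfold zl pt Pool.Agent.TH806.Xz
    rw [mul_div_cancel₀ _ (two_ne_zero' ℝ)]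
    rw [show Pool.Agent.H306R2.SM.cl t = ((1 / 2 : ℝ) : ℂ) + (t : ℂ) * Complex.I from by
      unfold Pool.Agent.H306R2.SM.cl; push_cast; ring]
  simp_rw [e]
  rw [intervalIntegral.integral_of_le (by nlinarith), ← integral_Icc_eq_integral_Ioc]
  refine setIntegral_mono_set ?_ (Eventually.of_forall fun y => zl_nonneg _ _) ?_
  · exact (zl_cont hk).continuousOn.integrableOn_compact isCompact_Icc
  · exact (inter_subset_left).eventuallyLE

theorem big (hk : 0 < k) {φ : ℝ → ℝ} (hφ : Continuous φ) (h0 : ∀ t, 0 ≤ φ t) {α β : ℝ} (hα : 0 < α) (hαβ : α < β)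
    (hs : ∀ t, t ∉ Ioo α β → φ t = 0) (hne : ∃ x, φ x ≠ 0) (m : ℕ) :
    Tendsto (fun T : ℝ => T⁻¹ * AA (fun t => φ (t / T) ^ m) k (1 / 2) (α * T) (β * T)) atTop atTop := by
  obtain ⟨x, hx⟩ := hne
  have hxI : x ∈ Ioo α β := by
    by_contra h
    exact hx (hs x h)
  have hx0 : 0 < x := hα.trans hxI.1
  have hφx : 0 < φ x := lt_of_le_of_ne (h0 x) (Ne.symm hx)
  -- an interval on which `φ ≥ φ x / 2`
  obtain ⟨η, hη, hηφ⟩ : ∃ η : ℝ, 0 < η ∧ ∀ y, |y - x| < η → φ x / 2 < φ y := by
    have := hφ.continuousAt.eventually (lt_mem_nhds (by linarith : φ x / 2 < φ x))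
    obtain ⟨η, hη, h⟩ := Metric.eventually_nhds_iff.1 this
    exact ⟨η, hη, fun y hy => h (by rwa [Real.dist_eq])⟩
  set r : ℝ := min 1 (min (η / (2 * x)) ((β - x) / (2 * x))) with hr
  have hr0 : 0 < r := by
    have : 0 < β - x := by linarith [hxI.2]
    positivity
  have hr1 : r ≤ 1 := min_le_left _ _
  have hr2 : r * x ≤ η / 2 := by
    have : r ≤ η / (2 * x) := (min_le_right _ _).trans (min_le_left _ _)
    calc r * x ≤ η / (2 * x) * x := by gcongr
      _ = η / 2 := by field_simp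
  have hr3 : x + r * x ≤ β := by
    have : r ≤ (β - x) / (2 * x) := (min_le_right _ _).trans (min_le_right _ _)
    have h2 : r * x ≤ (β - x) / 2 := by
      calc r * x ≤ (β - x) / (2 * x) * x := by gcongr
        _ = (β - x) / 2 := by field_simp
    linarith [hxI.2]
  obtain ⟨c, hc, hlow⟩ := low_win hk hr0 hr1
  have hxT : Tendsto (fun T : ℝ => x * T) atTop atTop := tendsto_id.const_mul_atTop hx0
  have hkey : ∀ᶠ T : ℝ in atTop, (φ x / 2) ^ m * (c * (r * x)) * Real.log (x * T) ^ ((k / 2) ^ 2) ≤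
      T⁻¹ * AA (fun t => φ (t / T) ^ m) k (1 / 2) (α * T) (β * T) := by
    filter_upwards [hxT.eventually hlow, eventually_gt_atTop 0] with T hT hT0
    have hab : α * T ≤ β * T := by gcongr
    have hwc : Continuous fun t => φ (t / T) ^ m := (hφ.comp (by fun_prop)).pow m
    have i1 : ∀ a b : ℝ, IntervalIntegrable (fun t => φ (t / T) ^ m * zl k t) volume a b := fun a b =>
      (hwc.mul (zl_cont hk)).intervalIntegrable _ _
    have o1 : α * T ≤ x * T := by have := hxI.1; gcongr
    have o2 : x * T ≤ x * T + r * (x * T) := by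
      have : 0 ≤ r * (x * T) := by positivity
      linarith
    have o3 : x * T + r * (x * T) ≤ β * T := by nlinarith
    have e1 : AA (fun t => φ (t / T) ^ m) k (1 / 2) (α * T) (β * T) = (∫ t in (α * T)..(x * T), φ (t / T) ^ m * zl k t) +
        (∫ t in (x * T)..(x * T + r * (x * T)), φ (t / T) ^ m * zl k t) + ∫ t in (x * T + r * (x * T))..(β * T), φ (t / T) ^ m * zl k t := by
      rw [intervalIntegral.integral_add_adjacent_intervals (i1 _ _) (i1 _ _),
        intervalIntegral.integral_add_adjacent_intervals (i1 _ _) (i1 _ _)]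
      rfl
    have e2 : 0 ≤ ∫ t in (α * T)..(x * T), φ (t / T) ^ m * zl k t :=
      intervalIntegral.integral_nonneg o1 fun y _ => mul_nonneg (pow_nonneg (h0 _) _) (zl_nonneg _ _)
    have e3 : 0 ≤ ∫ t in (x * T + r * (x * T))..(β * T), φ (t / T) ^ m * zl k t :=
      intervalIntegral.integral_nonneg o3 fun y _ => mul_nonneg (pow_nonneg (h0 _) _) (zl_nonneg _ _)
    have e4 : (φ x / 2) ^ m * ∫ t in (x * T)..(x * T + r * (x * T)), zl k t ≤
        ∫ t in (x * T)..(x * T + r * (x * T)), φ (t / T) ^ m * zl k t := by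
      rw [← intervalIntegral.integral_const_mul]
      refine intervalIntegral.integral_mono_on o2 ((zl_ii hk _ _).const_mul _) (i1 _ _) fun y hy => ?_
      refine mul_le_mul_of_nonneg_right ?_ (zl_nonneg _ _)
      refine pow_le_pow_left₀ (by positivity) ?_ m
      refine (hηφ _ ?_).le
      have h1 : y / T - x = (y - x * T) / T := by field_simp
      rw [h1, abs_of_nonneg (div_nonneg (by linarith [hy.1]) hT0.le), div_lt_iff₀ hT0]
      have h2 : r * (x * T) ≤ η / 2 * T := by
        calc r * (x * T) = r * x * T := by ring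
          _ ≤ η / 2 * T := by gcongr
      have h3 : η / 2 * T < η * T := by nlinarith
      linarith [hy.2]
    rw [e1]
    have e5 : (φ x / 2) ^ m * (c * (r * (x * T)) * Real.log (x * T) ^ ((k / 2) ^ 2)) ≤
        (φ x / 2) ^ m * ∫ t in (x * T)..(x * T + r * (x * T)), zl k t := by
      refine mul_le_mul_of_nonneg_left hT (by positivity)
    have e6 : (φ x / 2) ^ m * (c * (r * x)) * Real.log (x * T) ^ ((k / 2) ^ 2) =
        T⁻¹ * ((φ x / 2) ^ m * (c * (r * (x * T)) * Real.log (x * T) ^ ((k / 2) ^ 2))) := by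
      field_simp
    rw [e6]
    refine mul_le_mul_of_nonneg_left ?_ (by positivity)
    linarith
  refine tendsto_atTop_mono' _ hkey ?_
  have h1 : Tendsto (fun T : ℝ => Real.log (x * T) ^ ((k / 2) ^ 2)) atTop atTop :=
    (tendsto_rpow_atTop (by positivity)).comp (Real.tendsto_log_atTop.comp hxT)
  exact h1.const_mul_atTop (by positivity)

end

end Pool.Agent.L7h13.AF
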