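import Pool.Agent.L7h13.AF.Err2

/-!
# Cut-off functions
-/

set_option autoImplicit false

open Complex MeasureTheory Set Filter Topology

namespace Pool.Agent.L7h13.AF

noncomputable section

abbrev St (x : ℝ) : ℝ := Real.smoothTransition x
def S1 (x : ℝ) : ℝ := deriv Real.smoothTransition x
def S2 (x : ℝ) : ℝ := deriv S1 x

lemma St_c2 : ContDiff ℝ 2 Real.smoothTransition := Real.smoothTransition.contDiff

lemma S1_c1 : ContDiff ℝ 1 S1 := by
  have h : ContDiff ℝ (1 + 1) Real.smoothTransition := by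
    have := St_c2
    norm_num
    exact this
  exact (contDiff_succ_iff_deriv.1 h).2.2

lemma St_d (x : ℝ) : HasDerivAt Real.smoothTransition (S1 x) x :=
  (St_c2.differentiable (by norm_num) x).hasDerivAt

lemma S1_d (x : ℝ) : HasDerivAt S1 (S2 x) x :=
  (S1_c1.differentiable (by norm_num) x).hasDerivAt

lemma S1_cont : Continuous S1 := S1_c1.continuous
lemma S2_cont : Continuous S2 := S1_c1.continuous_deriv (by norm_num)

lemma S1_right {x : ℝ} (hx : 1 < x) : S1 x = 0 := by
  have : Real.smoothTransition =ᶠ[𝓝 x] fun _ => (1:ℝ) := by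
    filter_upwards [Ioi_mem_nhds hx] with y hy
    exact Real.smoothTransition.one_of_one_le (le_of_lt hy)
  unfold S1
  rw [this.deriv_eq]
  simp

lemma S1_left {x : ℝ} (hx : x < 0) : S1 x = 0 := by
  have : Real.smoothTransition =ᶠ[𝓝 x] fun _ => (0:ℝ) := by
    filter_upwards [Iio_mem_nhds hx] with y hy
    exact Real.smoothTransition.zero_of_nonpos (le_of_lt hy)
  unfold S1
  rw [this.deriv_eq]
  simp

lemma S2_right {x : ℝ} (hx : 1 < x) : S2 x = 0 := by
  have : S1 =ᶠ[𝓝 x] fun _ => (0:ℝ) := by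
    filter_upwards [Ioi_mem_nhds hx] with y hy
    exact S1_right hy
  unfold S2
  rw [this.deriv_eq]
  simp

lemma S2_left {x : ℝ} (hx : x < 0) : S2 x = 0 := by
  have : S1 =ᶠ[𝓝 x] fun _ => (0:ℝ) := by
    filter_upwards [Iio_mem_nhds hx] with y hy
    exact S1_left hy
  unfold S2
  rw [this.deriv_eq]
  simp

lemma S_bd : ∃ M : ℝ, 1 ≤ M ∧ ∀ x, |S1 x| ≤ M ∧ |S2 x| ≤ M := by
  obtain ⟨M₁, h1⟩ := (isCompact_Icc (a := (0:ℝ)) (b := 1)).exists_bound_of_continuousOn S1_cont.continuousOn
  obtain ⟨M₂, h2⟩ := (isCompact_Icc (a := (0:ℝ)) (b := 1)).exists_bound_of_continuousOn S2_cont.continuousOn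
  refine ⟨max 1 (max M₁ M₂), le_max_left _ _, fun x => ?_⟩
  rcases lt_or_ge x 0 with h | h
  · rw [S1_left h, S2_left h, abs_zero]
    exact ⟨by positivity, by positivity⟩
  rcases lt_or_ge 1 x with h' | h'
  · rw [S1_right h', S2_right h', abs_zero]
    exact ⟨by positivity, by positivity⟩
  · exact ⟨(h1 x ⟨h, h'⟩).trans ((le_max_left _ _).trans (le_max_right _ _)),
      (h2 x ⟨h, h'⟩).trans ((le_max_right _ _).trans (le_max_right _ _))⟩

/-- powers -/
lemma pow_wt {g g1 g2 : ℝ → ℝ} (h1 : ∀ t, HasDerivAt g (g1 t) t) (h2 : ∀ t, HasDerivAt g1 (g2 t) t) (h2c : Continuous g2)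
    {m : ℕ} (hm : 2 ≤ m) {a b : ℝ} (ha : g a = 0) (hb : g b = 0) :
    Wt (fun t => g t ^ m) (fun t => (m : ℝ) * g t ^ (m - 1) * g1 t)
      (fun t => (m : ℝ) * ((m - 1 : ℕ) * g t ^ (m - 2) * g1 t ^ 2 + g t ^ (m - 1) * g2 t)) a b := by
  have hc : Continuous g := continuous_iff_continuousAt.2 fun t => (h1 t).continuousAt
  have hc1 : Continuous g1 := continuous_iff_continuousAt.2 fun t => (h2 t).continuousAt
  refine ⟨fun t => (h1 t).pow m, fun t => ?_, by fun_prop, ?_, ?_, ?_, ?_⟩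
  · have := (((h1 t).pow (m - 1)).const_mul (m : ℝ)).mul (h2 t)
    refine this.congr_deriv ?_
    have e : m - 1 - 1 = m - 2 := by omega
    rw [e]
    simp only [Pi.pow_apply]
    ring
  · rw [ha, zero_pow (by omega)]
  · rw [hb, zero_pow (by omega)]
  · rw [ha, zero_pow (by omega)]; ring
  · rw [hb, zero_pow (by omega)]; ring

/-- cut-offs at height `T` -/
lemma exists_gw (m : ℕ) (hm : 2 ≤ m) {δ : ℝ} (hδ : 0 < δ) (hδ1 : δ < 1) : ∃ K : ℝ, 0 ≤ K ∧ ∀ T : ℝ, 3 ≤ T →
    ∃ g w w1 w2 : ℝ → ℝ, GW K T m g w w1 w2 2 T ∧ ∀ y, 3 ≤ y → y ≤ (1 - δ) * T → w y = 1 := by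
  obtain ⟨M, hM1, hM⟩ := S_bd
  refine ⟨8 * (m : ℝ) ^ 2 * M ^ 2 / δ ^ 2, by positivity, fun T hT => ?_⟩
  have hT0 : 0 < T := by linarith
  set c : ℝ := -(1 / (δ * T)) with hc
  set A : ℝ → ℝ := fun t => St (t - 2) with hA
  set B : ℝ → ℝ := fun t => St (c * t + 1 / δ) with hB
  have hs : ∀ t : ℝ, HasDerivAt (fun t : ℝ => t - 2) 1 t := fun t => (hasDerivAt_id t).sub_const 2
  have hAd : ∀ t, HasDerivAt A (S1 (t - 2)) t := fun t => by
    have := (St_d (t - 2)).comp t (hs t)
    rw [mul_one] at this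
    exact this
  have hAd1 : ∀ t, HasDerivAt (fun t => S1 (t - 2)) (S2 (t - 2)) t := fun t =>
    ((S1_d (t - 2)).comp t (hs t)).congr_deriv (mul_one _)
  have hlin : ∀ t : ℝ, HasDerivAt (fun t : ℝ => c * t + 1 / δ) c t := fun t => by
    have := ((hasDerivAt_id t).const_mul c).add_const (1 / δ)
    simpa using this
  have hBd : ∀ t, HasDerivAt B (S1 (c * t + 1 / δ) * c) t := fun t => (St_d _).comp t (hlin t)
  have hBd1 : ∀ t, HasDerivAt (fun t => S1 (c * t + 1 / δ) * c) (S2 (c * t + 1 / δ) * c * c) t := fun t =>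
    ((S1_d _).comp t (hlin t)).mul_const c
  set g : ℝ → ℝ := fun t => A t * B t with hg
  set g1 : ℝ → ℝ := fun t => S1 (t - 2) * B t + A t * (S1 (c * t + 1 / δ) * c) with hg1
  set g2 : ℝ → ℝ := fun t => S2 (t - 2) * B t + 2 * (S1 (t - 2) * (S1 (c * t + 1 / δ) * c)) +
    A t * (S2 (c * t + 1 / δ) * c * c) with hg2
  have hgd : ∀ t, HasDerivAt g (g1 t) t := fun t => (hAd t).mul (hBd t)
  have hgd1 : ∀ t, HasDerivAt g1 (g2 t) t := fun t =>
    (((hAd1 t).mul (hBd t)).add ((hAd t).mul (hBd1 t))).congr_deriv (by rw [hg2]; simp only; ring)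
  have hAc : Continuous A := continuous_iff_continuousAt.2 fun t => (hAd t).continuousAt
  have hBc : Continuous B := continuous_iff_continuousAt.2 fun t => (hBd t).continuousAt
  have hS1 := S1_cont
  have hS2 := S2_cont
  have hg2c : Continuous g2 := by
    rw [hg2]
    have c1 : Continuous fun t : ℝ => S1 (t - 2) := hS1.comp (by fun_prop)
    have c2 : Continuous fun t : ℝ => S2 (t - 2) := hS2.comp (by fun_prop)
    have c3 : Continuous fun t : ℝ => S1 (c * t + 1 / δ) := hS1.comp (by fun_prop)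
    have c4 : Continuous fun t : ℝ => S2 (c * t + 1 / δ) := hS2.comp (by fun_prop)
    fun_prop
  have hga : g 2 = 0 := by
    rw [hg]; simp only; rw [hA]; simp only
    rw [sub_self, St, Real.smoothTransition.zero_of_nonpos le_rfl, zero_mul]
  have hgb : g T = 0 := by
    rw [hg]; simp only; rw [hB]; simp only
    have e : c * T + 1 / δ = 0 := by rw [hc]; field_simp; ring
    rw [e, St, Real.smoothTransition.zero_of_nonpos le_rfl, mul_zero]
  have hA0 : ∀ t, 0 ≤ A t := fun t => Real.smoothTransition.nonneg _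
  have hA1 : ∀ t, A t ≤ 1 := fun t => Real.smoothTransition.le_one _
  have hB0 : ∀ t, 0 ≤ B t := fun t => Real.smoothTransition.nonneg _
  have hB1 : ∀ t, B t ≤ 1 := fun t => Real.smoothTransition.le_one _
  have hcabs : |c| = 1 / (δ * T) := by rw [hc, abs_neg, abs_of_nonneg (by positivity)]
  refine ⟨g, _, _, _, ⟨pow_wt hgd hgd1 hg2c hm hga hgb, le_rfl, by linarith, le_rfl, fun y _ => mul_nonneg (hA0 y) (hB0 y),
    fun y _ => mul_le_one₀ (hA1 y) (hB0 y) (hB1 y), fun y _ => rfl, fun y _ => ?_⟩, fun y hy hy2 => ?_⟩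
  · have hgy0 : 0 ≤ g y := mul_nonneg (hA0 y) (hB0 y)
    have hgy1 : g y ≤ 1 := mul_le_one₀ (hA1 y) (hB0 y) (hB1 y)
    have hm1 : (1:ℝ) ≤ m := by exact_mod_cast (by omega : 1 ≤ m)
    have hcm : ((m - 1 : ℕ) : ℝ) ≤ m := by exact_mod_cast Nat.sub_le m 1
    have p1 : 0 ≤ g y ^ (m - 2) := by positivity
    have p2 : g y ^ (m - 2) ≤ 1 := pow_le_one₀ hgy0 hgy1
    have p3 : g y ^ (m - 1) ≤ g y ^ (m - 2) := pow_le_pow_of_le_one hgy0 hgy1 (by omega)
    have p4 : 0 ≤ g y ^ (m - 1) := by positivity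
    -- general bound
    have gen : ∀ D : ℝ, 0 ≤ D → |g1 y| ^ 2 ≤ D → |g2 y| ≤ D →
        |(m : ℝ) * ((m - 1 : ℕ) * g y ^ (m - 2) * g1 y ^ 2 + g y ^ (m - 1) * g2 y)| ≤ 2 * (m : ℝ) ^ 2 * D * g y ^ (m - 2) := by
      intro D hD h1 h2
      rw [abs_mul, abs_of_nonneg (by positivity : (0:ℝ) ≤ m)]
      have : |((m - 1 : ℕ) : ℝ) * g y ^ (m - 2) * g1 y ^ 2 + g y ^ (m - 1) * g2 y| ≤ m * g y ^ (m - 2) * D + g y ^ (m - 2) * D := by
        refine (abs_add_le _ _).trans (add_le_add ?_ ?_)
        · rw [abs_mul, abs_mul, abs_of_nonneg (by positivity : (0:ℝ) ≤ ((m - 1 : ℕ) : ℝ)), abs_of_nonneg p1, abs_pow]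
          gcongr
        · rw [abs_mul, abs_of_nonneg p4]
          gcongr
      calc (m : ℝ) * _ ≤ (m : ℝ) * (m * g y ^ (m - 2) * D + g y ^ (m - 2) * D) := by gcongr
        _ ≤ (m : ℝ) * (m * g y ^ (m - 2) * D + m * (g y ^ (m - 2) * D)) := by
          have q0 : 0 ≤ g y ^ (m - 2) * D := by positivity
          have q1 : g y ^ (m - 2) * D ≤ m * (g y ^ (m - 2) * D) := le_mul_of_one_le_left q0 hm1
          refine mul_le_mul_of_nonneg_left ?_ (by positivity)
          linarith
        _ = _ := by ring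
    by_cases hy3 : y ≤ 3
    · have hind : ind y = 1 := by unfold ind; rw [indicator_of_mem]; exact hy3
      rw [hind]
      have hTd : 1 / (δ * T) ≤ 1 / δ := by
        apply one_div_le_one_div_of_le hδ
        nlinarith
      have h1d : 1 ≤ 1 / δ := by rw [le_div_iff₀ hδ]; linarith
      have hBy := hB0 y
      have hAy := hA0 y
      have b1 : |g1 y| ≤ 2 * M / δ := by
        rw [hg1]; simp only
        refine (abs_add_le _ _).trans ?_
        rw [abs_mul, abs_mul, abs_mul, abs_of_nonneg (hB0 y), abs_of_nonneg (hA0 y), hcabs]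
        calc |S1 (y - 2)| * B y + A y * (|S1 (c * y + 1 / δ)| * (1 / (δ * T))) ≤ M * 1 + 1 * (M * (1 / δ)) := by
              gcongr
              · exact (hM _).1
              · exact hB1 y
              · exact hA1 y
              · exact (hM _).1
          _ ≤ M * (1 / δ) + 1 * (M * (1 / δ)) := by gcongr
          _ = _ := by ring
      have b2 : |g2 y| ≤ 4 * M ^ 2 / δ ^ 2 := by
        rw [hg2]; simp only
        refine (abs_add_le _ _).trans ((add_le_add_left (abs_add_le _ _) _).trans ?_)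
        rw [abs_mul, abs_mul, abs_mul, abs_mul, abs_mul, abs_mul, abs_mul, abs_of_nonneg (hB0 y), abs_of_nonneg (hA0 y), hcabs,
          abs_of_nonneg (by norm_num : (0:ℝ) ≤ 2)]
        calc |S2 (y - 2)| * B y + 2 * (|S1 (y - 2)| * (|S1 (c * y + 1 / δ)| * (1 / (δ * T)))) +
              A y * (|S2 (c * y + 1 / δ)| * (1 / (δ * T)) * (1 / (δ * T)))
            ≤ M * 1 + 2 * (M * (M * (1 / δ))) + 1 * (M * (1 / δ) * (1 / δ)) := by
              gcongr
              · exact (hM _).2
              · exact hB1 y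
              · exact (hM _).1
              · exact (hM _).1
              · exact hA1 y
              · exact (hM _).2
          _ ≤ M ^ 2 * (1 / δ) ^ 2 + 2 * (M ^ 2 * (1 / δ) ^ 2) + M ^ 2 * (1 / δ) ^ 2 := by
              have q1 : M ≤ M ^ 2 := by nlinarith
              have q2 : (1 / δ) ≤ (1 / δ) ^ 2 := by nlinarith
              have q3 : 1 ≤ (1 / δ) ^ 2 := by nlinarith
              have q4 : M * 1 ≤ M ^ 2 * (1 / δ) ^ 2 := mul_le_mul q1 q3 (by norm_num) (by positivity)
              have q5 : M * (M * (1 / δ)) ≤ M ^ 2 * (1 / δ) ^ 2 := by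
                calc M * (M * (1 / δ)) = M ^ 2 * (1 / δ) := by ring
                  _ ≤ _ := by gcongr
              have q6 : 1 * (M * (1 / δ) * (1 / δ)) ≤ M ^ 2 * (1 / δ) ^ 2 := by
                calc 1 * (M * (1 / δ) * (1 / δ)) = M * (1 / δ) ^ 2 := by ring
                  _ ≤ _ := by gcongr
              linarith
          _ = _ := by ring
      have b3 : |g1 y| ^ 2 ≤ 4 * M ^ 2 / δ ^ 2 := by
        calc |g1 y| ^ 2 ≤ (2 * M / δ) ^ 2 := by gcongr
          _ = _ := by ring
      refine (gen (4 * M ^ 2 / δ ^ 2) (by positivity) b3 b2).trans ?_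
      have q : 0 ≤ (T ^ 2)⁻¹ * g y ^ (m - 2) := by positivity
      calc 2 * (m : ℝ) ^ 2 * (4 * M ^ 2 / δ ^ 2) * g y ^ (m - 2) ≤ 2 * (m : ℝ) ^ 2 * (4 * M ^ 2 / δ ^ 2) * 1 := by gcongr
        _ = 8 * (m : ℝ) ^ 2 * M ^ 2 / δ ^ 2 * 1 := by ring
        _ ≤ 8 * (m : ℝ) ^ 2 * M ^ 2 / δ ^ 2 * (1 + (T ^ 2)⁻¹ * g y ^ (m - 2)) := by gcongr; linarith
    · push Not at hy3
      have hind : ind y = 0 := by unfold ind; rw [indicator_of_notMem]; simp only [mem_Iic, not_le]; exact hy3
      have hs1 : S1 (y - 2) = 0 := S1_right (by linarith)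
      have hs2 : S2 (y - 2) = 0 := S2_right (by linarith)
      rw [hind, zero_add]
      have hBy := hB0 y
      have hAy := hA0 y
      have b1 : |g1 y| ≤ M * (1 / (δ * T)) := by
        rw [hg1]; simp only
        rw [hs1, zero_mul, zero_add, abs_mul, abs_mul, abs_of_nonneg (hA0 y), hcabs]
        calc A y * (|S1 (c * y + 1 / δ)| * (1 / (δ * T))) ≤ 1 * (M * (1 / (δ * T))) := by
              gcongr
              · exact hA1 y
              · exact (hM _).1
          _ = _ := one_mul _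
      have b2 : |g2 y| ≤ M ^ 2 * (1 / (δ * T)) ^ 2 := by
        rw [hg2]; simp only
        rw [hs1, hs2, zero_mul, zero_mul, mul_zero, zero_add, zero_add, abs_mul, abs_mul, abs_mul, abs_of_nonneg (hA0 y), hcabs]
        calc A y * (|S2 (c * y + 1 / δ)| * (1 / (δ * T)) * (1 / (δ * T))) ≤ 1 * (M * (1 / (δ * T)) * (1 / (δ * T))) := by
              gcongr
              · exact hA1 y
              · exact (hM _).2
          _ = M * (1 / (δ * T)) ^ 2 := by ring
          _ ≤ _ := by
            gcongr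
            nlinarith
      have b3 : |g1 y| ^ 2 ≤ M ^ 2 * (1 / (δ * T)) ^ 2 := by
        calc |g1 y| ^ 2 ≤ (M * (1 / (δ * T))) ^ 2 := by gcongr
          _ = _ := by ring
      refine (gen _ (by positivity) b3 b2).trans ?_
      have e : 2 * (m : ℝ) ^ 2 * (M ^ 2 * (1 / (δ * T)) ^ 2) * g y ^ (m - 2) =
          2 * (m : ℝ) ^ 2 * M ^ 2 / δ ^ 2 * ((T ^ 2)⁻¹ * g y ^ (m - 2)) := by field_simp
      rw [e]
      have q : 0 ≤ (T ^ 2)⁻¹ * g y ^ (m - 2) := by positivity
      refine mul_le_mul_of_nonneg_right ?_ q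
      gcongr
      norm_num
  · have e1 : A y = 1 := Real.smoothTransition.one_of_one_le (by linarith)
    have e2 : B y = 1 := by
      apply Real.smoothTransition.one_of_one_le
      have : c * y + 1 / δ = (T - y) / (δ * T) := by rw [hc]; field_simp; ring
      rw [this, le_div_iff₀ (by positivity)]
      linarith
    simp only [hg, e1, e2, mul_one, one_pow]

/-- a weight equal to `1` on a given interval -/
lemma exists_wt {a' a b b' : ℝ} (h1 : a' < a) (h2 : a ≤ b) (h3 : b < b') : ∃ w w1 w2 : ℝ → ℝ, Wt w w1 w2 a' b' ∧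
    (∀ y, 0 ≤ w y) ∧ (∀ y, w y ≤ 1) ∧ ∀ y ∈ Icc a b, w y = 1 := by
  have ha : 0 < a - a' := by linarith
  have hb : 0 < b' - b := by linarith
  set c : ℝ := 1 / (a - a') with hc
  set d : ℝ := -(1 / (b' - b)) with hd
  have hl1 : ∀ t : ℝ, HasDerivAt (fun t : ℝ => c * t + -(c * a')) c t := fun t => by
    have := ((hasDerivAt_id t).const_mul c).add_const (-(c * a'))
    simpa using this
  have hl2 : ∀ t : ℝ, HasDerivAt (fun t : ℝ => d * t + -(d * b')) d t := fun t => by
    have := ((hasDerivAt_id t).const_mul d).add_const (-(d * b'))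
    simpa using this
  set A : ℝ → ℝ := fun t => St (c * t + -(c * a')) with hA
  set B : ℝ → ℝ := fun t => St (d * t + -(d * b')) with hB
  have hAd : ∀ t, HasDerivAt A (S1 (c * t + -(c * a')) * c) t := fun t => (St_d _).comp t (hl1 t)
  have hAd1 : ∀ t, HasDerivAt (fun t => S1 (c * t + -(c * a')) * c) (S2 (c * t + -(c * a')) * c * c) t := fun t =>
    ((S1_d _).comp t (hl1 t)).mul_const c
  have hBd : ∀ t, HasDerivAt B (S1 (d * t + -(d * b')) * d) t := fun t => (St_d _).comp t (hl2 t)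
  have hBd1 : ∀ t, HasDerivAt (fun t => S1 (d * t + -(d * b')) * d) (S2 (d * t + -(d * b')) * d * d) t := fun t =>
    ((S1_d _).comp t (hl2 t)).mul_const d
  set g : ℝ → ℝ := fun t => A t * B t with hg
  have hgd : ∀ t, HasDerivAt g (S1 (c * t + -(c * a')) * c * B t + A t * (S1 (d * t + -(d * b')) * d)) t :=
    fun t => (hAd t).mul (hBd t)
  have hgd1 := fun t => (((hAd1 t).mul (hBd t)).add ((hAd t).mul (hBd1 t)))
  have hAc : Continuous A := continuous_iff_continuousAt.2 fun t => (hAd t).continuousAt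
  have hBc : Continuous B := continuous_iff_continuousAt.2 fun t => (hBd t).continuousAt
  have hga : g a' = 0 := by
    rw [hg]; simp only; rw [hA]; simp only
    rw [add_neg_cancel, St, Real.smoothTransition.zero_of_nonpos le_rfl, zero_mul]
  have hgb : g b' = 0 := by
    rw [hg]; simp only; rw [hB]; simp only
    rw [add_neg_cancel, St, Real.smoothTransition.zero_of_nonpos le_rfl, mul_zero]
  refine ⟨_, _, _, pow_wt hgd hgd1 ?_ le_rfl hga hgb, fun y => ?_, fun y => ?_, fun y hy => ?_⟩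
  · have c1 : Continuous fun t : ℝ => S1 (c * t + -(c * a')) := S1_cont.comp (by fun_prop)
    have c2 : Continuous fun t : ℝ => S2 (c * t + -(c * a')) := S2_cont.comp (by fun_prop)
    have c3 : Continuous fun t : ℝ => S1 (d * t + -(d * b')) := S1_cont.comp (by fun_prop)
    have c4 : Continuous fun t : ℝ => S2 (d * t + -(d * b')) := S2_cont.comp (by fun_prop)
    fun_prop
  · exact pow_nonneg (mul_nonneg (Real.smoothTransition.nonneg _) (Real.smoothTransition.nonneg _)) _
  · exact pow_le_one₀ (mul_nonneg (Real.smoothTransition.nonneg _) (Real.smoothTransition.nonneg _))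
      (mul_le_one₀ (Real.smoothTransition.le_one _) (Real.smoothTransition.nonneg _) (Real.smoothTransition.le_one _))
  · have e1 : A y = 1 := by
      apply Real.smoothTransition.one_of_one_le
      have : c * y + -(c * a') = (y - a') / (a - a') := by rw [hc]; field_simp; ring
      rw [this, le_div_iff₀ ha]
      linarith [hy.1]
    have e2 : B y = 1 := by
      apply Real.smoothTransition.one_of_one_le
      have : d * y + -(d * b') = (b' - y) / (b' - b) := by rw [hd]; field_simp; ring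
      rw [this, le_div_iff₀ hb]
      linarith [hy.2]
    simp only [hg, e1, e2, mul_one, one_pow]

end

end Pool.Agent.L7h13.AF
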