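import Pool.Agent.L7h13.AF.Sgn

/-!
# Smooth windows
-/

set_option autoImplicit false

open Complex MeasureTheory Set Filter Topology

namespace Pool.Agent.L7h13.AF

open Pool.Agent.W188.QS (cp XX lam)

noncomputable section

variable {k : ℝ}

/-- scaled powers of a `C²` function are admissible weights -/
lemma phi_gw {φ φ1 φ2 : ℝ → ℝ} (h1 : ∀ t, HasDerivAt φ (φ1 t) t) (h2 : ∀ t, HasDerivAt φ1 (φ2 t) t) (hc2 : Continuous φ2)
    (h0 : ∀ t, 0 ≤ φ t) (hle : ∀ t, φ t ≤ 1) {α β : ℝ} (hα : 0 < α) (hαβ : α < β) (hα0 : φ α = 0) (hβ0 : φ β = 0)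
    {m : ℕ} (hm : 2 ≤ m) : ∃ K : ℝ, 0 ≤ K ∧ ∀ T : ℝ, 2 / α ≤ T → 1 ≤ T →
    ∃ w1 w2 : ℝ → ℝ, GW K (β * T) m (fun t => φ (t / T)) (fun t => φ (t / T) ^ m) w1 w2 (α * T) (β * T) := by
  have hc : Continuous φ := continuous_iff_continuousAt.2 fun t => (h1 t).continuousAt
  have hc1 : Continuous φ1 := continuous_iff_continuousAt.2 fun t => (h2 t).continuousAt
  obtain ⟨M₁, hM₁⟩ := (isCompact_Icc (a := α) (b := β)).exists_bound_of_continuousOn hc1.continuousOn
  obtain ⟨M₂, hM₂⟩ := (isCompact_Icc (a := α) (b := β)).exists_bound_of_continuousOn hc2.continuousOn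
  set M : ℝ := max 1 (max M₁ M₂) with hM
  have hM1 : 1 ≤ M := le_max_left _ _
  refine ⟨2 * (m : ℝ) ^ 2 * M ^ 2 * β ^ 2, by positivity, fun T hT hT1 => ?_⟩
  have hT0 : 0 < T := by linarith
  have hβ : 0 < β := by linarith
  have hlin : ∀ t : ℝ, HasDerivAt (fun t : ℝ => t / T) (1 / T) t := fun t => by
    have := (hasDerivAt_id t).div_const T
    simpa using this
  have d1 : ∀ t, HasDerivAt (fun t => φ (t / T)) (φ1 (t / T) * (1 / T)) t := fun t => (h1 _).comp t (hlin t)
  have d2 : ∀ t, HasDerivAt (fun t => φ1 (t / T) * (1 / T)) (φ2 (t / T) * (1 / T) * (1 / T)) t := fun t =>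
    ((h2 _).comp t (hlin t)).mul_const _
  have hcc : Continuous fun t => φ2 (t / T) * (1 / T) * (1 / T) := by
    have : Continuous fun t => φ2 (t / T) := hc2.comp (by fun_prop)
    fun_prop
  refine ⟨_, _, pow_wt d1 d2 hcc hm (a := α * T) (b := β * T) (by rw [mul_div_cancel_right₀ _ hT0.ne', hα0])
    (by rw [mul_div_cancel_right₀ _ hT0.ne', hβ0]), ?_, by gcongr, le_rfl, fun y _ => h0 _, fun y _ => hle _, fun y _ => rfl,
    fun y hy => ?_⟩
  · rw [div_le_iff₀ hα] at hT; linarith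
  · have hyT : y / T ∈ Icc α β := by
      constructor
      · rw [le_div_iff₀ hT0]; exact hy.1
      · rw [div_le_iff₀ hT0]; exact hy.2
    have b1 : |φ1 (y / T)| ≤ M := (hM₁ _ hyT).trans ((le_max_left _ _).trans (le_max_right _ _))
    have b2 : |φ2 (y / T)| ≤ M := (hM₂ _ hyT).trans ((le_max_right _ _).trans (le_max_right _ _))
    have hg0 := h0 (y / T)
    have hg1 := hle (y / T)
    have hm1 : (1:ℝ) ≤ m := by exact_mod_cast (by omega : 1 ≤ m)
    have hcm : ((m - 1 : ℕ) : ℝ) ≤ m := by exact_mod_cast Nat.sub_le m 1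
    set g := φ (y / T) with hg
    have p1 : 0 ≤ g ^ (m - 2) := by positivity
    have p3 : g ^ (m - 1) ≤ g ^ (m - 2) := pow_le_pow_of_le_one hg0 hg1 (by omega)
    have p4 : 0 ≤ g ^ (m - 1) := by positivity
    have hind := ind_nonneg y
    set D : ℝ := M ^ 2 * (1 / T) ^ 2 with hD
    have hD0 : 0 ≤ D := by positivity
    have c1 : |φ1 (y / T) * (1 / T)| ^ 2 ≤ D := by
      rw [abs_mul, abs_of_nonneg (by positivity : 0 ≤ 1 / T), mul_pow]
      show _ ≤ M ^ 2 * (1 / T) ^ 2
      gcongr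
    have c2 : |φ2 (y / T) * (1 / T) * (1 / T)| ≤ D := by
      rw [abs_mul, abs_mul, abs_of_nonneg (by positivity : 0 ≤ 1 / T)]
      calc |φ2 (y / T)| * (1 / T) * (1 / T) ≤ M * (1 / T) * (1 / T) := by gcongr
        _ = M * (1 / T) ^ 2 := by ring
        _ ≤ M ^ 2 * (1 / T) ^ 2 := by
          gcongr
          nlinarith
    have hsum : |(m : ℝ) * ((m - 1 : ℕ) * g ^ (m - 2) * (φ1 (y / T) * (1 / T)) ^ 2 +
        g ^ (m - 1) * (φ2 (y / T) * (1 / T) * (1 / T)))| ≤ 2 * (m : ℝ) ^ 2 * D * g ^ (m - 2) := by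
      rw [abs_mul, abs_of_nonneg (by positivity : (0:ℝ) ≤ m)]
      have : |((m - 1 : ℕ) : ℝ) * g ^ (m - 2) * (φ1 (y / T) * (1 / T)) ^ 2 +
          g ^ (m - 1) * (φ2 (y / T) * (1 / T) * (1 / T))| ≤ m * g ^ (m - 2) * D + g ^ (m - 2) * D := by
        refine (abs_add_le _ _).trans (add_le_add ?_ ?_)
        · rw [abs_mul, abs_mul, abs_of_nonneg (by positivity : (0:ℝ) ≤ ((m - 1 : ℕ) : ℝ)), abs_of_nonneg p1, abs_pow]
          gcongr
        · rw [abs_mul, abs_of_nonneg p4]
          gcongr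
      calc (m : ℝ) * _ ≤ (m : ℝ) * (m * g ^ (m - 2) * D + g ^ (m - 2) * D) := by gcongr
        _ ≤ (m : ℝ) * (m * g ^ (m - 2) * D + m * (g ^ (m - 2) * D)) := by
          have q0 : 0 ≤ g ^ (m - 2) * D := by positivity
          have q1 : g ^ (m - 2) * D ≤ m * (g ^ (m - 2) * D) := le_mul_of_one_le_left q0 hm1
          refine mul_le_mul_of_nonneg_left ?_ (by positivity)
          linarith
        _ = _ := by ring
    refine hsum.trans ?_
    have e : 2 * (m : ℝ) ^ 2 * D * g ^ (m - 2) = 2 * (m : ℝ) ^ 2 * M ^ 2 * β ^ 2 * (((β * T) ^ 2)⁻¹ * g ^ (m - 2)) := by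
      rw [hD]; field_simp
    rw [e]
    have : 0 ≤ 2 * (m : ℝ) ^ 2 * M ^ 2 * β ^ 2 := by positivity
    nlinarith [mul_nonneg this hind]


/-- asymptotic relations for smooth windows, if the moment is of larger order than `T` -/
theorem win_lim (hk : 0 < k) {φ φ1 φ2 : ℝ → ℝ} (h1 : ∀ t, HasDerivAt φ (φ1 t) t) (h2 : ∀ t, HasDerivAt φ1 (φ2 t) t)
    (hc2 : Continuous φ2) (h0 : ∀ t, 0 ≤ φ t) (hle : ∀ t, φ t ≤ 1) {α β : ℝ} (hα : 0 < α) (hαβ : α < β) (hα0 : φ α = 0)
    (hβ0 : φ β = 0) {m : ℕ} (hm : 10 * k + 2 ≤ m)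
    (hbig : Tendsto (fun T : ℝ => T⁻¹ * AA (fun t => φ (t / T) ^ m) k (1 / 2) (α * T) (β * T)) atTop atTop) :
    Tendsto (fun T : ℝ => (∫ z in SI (α * T) (β * T), (1 + 0 * (z.1 - 1 / 2)) * φ (z.2 / T) ^ m * Fk riemannZeta k (pt z.1 z.2)) /
      (Real.log T * AA (fun t => φ (t / T) ^ m) k (1 / 2) (α * T) (β * T))) atTop (𝓝 (1 / (2 * k))) ∧
    Tendsto (fun T : ℝ => (∫ z in SI (α * T) (β * T), (0 + 1 * (z.1 - 1 / 2)) * φ (z.2 / T) ^ m * Fk riemannZeta k (pt z.1 z.2)) /
      AA (fun t => φ (t / T) ^ m) k (1 / 2) (α * T) (β * T)) atTop (𝓝 (1 / k ^ 2)) := by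
  have hm2 : 2 ≤ m := by
    have : (2:ℝ) ≤ m := by linarith
    exact_mod_cast this
  have hβ : 0 < β := by linarith
  obtain ⟨K, hK, hg⟩ := phi_gw h1 h2 hc2 h0 hle hα hαβ hα0 hβ0 hm2
  obtain ⟨C, T₀, hC, he⟩ := err_le hk hm hK
  set A : ℝ → ℝ := fun T => AA (fun t => φ (t / T) ^ m) k (1 / 2) (α * T) (β * T) with hA
  have hev : ∀ᶠ T : ℝ in atTop, 2 / α ≤ T ∧ 1 < T ∧ T₀ ≤ β * T ∧ 50 ≤ α * T ∧ 1 ≤ T⁻¹ * A T := by
    filter_upwards [eventually_ge_atTop (2 / α), eventually_gt_atTop 1, eventually_ge_atTop (T₀ / β),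
      eventually_ge_atTop (50 / α), hbig.eventually_ge_atTop 1] with T a1 a2 a3 a4 a5
    exact ⟨a1, a2, by rw [div_le_iff₀ hβ] at a3; linarith, by rw [div_le_iff₀ hα] at a4; linarith, a5⟩
  -- the error term
  have herr : Tendsto (fun T : ℝ => C * (1 + (β * T)⁻¹ * A T) / A T) atTop (𝓝 0) := by
    have t1 : Tendsto (fun T : ℝ => A T) atTop atTop := by
      refine tendsto_atTop_mono' _ ?_ (hbig.atTop_mul_atTop₀ (tendsto_id))
      filter_upwards [eventually_gt_atTop 0] with T hT
      simp only [id]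
      rw [mul_comm, ← mul_assoc, mul_inv_cancel₀ hT.ne', one_mul]
    have t2 : Tendsto (fun T : ℝ => C / A T + C * (β * T)⁻¹) atTop (𝓝 (0 + C * 0)) := by
      refine (t1.const_div_atTop C).add (Tendsto.const_mul C ?_)
      exact (tendsto_id.const_mul_atTop hβ).inv_tendsto_atTop
    rw [mul_zero, add_zero] at t2
    refine t2.congr' ?_
    filter_upwards [hev] with T hT
    have hA0 : A T ≠ 0 := by
      intro h
      have := hT.2.2.2.2
      rw [h, mul_zero] at this
      linarith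
    field_simp
  -- positivity
  have hApos : ∀ T : ℝ, 1 < T → 1 ≤ T⁻¹ * A T → 0 < A T := by
    intro T hT h
    by_contra hcon
    push Not at hcon
    have : T⁻¹ * A T ≤ 0 := mul_nonpos_of_nonneg_of_nonpos (by positivity) hcon
    linarith
  constructor
  · -- energy
    -- the weight `lam`
    set Lw : ℝ → ℝ := fun T => ∫ t in (α * T)..(β * T), φ (t / T) ^ m * (lam t * zl k t) with hLw
    obtain ⟨c, hc0, hc⟩ : ∃ c : ℝ, 0 ≤ c ∧ ∀ T : ℝ, 1 < T → 50 ≤ α * T → |Lw T - Real.log T * A T| ≤ c * A T := by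
      refine ⟨|Real.log α| + |Real.log β| + Real.log (2 * Real.pi) + 1, by
        have : 0 ≤ Real.log (2 * Real.pi) := Real.log_nonneg (by linarith [Real.pi_gt_three])
        positivity, fun T hT h50 => ?_⟩
      have hT0 : 0 < T := by linarith
      have hab : α * T ≤ β * T := by gcongr
      have hwc : Continuous fun t => φ (t / T) ^ m := by
        have : Continuous φ := continuous_iff_continuousAt.2 fun t => (h1 t).continuousAt
        exact (this.comp (by fun_prop)).pow m
      have i1 : IntervalIntegrable (fun t => φ (t / T) ^ m * (lam t * zl k t)) volume (α * T) (β * T) := by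
        refine ContinuousOn.intervalIntegrable ?_
        rw [uIcc_of_le hab]
        exact hwc.continuousOn.mul ((lam_cont.mono fun y hy => lt_of_lt_of_le (by linarith : 1 < α * T) hy.1).mul (zl_cont hk).continuousOn)
      have i2 : IntervalIntegrable (fun t => φ (t / T) ^ m * zl k t) volume (α * T) (β * T) :=
        (hwc.mul (zl_cont hk)).intervalIntegrable _ _
      have e1 : Lw T - Real.log T * A T = ∫ t in (α * T)..(β * T), (lam t - Real.log T) * (φ (t / T) ^ m * zl k t) := by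
        have e2 := intervalIntegral.integral_sub i1 (i2.const_mul (Real.log T))
        rw [intervalIntegral.integral_const_mul] at e2
        show (∫ t in (α * T)..(β * T), φ (t / T) ^ m * (lam t * zl k t)) - Real.log T * (∫ t in (α * T)..(β * T), φ (t / T) ^ m * zl k t) = _
        rw [← e2]
        refine intervalIntegral.integral_congr fun y _ => ?_
        show φ (y / T) ^ m * (lam y * zl k y) - Real.log T * (φ (y / T) ^ m * zl k y) = (lam y - Real.log T) * (φ (y / T) ^ m * zl k y)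
        ring
      rw [e1]
      have e3 : |∫ t in (α * T)..(β * T), (lam t - Real.log T) * (φ (t / T) ^ m * zl k t)| ≤
          ∫ t in (α * T)..(β * T), (|Real.log α| + |Real.log β| + Real.log (2 * Real.pi) + 1) * (φ (t / T) ^ m * zl k t) := by
        rw [← Real.norm_eq_abs]
        refine intervalIntegral.norm_integral_le_of_norm_le hab (Eventually.of_forall fun y hy => ?_) (i2.const_mul _)
        have hy0 : 50 ≤ y := h50.trans hy.1.le
        have hq : 0 ≤ φ (y / T) ^ m * zl k y := mul_nonneg (pow_nonneg (h0 _) _) (zl_nonneg _ _)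
        rw [norm_mul, Real.norm_eq_abs, Real.norm_of_nonneg hq]
        refine mul_le_mul_of_nonneg_right ?_ hq
        have f1 := (Pool.Agent.W338.QS.qs_line.1 y hy0).2.1
        have f2 : (14:ℝ) / y ≤ 1 := by rw [div_le_one (by linarith)]; linarith
        have f3 : Real.log (y / (2 * Real.pi)) = Real.log y - Real.log (2 * Real.pi) :=
          Real.log_div (by linarith) (by positivity)
        have f4 : Real.log (α * T) ≤ Real.log y := Real.log_le_log (by linarith) hy.1.le
        have f5 : Real.log y ≤ Real.log (β * T) := Real.log_le_log (by linarith) hy.2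
        rw [Real.log_mul hα.ne' hT0.ne'] at f4
        rw [Real.log_mul hβ.ne' hT0.ne'] at f5
        have f6 := neg_abs_le (Real.log α)
        have f7 := le_abs_self (Real.log β)
        have f8 := abs_nonneg (Real.log α)
        have f9 := abs_nonneg (Real.log β)
        have f10 : 0 ≤ Real.log (2 * Real.pi) := Real.log_nonneg (by linarith [Real.pi_gt_three])
        rw [f3] at f1
        have f11 := abs_le.1 f1
        rw [abs_le]
        constructor <;> linarith [f11.1, f11.2]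
      rw [intervalIntegral.integral_const_mul] at e3
      exact e3
    have key : ∀ᶠ T : ℝ in atTop, |(∫ z in SI (α * T) (β * T), (1 + 0 * (z.1 - 1 / 2)) * φ (z.2 / T) ^ m * Fk riemannZeta k (pt z.1 z.2)) /
        (Real.log T * A T) - 1 / (2 * k)| ≤ (1 / k ^ 2) * (C * (1 + (β * T)⁻¹ * A T) / A T) / Real.log T + (1 / (2 * k)) * (c / Real.log T) := by
      filter_upwards [hev] with T ⟨a1, a2, a3, a4, a5⟩
      obtain ⟨w1, w2, hG⟩ := hg T a1 a2.le
      have hA0 := hApos T a2 a5
      have hlog : 0 < Real.log T := Real.log_pos a2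
      have e := he (β * T) _ _ w1 w2 (α * T) (β * T) a3 hG 1 0 zero_le_one le_rfl le_rfl zero_le_one
      obtain ⟨-, -, e2⟩ := inf_id hk hG.wt hG.w0 (by linarith : 1 < α * T) hG.hab zero_le_one le_rfl
      have e3 : L0 (fun t => φ (t / T) ^ m) k (α * T) (β * T) 1 0 = k / 2 * Lw T := by
        unfold L0
        rw [hLw, ← intervalIntegral.integral_const_mul]
        refine intervalIntegral.integral_congr fun y _ => ?_
        show φ (y / T) ^ m * (1 * (k / 2 * lam y * ‖riemannZeta (pt (1 / 2) y)‖ ^ k) + 0 * (‖riemannZeta (pt (1 / 2) y)‖ ^ k - 1)) =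
          k / 2 * (φ (y / T) ^ m * (lam y * ‖riemannZeta (pt (1 / 2) y)‖ ^ k))
        ring
      set E := ∫ z in SI (α * T) (β * T), (1 + 0 * (z.1 - 1 / 2)) * φ (z.2 / T) ^ m * Fk riemannZeta k (pt z.1 z.2) with hE
      have e4 : |k ^ 2 * E - k / 2 * Lw T| ≤ C * (1 + (β * T)⁻¹ * A T) := by
        rw [e3] at e2
        have : k ^ 2 * E - k / 2 * Lw T = ∫ z in SI (α * T) (β * T), (1 + 0 * (z.1 - 1 / 2)) * w2 z.2 * (‖riemannZeta (pt z.1 z.2)‖ ^ k - 1) := by
          linarith
        rw [this]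
        exact e
      have e5 := hc T a2 a4
      have e6 : E / (Real.log T * A T) - 1 / (2 * k) = (1 / k ^ 2) * (k ^ 2 * E - k / 2 * Lw T) / (Real.log T * A T) +
          1 / (2 * k) * (Lw T - Real.log T * A T) / (Real.log T * A T) := by
        field_simp
        ring
      rw [e6]
      refine (abs_add_le _ _).trans (add_le_add ?_ ?_)
      · rw [abs_div, abs_mul, abs_of_pos (by positivity : 0 < 1 / k ^ 2), abs_of_pos (by positivity : 0 < Real.log T * A T)]
        calc 1 / k ^ 2 * |k ^ 2 * E - k / 2 * Lw T| / (Real.log T * A T)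
            ≤ 1 / k ^ 2 * (C * (1 + (β * T)⁻¹ * A T)) / (Real.log T * A T) := by gcongr
          _ = _ := by field_simp
      · rw [abs_div, abs_mul, abs_of_pos (by positivity : 0 < 1 / (2 * k)), abs_of_pos (by positivity : 0 < Real.log T * A T)]
        calc 1 / (2 * k) * |Lw T - Real.log T * A T| / (Real.log T * A T)
            ≤ 1 / (2 * k) * (c * A T) / (Real.log T * A T) := by gcongr
          _ = _ := by field_simp
    have hz : Tendsto (fun T : ℝ => (1 / k ^ 2) * (C * (1 + (β * T)⁻¹ * A T) / A T) / Real.log T + (1 / (2 * k)) * (c / Real.log T)) atTop (𝓝 0) := by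
      have z1 := (herr.const_mul (1 / k ^ 2)).div_atTop Real.tendsto_log_atTop
      have z2 := (Real.tendsto_log_atTop.const_div_atTop c).const_mul (1 / (2 * k))
      have := z1.add z2
      rw [mul_zero, add_zero] at this
      exact this
    rw [tendsto_iff_norm_sub_tendsto_zero]
    exact squeeze_zero' (Eventually.of_forall fun _ => norm_nonneg _) key hz
  · have key : ∀ᶠ T : ℝ in atTop, |(∫ z in SI (α * T) (β * T), (0 + 1 * (z.1 - 1 / 2)) * φ (z.2 / T) ^ m * Fk riemannZeta k (pt z.1 z.2)) /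
        A T - 1 / k ^ 2| ≤ (1 / k ^ 2) * (C * (1 + (β * T)⁻¹ * A T) / A T) + (1 / k ^ 2) * (β / (T⁻¹ * A T)) := by
      filter_upwards [hev] with T ⟨a1, a2, a3, a4, a5⟩
      obtain ⟨w1, w2, hG⟩ := hg T a1 a2.le
      have hA0 := hApos T a2 a5
      have hT0 : 0 < T := by linarith
      have hab : α * T ≤ β * T := by gcongr
      have e := he (β * T) _ _ w1 w2 (α * T) (β * T) a3 hG 0 1 le_rfl zero_le_one zero_le_one le_rfl
      obtain ⟨-, -, e2⟩ := inf_id hk hG.wt hG.w0 (by linarith : 1 < α * T) hG.hab le_rfl zero_le_one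
      have hwc := hG.wt.c
      have i2 : IntervalIntegrable (fun t => φ (t / T) ^ m * zl k t) volume (α * T) (β * T) :=
        (hwc.mul (zl_cont hk)).intervalIntegrable _ _
      have e3 : L0 (fun t => φ (t / T) ^ m) k (α * T) (β * T) 0 1 = A T - ∫ t in (α * T)..(β * T), φ (t / T) ^ m := by
        have e0 := intervalIntegral.integral_sub i2 (hwc.intervalIntegrable (μ := volume) (α * T) (β * T))
        unfold L0
        refine Eq.trans ?_ e0
        refine intervalIntegral.integral_congr fun y _ => ?_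
        show φ (y / T) ^ m * (0 * (k / 2 * lam y * ‖riemannZeta (pt (1 / 2) y)‖ ^ k) + 1 * (‖riemannZeta (pt (1 / 2) y)‖ ^ k - 1)) =
          φ (y / T) ^ m * ‖riemannZeta (pt (1 / 2) y)‖ ^ k - φ (y / T) ^ m
        ring
      have e7 : |∫ t in (α * T)..(β * T), φ (t / T) ^ m| ≤ β * T := by
        have j0 : 0 ≤ ∫ t in (α * T)..(β * T), φ (t / T) ^ m :=
          intervalIntegral.integral_nonneg hab fun y _ => pow_nonneg (h0 _) _
        rw [abs_of_nonneg j0]
        have j1 : ∫ t in (α * T)..(β * T), φ (t / T) ^ m ≤ ∫ _ in (α * T)..(β * T), (1:ℝ) :=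
          intervalIntegral.integral_mono_on hab (hwc.intervalIntegrable _ _) (by simp) fun y _ => pow_le_one₀ (h0 _) (hle _)
        rw [intervalIntegral.integral_const, smul_eq_mul, mul_one] at j1
        have : 0 < α * T := by positivity
        linarith
      set V := ∫ z in SI (α * T) (β * T), (0 + 1 * (z.1 - 1 / 2)) * φ (z.2 / T) ^ m * Fk riemannZeta k (pt z.1 z.2) with hV
      have e4 : |k ^ 2 * V - (A T - ∫ t in (α * T)..(β * T), φ (t / T) ^ m)| ≤ C * (1 + (β * T)⁻¹ * A T) := by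
        rw [e3] at e2
        have : k ^ 2 * V - (A T - ∫ t in (α * T)..(β * T), φ (t / T) ^ m) = ∫ z in SI (α * T) (β * T), (0 + 1 * (z.1 - 1 / 2)) * w2 z.2 * (‖riemannZeta (pt z.1 z.2)‖ ^ k - 1) := by
          linarith
        rw [this]
        exact e
      have e6 : V / A T - 1 / k ^ 2 = (1 / k ^ 2) * (k ^ 2 * V - (A T - ∫ t in (α * T)..(β * T), φ (t / T) ^ m)) / A T -
          1 / k ^ 2 * (∫ t in (α * T)..(β * T), φ (t / T) ^ m) / A T := by
        field_simp
        ring
      rw [e6]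
      refine (abs_sub _ _).trans (add_le_add ?_ ?_)
      · rw [abs_div, abs_mul, abs_of_pos (by positivity : 0 < 1 / k ^ 2), abs_of_pos hA0]
        calc 1 / k ^ 2 * |k ^ 2 * V - (A T - ∫ t in (α * T)..(β * T), φ (t / T) ^ m)| / A T
            ≤ 1 / k ^ 2 * (C * (1 + (β * T)⁻¹ * A T)) / A T := by gcongr
          _ = _ := by ring
      · rw [abs_div, abs_mul, abs_of_pos (by positivity : 0 < 1 / k ^ 2), abs_of_pos hA0]
        calc 1 / k ^ 2 * |∫ t in (α * T)..(β * T), φ (t / T) ^ m| / A T ≤ 1 / k ^ 2 * (β * T) / A T := by gcongr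
          _ = _ := by field_simp
    have hz : Tendsto (fun T : ℝ => (1 / k ^ 2) * (C * (1 + (β * T)⁻¹ * A T) / A T) + (1 / k ^ 2) * (β / (T⁻¹ * A T))) atTop (𝓝 0) := by
      have z1 := herr.const_mul (1 / k ^ 2)
      have z2 := (hbig.const_div_atTop β).const_mul (1 / k ^ 2)
      have := z1.add z2
      rw [mul_zero, add_zero] at this
      exact this
    rw [tendsto_iff_norm_sub_tendsto_zero]
    exact squeeze_zero' (Eventually.of_forall fun _ => norm_nonneg _) key hz

end

end Pool.Agent.L7h13.AF
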