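import Pool.Agent.L7h13.AF.Inf
import Pool.Agent.L7h13.SP.Zeta

/-!
# The error term
-/

set_option autoImplicit false

open Complex MeasureTheory Set Filter Topology

namespace Pool.Agent.L7h13.AF

open Pool.Agent.W188.QS (cp XX lam)

noncomputable section

section green
variable {f : ℂ → ℂ} {α ε : ℝ} {U : Set ℂ} {w w1 w2 : ℝ → ℝ} {a b : ℝ}

/-- Green's identity on a rectangle, with the kernel `(x - x₀) (X - x)` -/
theorem greenq (hU : IsOpen U) (hf : DifferentiableOn ℂ f U) (hε : 0 < ε) (h : Wt w w1 w2 a b) (hab : a ≤ b)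
    {x₀ X : ℝ} (hX : x₀ ≤ X) (hR : ∀ x ∈ Icc x₀ X, ∀ y ∈ Icc a b, pt x y ∈ U) :
    ∫ y in a..b, w y * ((X - x₀) * (G f α ε (pt X y) + G f α ε (pt x₀ y)) - 2 * ∫ x in x₀..X, G f α ε (pt x y)) =
    ∫ x in x₀..X, ∫ y in a..b, (x - x₀) * (X - x) * (w y * D f α ε (pt x y) - w2 y * G f α ε (pt x y)) := by
  have hRU : ∀ z ∈ uIcc x₀ X ×ˢ uIcc a b, pt z.1 z.2 ∈ U := by
    rintro ⟨x, y⟩ ⟨h1, h2⟩
    rw [uIcc_of_le hX] at h1
    rw [uIcc_of_le hab] at h2
    exact hR x h1 y h2
  have hcont : ∀ {F : ℂ → ℝ}, ContinuousOn F U → ContinuousOn (fun z : ℝ × ℝ => F (pt z.1 z.2)) (uIcc x₀ X ×ˢ uIcc a b) :=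
    fun {F} hF => hF.comp pt_cont.continuousOn hRU
  have hpx : ∀ y : ℝ, Continuous fun x : ℝ => pt x y := fun y =>
    pt_cont.comp (by fun_prop : Continuous fun x : ℝ => (x, y))
  -- the integral in `x`
  have e1 : ∀ y ∈ Icc a b, ∫ x in x₀..X, ((x - x₀) * (X - x)) * Gxx f α ε (pt x y) =
      (X - x₀) * (G f α ε (pt X y) + G f α ε (pt x₀ y)) - 2 * ∫ x in x₀..X, G f α ε (pt x y) := by
    intro y hy
    have hm : MapsTo (fun x : ℝ => pt x y) (uIcc x₀ X) U := by
      intro x hx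
      rw [uIcc_of_le hX] at hx
      exact hR x hx y hy
    have f1 := intervalIntegral.integral_mul_deriv_eq_deriv_mul (a := x₀) (b := X)
      (u := fun x => (x - x₀) * (X - x)) (u' := fun x => X + x₀ - 2 * x)
      (v := fun x => Gx f α ε (pt x y)) (v' := fun x => Gxx f α ε (pt x y))
      (fun x _ => by
        have := ((hasDerivAt_id x).sub_const x₀).mul ((hasDerivAt_id x).const_sub X)
        refine this.congr_deriv ?_
        simp only [id]
        ring)
      (fun x hx => GxxD hU hf hε (hm hx)) ((by fun_prop : Continuous fun x : ℝ => X + x₀ - 2 * x).intervalIntegrable _ _)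
      (((cGxx hU hf hε).comp (hpx y).continuousOn hm).intervalIntegrable)
    have f2 := intervalIntegral.integral_mul_deriv_eq_deriv_mul (a := x₀) (b := X)
      (u := fun x => X + x₀ - 2 * x) (u' := fun _ => -2)
      (v := fun x => G f α ε (pt x y)) (v' := fun x => Gx f α ε (pt x y))
      (fun x _ => by
        have := ((hasDerivAt_id x).const_mul 2).const_sub (X + x₀)
        refine this.congr_deriv ?_
        ring)
      (fun x hx => GxD hU hf hε (hm hx)) (continuous_const.intervalIntegrable _ _)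
      (((cGx hU hf hε).comp (hpx y).continuousOn hm).intervalIntegrable)
    rw [f1, f2, intervalIntegral.integral_const_mul]
    ring
  have e2 : ∫ y in a..b, w y * ((X - x₀) * (G f α ε (pt X y) + G f α ε (pt x₀ y)) - 2 * ∫ x in x₀..X, G f α ε (pt x y)) =
      ∫ y in a..b, ∫ x in x₀..X, w y * (((x - x₀) * (X - x)) * Gxx f α ε (pt x y)) := by
    refine intervalIntegral.integral_congr fun y hy => ?_
    rw [uIcc_of_le hab] at hy
    rw [intervalIntegral.integral_const_mul, e1 y hy]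
  rw [e2]
  -- swap
  have hint : ContinuousOn (fun z : ℝ × ℝ => w z.2 * (((z.1 - x₀) * (X - z.1)) * Gxx f α ε (pt z.1 z.2)))
      (uIcc x₀ X ×ˢ uIcc a b) := by
    refine ContinuousOn.mul ?_ (ContinuousOn.mul ?_ (hcont (cGxx hU hf hε)))
    · exact (h.c.comp continuous_snd).continuousOn
    · exact Continuous.continuousOn (by fun_prop)
  have hII : IntegrableOn (fun z : ℝ × ℝ => w z.2 * (((z.1 - x₀) * (X - z.1)) * Gxx f α ε (pt z.1 z.2)))
      (uIoc x₀ X ×ˢ uIoc a b) (volume.prod volume) := by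
    refine (hint.integrableOn_compact (isCompact_uIcc.prod isCompact_uIcc)).mono_set ?_
    exact prod_mono uIoc_subset_uIcc uIoc_subset_uIcc
  rw [← intervalIntegral_intervalIntegral_swap (F := fun x y => w y * (((x - x₀) * (X - x)) * Gxx f α ε (pt x y)))]
  · refine intervalIntegral.integral_congr fun x hx => ?_
    rw [uIcc_of_le hX] at hx
    have hm : MapsTo (fun y : ℝ => pt x y) (uIcc a b) U := by
      intro y hy
      rw [uIcc_of_le hab] at hy
      exact hR x hx y hy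
    have hpy : Continuous fun y : ℝ => pt x y := pt_cont.comp (by fun_prop : Continuous fun y : ℝ => (x, y))
    have i1 : IntervalIntegrable (fun y => w y * D f α ε (pt x y)) volume a b :=
      ((h.c.continuousOn).mul ((cD hU hf hε).comp hpy.continuousOn hm)).intervalIntegrable
    have i2 : IntervalIntegrable (fun y => w2 y * G f α ε (pt x y)) volume a b :=
      ((h.c2.continuousOn).mul ((cG hf hε).comp hpy.continuousOn hm)).intervalIntegrable
    have i3 : IntervalIntegrable (fun y => w y * Gyy f α ε (pt x y)) volume a b :=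
      ((h.c.continuousOn).mul ((cGyy hU hf hε).comp hpy.continuousOn hm)).intervalIntegrable
    rw [intervalIntegral.integral_const_mul, intervalIntegral.integral_sub i1 i2,
      ← parts hU hf hε h hab (fun y hy => hR x hx y hy), ← intervalIntegral.integral_sub i1 i3,
      ← intervalIntegral.integral_const_mul]
    refine intervalIntegral.integral_congr fun y _ => ?_
    rw [← lap hε]
    ring
  · exact hII

end green

variable {k : ℝ} {w w1 w2 : ℝ → ℝ} {a b X : ℝ}

/-- the moment with weight -/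
def AA (w : ℝ → ℝ) (k x a b : ℝ) : ℝ := ∫ y in a..b, w y * ‖riemannZeta (pt x y)‖ ^ k

/-- the mean of the moments over `1/2 ≤ x ≤ 3` -/
def BB (w : ℝ → ℝ) (k a b : ℝ) : ℝ := ∫ z in RC (1 / 2) 3 a b, w z.2 * ‖riemannZeta (pt z.1 z.2)‖ ^ k

lemma BB_eps {ε : ℝ} (hk : 0 < k) (hε : 0 < ε) (h : Wt w w1 w2 a b) (hw0 : ∀ y ∈ Icc a b, 0 ≤ w y) (ha : 1 < a) (hab : a ≤ b) :
    2 * ∫ z in RC (1 / 2) 3 a b, w z.2 * G riemannZeta (k / 2) ε (pt z.1 z.2) ≤
      5 / 2 * (∫ y in a..b, w y * (G riemannZeta (k / 2) ε (pt 3 y) + G riemannZeta (k / 2) ε (pt (1 / 2) y))) +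
      2 * ∫ z in RC (1 / 2) 3 a b, |w2 z.2| * G riemannZeta (k / 2) ε (pt z.1 z.2) := by
  have ha0 : 0 < a := by linarith
  have h12 : (1:ℝ) / 2 ≤ 3 := by norm_num
  have e := greenq (α := k / 2) UU_open UU_diff hε h hab h12 (RC_UU ha0)
  have hU := RC_U (x₀ := 1 / 2) (X := 3) (b := b) ha0
  have iG : IntegrableOn (fun z : ℝ × ℝ => w z.2 * G riemannZeta (k / 2) ε (pt z.1 z.2)) (RC (1 / 2) 3 a b) :=
    ((h.c.comp continuous_snd).continuousOn.mul (comp_c (cG UU_diff hε) hU)).integrableOn_compact RC_comp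
  have iG2 : IntegrableOn (fun z : ℝ × ℝ => |w2 z.2| * G riemannZeta (k / 2) ε (pt z.1 z.2)) (RC (1 / 2) 3 a b) :=
    ((h.c2.comp continuous_snd).abs.continuousOn.mul (comp_c (cG UU_diff hε) hU)).integrableOn_compact RC_comp
  have iD : IntegrableOn (fun z : ℝ × ℝ => (z.1 - 1 / 2) * (3 - z.1) * (w z.2 * D riemannZeta (k / 2) ε (pt z.1 z.2) -
      w2 z.2 * G riemannZeta (k / 2) ε (pt z.1 z.2))) (RC (1 / 2) 3 a b) := by
    refine ContinuousOn.integrableOn_compact RC_comp ?_
    refine ContinuousOn.mul (Continuous.continuousOn (by fun_prop)) ?_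
    exact ((h.c.comp continuous_snd).continuousOn.mul (comp_c (cD UU_open UU_diff hε) hU)).sub
      ((h.c2.comp continuous_snd).continuousOn.mul (comp_c (cG UU_diff hε) hU))
  rw [iter_eq (F := fun z : ℝ × ℝ => (z.1 - 1 / 2) * (3 - z.1) * (w z.2 * D riemannZeta (k / 2) ε (pt z.1 z.2) -
      w2 z.2 * G riemannZeta (k / 2) ε (pt z.1 z.2))) h12 hab iD] at e
  -- the left side
  have hpy : ∀ x : ℝ, Continuous fun y : ℝ => pt x y := fun x =>
    pt_cont.comp (by fun_prop : Continuous fun y : ℝ => (x, y))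
  have hyU : ∀ x : ℝ, ∀ y ∈ uIcc a b, pt x y ∈ UU := by
    intro x y hy
    rw [uIcc_of_le hab] at hy
    simp only [UU, mem_ofPred_eq, pt_im]
    linarith [hy.1]
  have hc : ∀ {F : ℂ → ℝ} (x : ℝ), ContinuousOn F UU → ContinuousOn (fun y : ℝ => F (pt x y)) (uIcc a b) :=
    fun {F} x hF => hF.comp (hpy x).continuousOn (hyU x)
  have e3 : ∫ z in RC (1 / 2) 3 a b, w z.2 * G riemannZeta (k / 2) ε (pt z.1 z.2) =
      ∫ y in a..b, w y * ∫ x in (1/2:ℝ)..3, G riemannZeta (k / 2) ε (pt x y) := by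
    rw [← iter_eq (F := fun z : ℝ × ℝ => w z.2 * G riemannZeta (k / 2) ε (pt z.1 z.2)) h12 hab iG,
      intervalIntegral_intervalIntegral_swap]
    · refine intervalIntegral.integral_congr fun y _ => ?_
      exact intervalIntegral.integral_const_mul (w y) (fun x => G riemannZeta (k / 2) ε (pt x y))
    · refine iG.mono_set ?_
      unfold RC
      rw [uIoc_of_le h12, uIoc_of_le hab]
      exact prod_mono Ioc_subset_Icc_self Ioc_subset_Icc_self
  have iI : IntervalIntegrable (fun y => w y * ∫ x in (1/2:ℝ)..3, G riemannZeta (k / 2) ε (pt x y)) volume a b := by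
    have h1 : IntegrableOn (fun z : ℝ × ℝ => w z.2 * G riemannZeta (k / 2) ε (pt z.1 z.2)) (Ioc (1/2) 3 ×ˢ Ioc a b) :=
      iG.mono_set (prod_mono Ioc_subset_Icc_self Ioc_subset_Icc_self)
    rw [IntegrableOn, Measure.volume_eq_prod, ← Measure.prod_restrict] at h1
    have h2 := h1.integral_prod_right
    rw [intervalIntegrable_iff_integrableOn_Ioc_of_le hab]
    refine Integrable.congr h2 (Eventually.of_forall fun y => ?_)
    show _ = w y * ∫ x in (1/2:ℝ)..3, G riemannZeta (k / 2) ε (pt x y)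
    rw [intervalIntegral.integral_of_le h12, ← integral_const_mul]
  have i0 : IntervalIntegrable (fun y => w y * (G riemannZeta (k / 2) ε (pt 3 y) + G riemannZeta (k / 2) ε (pt (1 / 2) y)))
      volume a b := (h.c.continuousOn.mul ((hc 3 (cG UU_diff hε)).add (hc (1 / 2) (cG UU_diff hε)))).intervalIntegrable
  have e4 : ∫ y in a..b, w y * ((3 - 1 / 2) * (G riemannZeta (k / 2) ε (pt 3 y) + G riemannZeta (k / 2) ε (pt (1 / 2) y)) -
      2 * ∫ x in (1/2:ℝ)..3, G riemannZeta (k / 2) ε (pt x y)) =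
      5 / 2 * (∫ y in a..b, w y * (G riemannZeta (k / 2) ε (pt 3 y) + G riemannZeta (k / 2) ε (pt (1 / 2) y))) -
      2 * ∫ z in RC (1 / 2) 3 a b, w z.2 * G riemannZeta (k / 2) ε (pt z.1 z.2) := by
    rw [e3, ← intervalIntegral.integral_const_mul, ← intervalIntegral.integral_const_mul,
      ← intervalIntegral.integral_sub (i0.const_mul _) (iI.const_mul _)]
    refine intervalIntegral.integral_congr fun y _ => ?_
    ring
  rw [e4] at e
  -- the right side
  have e5 : -(2 * ∫ z in RC (1 / 2) 3 a b, |w2 z.2| * G riemannZeta (k / 2) ε (pt z.1 z.2)) ≤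
      ∫ z in RC (1 / 2) 3 a b, (z.1 - 1 / 2) * (3 - z.1) * (w z.2 * D riemannZeta (k / 2) ε (pt z.1 z.2) -
      w2 z.2 * G riemannZeta (k / 2) ε (pt z.1 z.2)) := by
    rw [← integral_const_mul, ← integral_neg]
    refine setIntegral_mono_on (iG2.const_mul 2).neg iD RC_meas fun z hz => ?_
    have hx1 : 0 ≤ z.1 - 1 / 2 := by linarith [hz.1.1]
    have hx2 : 0 ≤ 3 - z.1 := by linarith [hz.1.2]
    have hx3 : (z.1 - 1 / 2) * (3 - z.1) ≤ 2 := by nlinarith [sq_nonneg (z.1 - 7 / 4)]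
    have hx4 : 0 ≤ (z.1 - 1 / 2) * (3 - z.1) := mul_nonneg hx1 hx2
    have hD := D_nonneg (f := riemannZeta) (α := k / 2) (by linarith) hε (pt z.1 z.2)
    have hG := G_nonneg (f := riemannZeta) (k := k) hε (pt z.1 z.2)
    have hw := hw0 _ hz.2
    have h5 : w2 z.2 * G riemannZeta (k / 2) ε (pt z.1 z.2) ≤ |w2 z.2| * G riemannZeta (k / 2) ε (pt z.1 z.2) :=
      mul_le_mul_of_nonneg_right (le_abs_self _) hG
    have h6 : 0 ≤ |w2 z.2| * G riemannZeta (k / 2) ε (pt z.1 z.2) := mul_nonneg (abs_nonneg _) hG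
    have h7 : 0 ≤ w z.2 * D riemannZeta (k / 2) ε (pt z.1 z.2) := mul_nonneg hw hD
    nlinarith [mul_nonneg hx4 h7, mul_le_mul_of_nonneg_left h5 hx4, mul_le_mul_of_nonneg_right hx3 h6]
  linarith

lemma RC_lim (hk : 0 < k) {v : ℝ → ℝ} (hv : Continuous v) (ha : 0 < a) :
    Tendsto (fun ε => ∫ z in RC (1 / 2) 3 a b, v z.2 * G riemannZeta (k / 2) ε (pt z.1 z.2)) (𝓝[>] 0)
      (𝓝 (∫ z in RC (1 / 2) 3 a b, v z.2 * ‖riemannZeta (pt z.1 z.2)‖ ^ k)) := by
  have hvc : Continuous fun z : ℝ × ℝ => v z.2 := hv.comp continuous_snd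
  have hb : Integrable (fun z : ℝ × ℝ => |v z.2| * G riemannZeta (k / 2) 1 (pt z.1 z.2))
      (volume.restrict (RC (1 / 2) 3 a b)) :=
    (hvc.abs.continuousOn.mul (comp_c (cG UU_diff one_pos) (RC_U ha))).integrableOn_compact RC_comp
  refine tendsto_integral_filter_of_dominated_convergence _ ?_ ?_ hb ?_
  · filter_upwards [self_mem_nhdsWithin] with ε hε
    exact ((hvc.continuousOn.mul (comp_c (cG UU_diff hε) (RC_U ha))).integrableOn_compact RC_comp).aestronglyMeasurable
  · have h1 : ∀ᶠ ε : ℝ in 𝓝[>] 0, ε ≤ 1 := nhdsWithin_le_nhds (Iic_mem_nhds one_pos)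
    filter_upwards [self_mem_nhdsWithin, h1] with ε hε hε1
    refine Eventually.of_forall fun z => ?_
    rw [norm_mul, Real.norm_eq_abs, Real.norm_of_nonneg (G_nonneg hε _)]
    exact mul_le_mul_of_nonneg_left (G_mono hk hε hε1 _) (abs_nonneg _)
  · exact Eventually.of_forall fun z => (G_tendsto hk _).const_mul _

lemma line_lim (hk : 0 < k) {v : ℝ → ℝ} (hv : Continuous v) (ha : 0 < a) (hab : a ≤ b) (x : ℝ) :
    Tendsto (fun ε => ∫ y in a..b, v y * G riemannZeta (k / 2) ε (pt x y)) (𝓝[>] 0) (𝓝 (AA v k x a b)) := by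
  have hyU : ∀ y ∈ uIcc a b, pt x y ∈ UU := by
    intro y hy
    rw [uIcc_of_le hab] at hy
    simp only [UU, mem_ofPred_eq, pt_im]
    linarith [hy.1]
  have hpy : Continuous fun y : ℝ => pt x y := pt_cont.comp (by fun_prop : Continuous fun y : ℝ => (x, y))
  have hc : ∀ {F : ℂ → ℝ}, ContinuousOn F UU → ContinuousOn (fun y : ℝ => F (pt x y)) (uIcc a b) :=
    fun {F} hF => hF.comp hpy.continuousOn hyU
  unfold AA
  refine intervalIntegral.tendsto_integral_filter_of_dominated_convergence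
    (fun y => |v y| * G riemannZeta (k / 2) 1 (pt x y)) ?_ ?_
    (hv.abs.continuousOn.mul (hc (cG UU_diff one_pos))).intervalIntegrable ?_
  · filter_upwards [self_mem_nhdsWithin] with ε hε
    exact (hv.continuousOn.mul (hc (cG UU_diff hε))).intervalIntegrable.aestronglyMeasurable_restrict_uIoc
  · have h1 : ∀ᶠ ε : ℝ in 𝓝[>] 0, ε ≤ 1 := nhdsWithin_le_nhds (Iic_mem_nhds one_pos)
    filter_upwards [self_mem_nhdsWithin, h1] with ε hε hε1
    refine Eventually.of_forall fun y _ => ?_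
    rw [norm_mul, Real.norm_eq_abs, Real.norm_of_nonneg (G_nonneg hε _)]
    exact mul_le_mul_of_nonneg_left (G_mono hk hε hε1 _) (abs_nonneg _)
  · exact Eventually.of_forall fun y _ => (G_tendsto hk _).const_mul _

/-- the mean over `1/2 ≤ x ≤ 3` is at most the moments on the two sides -/
theorem BB_le (hk : 0 < k) (h : Wt w w1 w2 a b) (hw0 : ∀ y ∈ Icc a b, 0 ≤ w y) (ha : 1 < a) (hab : a ≤ b) :
    2 * BB w k a b ≤ 5 / 2 * (AA w k 3 a b + AA w k (1 / 2) a b) +
      2 * ∫ z in RC (1 / 2) 3 a b, |w2 z.2| * ‖riemannZeta (pt z.1 z.2)‖ ^ k := by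
  have ha0 : 0 < a := by linarith
  have t1 := (RC_lim (b := b) hk h.c ha0).const_mul 2
  have t2 := (RC_lim (b := b) hk h.c2.abs ha0).const_mul 2
  have t3 := line_lim hk h.c ha0 hab 3
  have t4 := line_lim hk h.c ha0 hab (1 / 2)
  refine le_of_tendsto_of_tendsto t1 (((t3.add t4).const_mul (5 / 2)).add t2) ?_
  filter_upwards [self_mem_nhdsWithin] with ε hε
  refine (BB_eps hk hε h hw0 ha hab).trans (le_of_eq ?_)
  congr 2
  have hyU : ∀ x : ℝ, ∀ y ∈ uIcc a b, pt x y ∈ UU := by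
    intro x y hy
    rw [uIcc_of_le hab] at hy
    simp only [UU, mem_ofPred_eq, pt_im]
    linarith [hy.1]
  have hpy : ∀ x : ℝ, Continuous fun y : ℝ => pt x y := fun x =>
    pt_cont.comp (by fun_prop : Continuous fun y : ℝ => (x, y))
  have i1 : ∀ x : ℝ, IntervalIntegrable (fun y => w y * G riemannZeta (k / 2) ε (pt x y)) volume a b := fun x =>
    (h.c.continuousOn.mul ((cG UU_diff hε).comp (hpy x).continuousOn (hyU x))).intervalIntegrable
  rw [← intervalIntegral.integral_add (i1 3) (i1 (1 / 2))]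
  refine intervalIntegral.integral_congr fun y _ => ?_
  ring

end

end Pool.Agent.L7h13.AF
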