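import Pool.Agent.L7h13.AF.Err

/-!
# The error term for powers of cut-off functions
-/

set_option autoImplicit false

open Complex MeasureTheory Set Filter Topology

namespace Pool.Agent.L7h13.AF

open Pool.Agent.W188.QS (cp XX lam)

noncomputable section

variable {k : ℝ} {w w1 w2 : ℝ → ℝ} {a b X : ℝ}

/-- the indicator function of `t ≤ 3` -/
def ind (y : ℝ) : ℝ := (Iic (3:ℝ)).indicator (fun _ => (1:ℝ)) y

lemma ind_nonneg (y : ℝ) : 0 ≤ ind y := by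
  unfold ind; exact indicator_nonneg (fun _ _ => zero_le_one) _

lemma ind_meas : Measurable ind := measurable_const.indicator measurableSet_Iic

/-- weights for which the error term is small -/
structure GW (K T : ℝ) (m : ℕ) (g w w1 w2 : ℝ → ℝ) (a b : ℝ) : Prop where
  wt : Wt w w1 w2 a b
  ha : 2 ≤ a
  hab : a ≤ b
  hb : b ≤ T
  g0 : ∀ y ∈ Icc a b, 0 ≤ g y
  g1 : ∀ y ∈ Icc a b, g y ≤ 1
  gw : ∀ y ∈ Icc a b, w y = g y ^ m
  g2 : ∀ y ∈ Icc a b, |w2 y| ≤ K * (ind y + (T ^ 2)⁻¹ * g y ^ (m - 2))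

lemma pw_bound (hk : 0 < k) {m : ℕ} (hm : 10 * k + 2 ≤ m) : ∃ C : ℝ, 1 ≤ C ∧ ∀ (T : ℝ) (s : ℂ) (g : ℝ), 1 ≤ T →
    1 / 2 ≤ s.re → s.re ≤ 3 → 2 ≤ s.im → s.im ≤ T → 0 ≤ g → g ≤ 1 →
    (T ^ 2)⁻¹ * g ^ (m - 2) * ‖riemannZeta s‖ ^ k ≤ T⁻¹ * (g ^ m * ‖riemannZeta s‖ ^ k) + (T ^ 2)⁻¹ * C ∧
    ind s.im * ‖riemannZeta s‖ ^ k ≤ ind s.im * C := by
  obtain ⟨C₀, hC₀, hgr⟩ := Pool.Agent.L7h13.SP.zgrow 3
  refine ⟨(C₀ * 3 ^ (5:ℝ)) ^ k, ?_, fun T s g hT h1 h2 h3 h4 hg0 hg1 => ⟨?_, ?_⟩⟩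
  · apply Real.one_le_rpow _ hk.le
    have : (1:ℝ) ≤ 3 ^ (5:ℝ) := Real.one_le_rpow (by norm_num) (by norm_num)
    nlinarith
  · have hm2 : (2:ℝ) ≤ m := by linarith
    have hm2' : 2 ≤ m := by exact_mod_cast hm2
    have hT0 : 0 < T := by linarith
    have hz : ‖riemannZeta s‖ ^ k ≤ C₀ ^ k * T ^ (5 * k) := by
      have e1 := hgr s (by linarith) h2 (by linarith)
      have e2 : s.im ^ (5:ℝ) ≤ T ^ (5:ℝ) := Real.rpow_le_rpow (by linarith) h4 (by norm_num)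
      have e3 : ‖riemannZeta s‖ ≤ C₀ * T ^ (5:ℝ) := e1.trans (by gcongr)
      calc ‖riemannZeta s‖ ^ k ≤ (C₀ * T ^ (5:ℝ)) ^ k := Real.rpow_le_rpow (norm_nonneg _) e3 hk.le
        _ = _ := by rw [Real.mul_rpow (by linarith) (by positivity), ← Real.rpow_mul hT0.le]
    have hCk : C₀ ^ k ≤ (C₀ * 3 ^ (5:ℝ)) ^ k := by
      apply Real.rpow_le_rpow (by linarith) _ hk.le
      have : (1:ℝ) ≤ 3 ^ (5:ℝ) := Real.one_le_rpow (by norm_num) (by norm_num)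
      nlinarith
    have hz0 : 0 ≤ ‖riemannZeta s‖ ^ k := by positivity
    rcases le_or_gt (1 / T) (g ^ 2) with h | h
    · have e1 : g ^ (m - 2) ≤ T * g ^ m := by
        have e2 : g ^ m = g ^ (m - 2) * g ^ 2 := by rw [← pow_add]; congr 1; omega
        rw [e2]
        have e3 : 1 ≤ T * g ^ 2 := by
          rw [div_le_iff₀ hT0] at h; linarith
        have e4 : 0 ≤ g ^ (m - 2) := by positivity
        nlinarith
      have e5 : (T ^ 2)⁻¹ * g ^ (m - 2) * ‖riemannZeta s‖ ^ k ≤ T⁻¹ * (g ^ m * ‖riemannZeta s‖ ^ k) := by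
        calc (T ^ 2)⁻¹ * g ^ (m - 2) * ‖riemannZeta s‖ ^ k ≤ (T ^ 2)⁻¹ * (T * g ^ m) * ‖riemannZeta s‖ ^ k := by gcongr
          _ = _ := by field_simp
      have e6 : 0 ≤ (T ^ 2)⁻¹ * (C₀ * 3 ^ (5:ℝ)) ^ k := by positivity
      linarith
    · have e1 : g ^ (m - 2) ≤ T ^ (-(5 * k)) := by
        have e2 : g ≤ T ^ (-(1 / 2 : ℝ)) := by
          have : g ^ 2 ≤ (T ^ (-(1 / 2 : ℝ))) ^ 2 := by
            rw [← Real.rpow_natCast (T ^ (-(1 / 2 : ℝ))), ← Real.rpow_mul hT0.le]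
            norm_num
            rw [Real.rpow_neg_one, ← one_div]
            exact h.le
          exact le_of_sq_le_sq this (by positivity)
        calc g ^ (m - 2) ≤ (T ^ (-(1 / 2 : ℝ))) ^ (m - 2) := pow_le_pow_left₀ hg0 e2 _
          _ = T ^ (-(1 / 2 : ℝ) * ((m - 2 : ℕ) : ℝ)) := by
            rw [← Real.rpow_natCast, ← Real.rpow_mul hT0.le]
          _ ≤ _ := by
            apply Real.rpow_le_rpow_of_exponent_le hT
            rw [Nat.cast_sub hm2']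
            push_cast
            linarith
      have e3 : g ^ (m - 2) * ‖riemannZeta s‖ ^ k ≤ C₀ ^ k := by
        calc g ^ (m - 2) * ‖riemannZeta s‖ ^ k ≤ T ^ (-(5 * k)) * (C₀ ^ k * T ^ (5 * k)) := by gcongr
          _ = C₀ ^ k * (T ^ (-(5 * k)) * T ^ (5 * k)) := by ring
          _ = C₀ ^ k := by rw [← Real.rpow_add hT0]; simp
      have e4 : 0 ≤ T⁻¹ * (g ^ m * ‖riemannZeta s‖ ^ k) := by positivity
      have e5 : (T ^ 2)⁻¹ * g ^ (m - 2) * ‖riemannZeta s‖ ^ k ≤ (T ^ 2)⁻¹ * (C₀ * 3 ^ (5:ℝ)) ^ k := by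
        rw [mul_assoc]
        refine mul_le_mul_of_nonneg_left (e3.trans hCk) (by positivity)
      linarith
  · by_cases h : s.im ≤ 3
    · refine mul_le_mul_of_nonneg_left ?_ (ind_nonneg _)
      have e1 := hgr s (by linarith) h2 (by linarith)
      have e2 : s.im ^ (5:ℝ) ≤ 3 ^ (5:ℝ) := Real.rpow_le_rpow (by linarith) h (by norm_num)
      exact Real.rpow_le_rpow (norm_nonneg _) (e1.trans (by gcongr)) hk.le
    · have : ind s.im = 0 := by unfold ind; rw [indicator_of_notMem]; exact h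
      rw [this]
      simp

/-- the integral of `ind + T^{-2}` -/
lemma ind_int {T : ℝ} (ha : 2 ≤ a) (hab : a ≤ b) (hb : b ≤ T) :
    IntegrableOn (fun y => ind y + (T ^ 2)⁻¹) (Icc a b) ∧ ∫ y in Icc a b, (ind y + (T ^ 2)⁻¹) ≤ 2 := by
  have hT : 2 ≤ T := by linarith
  have i1 : IntegrableOn ind (Icc a b) := by
    unfold ind
    exact (integrableOn_const (by simp)).indicator measurableSet_Iic
  have i2 : IntegrableOn (fun _ : ℝ => (T ^ 2)⁻¹) (Icc a b) := integrableOn_const (by simp)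
  refine ⟨i1.add i2, ?_⟩
  rw [integral_add i1 i2]
  have e1 : ∫ y in Icc a b, ind y ≤ 1 := by
    unfold ind
    rw [setIntegral_indicator measurableSet_Iic, setIntegral_const, smul_eq_mul, mul_one]
    have h1 : volume (Icc a b ∩ Iic 3) ≤ volume (Icc (2:ℝ) 3) := by
      apply measure_mono
      rintro y ⟨h1, h2⟩
      exact ⟨ha.trans h1.1, h2⟩
    have h2 : volume.real (Icc a b ∩ Iic 3) ≤ volume.real (Icc (2:ℝ) 3) := ENNReal.toReal_mono (by simp) h1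
    rw [Real.volume_real_Icc_of_le (by norm_num)] at h2
    linarith
  have e2 : ∫ _ in Icc a b, (T ^ 2)⁻¹ ≤ 1 := by
    rw [setIntegral_const, Real.volume_real_Icc_of_le hab, smul_eq_mul, ← div_eq_mul_inv, div_le_one (by positivity)]
    nlinarith
  linarith

/-- product integral -/
lemma prod_int {u v : ℝ → ℝ} {A B : Set ℝ} (hu : IntegrableOn u A) (hv : IntegrableOn v B) :
    IntegrableOn (fun z : ℝ × ℝ => u z.1 * v z.2) (A ×ˢ B) ∧
    ∫ z in A ×ˢ B, u z.1 * v z.2 = (∫ x in A, u x) * ∫ y in B, v y := by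
  constructor
  · have := hu.mul_prod hv
    rwa [Measure.prod_restrict] at this
  · rw [Measure.volume_eq_prod]
    exact setIntegral_prod_mul u v A B

variable {K T : ℝ} {m : ℕ} {g : ℝ → ℝ}

lemma GW.w0 (h : GW K T m g w w1 w2 a b) : ∀ y ∈ Icc a b, 0 ≤ w y := fun y hy => by
  rw [h.gw y hy]; exact pow_nonneg (h.g0 y hy) _

lemma GW.T2 (h : GW K T m g w w1 w2 a b) : 2 ≤ T := by linarith [h.ha, h.hab, h.hb]

/-- the integral of `|w''| ‖ζ‖^k` over the rectangle -/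
lemma rect_bound (hk : 0 < k) (hm : 10 * k + 2 ≤ m) : ∃ C : ℝ, 1 ≤ C ∧ ∀ (K T : ℝ) (g w w1 w2 : ℝ → ℝ) (a b : ℝ), 0 ≤ K →
    GW K T m g w w1 w2 a b →
    ∫ z in RC (1 / 2) 3 a b, |w2 z.2| * (‖riemannZeta (pt z.1 z.2)‖ ^ k + 1) ≤ K * (C + T⁻¹ * BB w k a b) := by
  obtain ⟨C, hC, hb⟩ := pw_bound hk hm
  refine ⟨5 * (C + 1), by linarith, fun K T g w w1 w2 a b hK h => ?_⟩
  have hT := h.T2
  have hT0 : 0 < T := by linarith
  have ha0 : 0 < a := by linarith [h.ha]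
  obtain ⟨i1, i2⟩ := ind_int (T := T) h.ha h.hab h.hb
  have i3 : IntegrableOn (fun _ : ℝ => (1:ℝ)) (Icc (1 / 2) 3) := integrableOn_const (by simp)
  obtain ⟨j1', j2⟩ := prod_int i3 i1
  have j1 : IntegrableOn (fun z : ℝ × ℝ => 1 * (ind z.2 + (T ^ 2)⁻¹)) (RC (1 / 2) 3 a b) := j1'
  have hz := comp_c (zk_cont hk) (RC_U (x₀ := 1 / 2) (X := 3) (b := b) ha0)
  have iw : IntegrableOn (fun z : ℝ × ℝ => w z.2 * ‖riemannZeta (pt z.1 z.2)‖ ^ k) (RC (1 / 2) 3 a b) :=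
    ((h.wt.c.comp continuous_snd).continuousOn.mul hz).integrableOn_compact RC_comp
  have il : IntegrableOn (fun z : ℝ × ℝ => |w2 z.2| * (‖riemannZeta (pt z.1 z.2)‖ ^ k + 1)) (RC (1 / 2) 3 a b) :=
    ((h.wt.c2.comp continuous_snd).abs.continuousOn.mul (hz.add continuousOn_const)).integrableOn_compact RC_comp
  have hle : ∫ z in RC (1 / 2) 3 a b, |w2 z.2| * (‖riemannZeta (pt z.1 z.2)‖ ^ k + 1) ≤
      ∫ z in RC (1 / 2) 3 a b, (K * (C + 1) * (1 * (ind z.2 + (T ^ 2)⁻¹)) +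
        K * T⁻¹ * (w z.2 * ‖riemannZeta (pt z.1 z.2)‖ ^ k)) := by
    refine setIntegral_mono_on il ((j1.const_mul _).add (iw.const_mul _)) RC_meas fun z hz => ?_
    obtain ⟨hz1, hz2⟩ := hz
    obtain ⟨b1, b2⟩ := hb T (pt z.1 z.2) (g z.2) (by linarith) (by simpa using hz1.1) (by simpa using hz1.2)
      (by simpa using h.ha.trans hz2.1) (by simpa using hz2.2.trans h.hb) (h.g0 _ hz2) (h.g1 _ hz2)
    rw [pt_im] at b2
    have b3 := h.g2 _ hz2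
    have b4 : 0 ≤ ‖riemannZeta (pt z.1 z.2)‖ ^ k := by positivity
    have b5 : g z.2 ^ (m - 2) ≤ 1 := pow_le_one₀ (h.g0 _ hz2) (h.g1 _ hz2)
    have b6 := ind_nonneg z.2
    rw [h.gw _ hz2]
    have b7 : (T ^ 2)⁻¹ * g z.2 ^ (m - 2) ≤ (T ^ 2)⁻¹ := mul_le_of_le_one_right (by positivity) b5
    calc |w2 z.2| * (‖riemannZeta (pt z.1 z.2)‖ ^ k + 1)
        ≤ K * (ind z.2 + (T ^ 2)⁻¹ * g z.2 ^ (m - 2)) * (‖riemannZeta (pt z.1 z.2)‖ ^ k + 1) := by gcongr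
      _ = K * (ind z.2 * ‖riemannZeta (pt z.1 z.2)‖ ^ k + (T ^ 2)⁻¹ * g z.2 ^ (m - 2) * ‖riemannZeta (pt z.1 z.2)‖ ^ k +
            ind z.2 + (T ^ 2)⁻¹ * g z.2 ^ (m - 2)) := by ring
      _ ≤ K * (ind z.2 * C + (T⁻¹ * (g z.2 ^ m * ‖riemannZeta (pt z.1 z.2)‖ ^ k) + (T ^ 2)⁻¹ * C) +
            ind z.2 + (T ^ 2)⁻¹) := by
          refine mul_le_mul_of_nonneg_left ?_ hK
          linarith
      _ = _ := by ring
  refine hle.trans ?_
  rw [integral_add (j1.const_mul _) (iw.const_mul _), integral_const_mul (K * (C + 1)), integral_const_mul (K * T⁻¹)]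
  have e1 : ∫ z in RC (1 / 2) 3 a b, 1 * (ind z.2 + (T ^ 2)⁻¹) ≤ 5 := by
    unfold RC
    rw [j2, setIntegral_const, Real.volume_real_Icc_of_le (by norm_num), smul_eq_mul]
    nlinarith
  have e2 : K * (C + 1) * ∫ z in RC (1 / 2) 3 a b, 1 * (ind z.2 + (T ^ 2)⁻¹) ≤ K * (C + 1) * 5 := by gcongr
  unfold BB
  calc _ ≤ K * (C + 1) * 5 + K * T⁻¹ * ∫ z in RC (1 / 2) 3 a b, w z.2 * ‖riemannZeta (pt z.1 z.2)‖ ^ k := by linarith
    _ = _ := by ring

lemma BB_nonneg (hw0 : ∀ y ∈ Icc a b, 0 ≤ w y) : 0 ≤ BB w k a b :=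
  setIntegral_nonneg RC_meas fun z hz => mul_nonneg (hw0 _ hz.2) (by positivity)

lemma AA_nonneg (hab : a ≤ b) (hw0 : ∀ y ∈ Icc a b, 0 ≤ w y) (x : ℝ) : 0 ≤ AA w k x a b := by
  refine intervalIntegral.integral_nonneg hab fun y hy => mul_nonneg (hw0 _ hy) (by positivity)

/-- the mean over `1/2 ≤ x ≤ 3` -/
lemma BB_bound (hk : 0 < k) (hm : 10 * k + 2 ≤ m) {K : ℝ} (hK : 0 ≤ K) : ∃ C T₀ : ℝ, 1 ≤ C ∧ ∀ (T : ℝ) (g w w1 w2 : ℝ → ℝ) (a b : ℝ),
    T₀ ≤ T → GW K T m g w w1 w2 a b → BB w k a b ≤ 5 / 2 * AA w k (1 / 2) a b + C * T := by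
  obtain ⟨C₁, hC₁, h1⟩ := rect_bound hk hm
  obtain ⟨C₂, hC₂, hfar⟩ := far k
  refine ⟨5 / 2 * (1 + C₂) + 2 * (K * C₁) + 1, 2 * K + 1, by nlinarith [mul_nonneg hK (by linarith : 0 ≤ C₁)], fun T g w w1 w2 a b hT h => ?_⟩
  have hT2 := h.T2
  have hT0 : 0 < T := by linarith
  have h2 := BB_le hk h.wt h.w0 (by linarith [h.ha]) h.hab
  have h3 := h1 K T g w w1 w2 a b hK h
  have ha0 : 0 < a := by linarith [h.ha]
  have hz := comp_c (zk_cont hk) (RC_U (x₀ := 1 / 2) (X := 3) (b := b) ha0)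
  have h4 : ∫ z in RC (1 / 2) 3 a b, |w2 z.2| * ‖riemannZeta (pt z.1 z.2)‖ ^ k ≤
      ∫ z in RC (1 / 2) 3 a b, |w2 z.2| * (‖riemannZeta (pt z.1 z.2)‖ ^ k + 1) := by
    refine setIntegral_mono_on ?_ ?_ RC_meas fun z _ => ?_
    · exact ((h.wt.c2.comp continuous_snd).abs.continuousOn.mul hz).integrableOn_compact RC_comp
    · exact ((h.wt.c2.comp continuous_snd).abs.continuousOn.mul (hz.add continuousOn_const)).integrableOn_compact RC_comp
    · exact mul_le_mul_of_nonneg_left (by linarith) (abs_nonneg _)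
  have h5 : AA w k 3 a b ≤ (1 + C₂) * T := by
    unfold AA
    have hyU : ∀ y ∈ uIcc a b, pt 3 y ∈ UU := by
      intro y hy
      rw [uIcc_of_le h.hab] at hy
      simp only [UU, mem_ofPred_eq, pt_im]
      linarith [hy.1]
    have hpy : Continuous fun y : ℝ => pt 3 y := pt_cont.comp (by fun_prop : Continuous fun y : ℝ => ((3:ℝ), y))
    have i1 : IntervalIntegrable (fun y => w y * ‖riemannZeta (pt 3 y)‖ ^ k) volume a b :=
      (h.wt.c.continuousOn.mul ((zk_cont hk).comp hpy.continuousOn hyU)).intervalIntegrable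
    have h6 : ∫ y in a..b, w y * ‖riemannZeta (pt 3 y)‖ ^ k ≤ ∫ _ in a..b, (1 + C₂) := by
      refine intervalIntegral.integral_mono_on h.hab i1 (by simp) fun y hy => ?_
      have e1 := (hfar (pt 3 y) (by simp)).2.2.1
      rw [pt_re] at e1
      have e2 : Real.exp (-(3 / 2 : ℝ)) ≤ 1 := by rw [Real.exp_le_one_iff]; norm_num
      have e3 := le_abs_self (‖riemannZeta (pt 3 y)‖ ^ k - 1)
      have e4 : ‖riemannZeta (pt 3 y)‖ ^ k ≤ 1 + C₂ := by nlinarith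
      have e5 : w y ≤ 1 := by rw [h.gw y hy]; exact pow_le_one₀ (h.g0 y hy) (h.g1 y hy)
      have e6 := h.w0 y hy
      calc w y * ‖riemannZeta (pt 3 y)‖ ^ k ≤ 1 * (1 + C₂) := by gcongr
        _ = _ := one_mul _
    rw [intervalIntegral.integral_const, smul_eq_mul] at h6
    have : (b - a) * (1 + C₂) ≤ T * (1 + C₂) := by
      have := h.hb; have := h.ha
      gcongr; linarith
    linarith
  have h7 : T⁻¹ * BB w k a b * K ≤ BB w k a b / 2 := by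
    have h8 : K * T⁻¹ ≤ 1 / 2 := by
      rw [← div_eq_mul_inv, div_le_iff₀ hT0]; linarith
    have h9 := BB_nonneg (k := k) h.w0
    nlinarith
  have h10 : K * C₁ ≤ K * C₁ * T := by
    have : 0 ≤ K * C₁ := by positivity
    nlinarith
  nlinarith

theorem err_le (hk : 0 < k) (hm : 10 * k + 2 ≤ m) {K : ℝ} (hK : 0 ≤ K) : ∃ C T₀ : ℝ, 1 ≤ C ∧ ∀ (T : ℝ) (g w w1 w2 : ℝ → ℝ) (a b : ℝ),
    T₀ ≤ T → GW K T m g w w1 w2 a b → ∀ p q : ℝ, 0 ≤ p → p ≤ 1 → 0 ≤ q → q ≤ 1 →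
    |∫ z in SI a b, (p + q * (z.1 - 1 / 2)) * w2 z.2 * (‖riemannZeta (pt z.1 z.2)‖ ^ k - 1)| ≤
      C * (1 + T⁻¹ * AA w k (1 / 2) a b) := by
  obtain ⟨C₁, hC₁, h1⟩ := rect_bound hk hm
  obtain ⟨C₂, T₂, hC₂, h2⟩ := BB_bound hk hm hK
  obtain ⟨C₃, hC₃, hfar⟩ := far k
  refine ⟨4 * K * (C₁ + C₂ + 5 / 2) + 5 * C₃ * K * 8 + 1, T₂, ?_, fun T g w w1 w2 a b hT h p q hp hp1 hq hq1 => ?_⟩
  · have : 0 ≤ 4 * K * (C₁ + C₂ + 5 / 2) := by positivity
    have : 0 ≤ 5 * C₃ * K * 8 := by positivity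
    linarith
  have hT2 := h.T2
  have hT0 : 0 < T := by linarith
  have ha0 : 0 < a := by linarith [h.ha]
  have hA := AA_nonneg (k := k) h.hab h.w0 (1 / 2)
  have hB := BB_nonneg (k := k) h.w0
  have r1 := h1 K T g w w1 w2 a b hK h
  have r2 := h2 T g w w1 w2 a b hT h
  obtain ⟨-, I2, -⟩ := inf_id hk h.wt h.w0 (by linarith [h.ha]) h.hab hp hq
  set F : ℝ × ℝ → ℝ := fun z => (p + q * (z.1 - 1 / 2)) * w2 z.2 * (‖riemannZeta (pt z.1 z.2)‖ ^ k - 1) with hF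
  have hsplit : SI a b = RC (1 / 2) 3 a b ∪ Ioi 3 ×ˢ Icc a b := by
    unfold SI RC
    rw [← union_prod, Icc_union_Ioi_eq_Ici (by norm_num)]
  have hdis : Disjoint (RC (1 / 2) 3 a b) (Ioi 3 ×ˢ Icc a b) := by
    rw [Set.disjoint_left]
    rintro z hz1 hz2
    exact absurd hz1.1.2 (not_le.2 hz2.1)
  have hR : RC (1 / 2) 3 a b ⊆ SI a b := by rw [hsplit]; exact subset_union_left
  have hS : Ioi 3 ×ˢ Icc a b ⊆ SI a b := by rw [hsplit]; exact subset_union_right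
  have iA : IntegrableOn (fun z => |F z|) (SI a b) := I2.abs
  have e0 : |∫ z in SI a b, F z| ≤ ∫ z in SI a b, |F z| := abs_integral_le_integral_abs
  have e1 : ∫ z in SI a b, |F z| = (∫ z in RC (1 / 2) 3 a b, |F z|) + ∫ z in Ioi 3 ×ˢ Icc a b, |F z| := by
    rw [hsplit]
    exact setIntegral_union hdis (measurableSet_Ioi.prod measurableSet_Icc) (iA.mono_set hR) (iA.mono_set hS)
  have hz := comp_c (zk_cont hk) (RC_U (x₀ := 1 / 2) (X := 3) (b := b) ha0)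
  have e2 : ∫ z in RC (1 / 2) 3 a b, |F z| ≤ 4 * (K * (C₁ + T⁻¹ * BB w k a b)) := by
    have : ∫ z in RC (1 / 2) 3 a b, |F z| ≤
        ∫ z in RC (1 / 2) 3 a b, 4 * (|w2 z.2| * (‖riemannZeta (pt z.1 z.2)‖ ^ k + 1)) := by
      refine setIntegral_mono_on (iA.mono_set hR) (Integrable.const_mul ?_ 4) RC_meas fun z hz => ?_
      · exact ((h.wt.c2.comp continuous_snd).abs.continuousOn.mul (hz.add continuousOn_const)).integrableOn_compact RC_comp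
      · have f1 := kap_nonneg (x := z.1) hp hq hz.1.1
        have f2 : p + q * (z.1 - 1 / 2) ≤ 4 := by
          have : z.1 ≤ 3 := hz.1.2
          have : (1:ℝ) / 2 ≤ z.1 := hz.1.1
          nlinarith
        have f3 : |‖riemannZeta (pt z.1 z.2)‖ ^ k - 1| ≤ ‖riemannZeta (pt z.1 z.2)‖ ^ k + 1 := by
          have : 0 ≤ ‖riemannZeta (pt z.1 z.2)‖ ^ k := by positivity
          rw [abs_le]; constructor <;> linarith
        rw [hF]
        simp only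
        rw [abs_mul, abs_mul, abs_of_nonneg f1]
        calc (p + q * (z.1 - 1 / 2)) * |w2 z.2| * |‖riemannZeta (pt z.1 z.2)‖ ^ k - 1|
            ≤ 4 * |w2 z.2| * (‖riemannZeta (pt z.1 z.2)‖ ^ k + 1) := by gcongr
          _ = _ := by ring
    rw [integral_const_mul] at this
    linarith
  have e3 : ∫ z in Ioi 3 ×ˢ Icc a b, |F z| ≤ 5 * C₃ * K * 8 := by
    obtain ⟨i1, i2⟩ := ind_int (T := T) h.ha h.hab h.hb
    have i3 : IntegrableOn (fun x : ℝ => Real.exp (-(x / 4))) (Ioi 3) := by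
      have := integrableOn_exp_mul_Ioi (a := -(1/4 : ℝ)) (by norm_num) 3
      refine this.congr_fun (fun x _ => ?_) measurableSet_Ioi
      simp only
      congr 1
      ring
    have i4 : ∫ x in Ioi (3:ℝ), Real.exp (-(x / 4)) ≤ 4 := by
      have := integral_exp_mul_Ioi (a := -(1/4 : ℝ)) (by norm_num) 3
      have e : ∀ x : ℝ, Real.exp (-(x / 4)) = Real.exp (-(1 / 4) * x) := fun x => by congr 1; ring
      simp_rw [e]
      rw [this]
      have : Real.exp (-(1/4 : ℝ) * 3) ≤ 1 := by rw [Real.exp_le_one_iff]; norm_num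
      rw [neg_div, div_neg, neg_neg]
      linarith
    obtain ⟨j1, j2⟩ := prod_int i3 i1
    have : ∫ z in Ioi 3 ×ˢ Icc a b, |F z| ≤
        ∫ z in Ioi 3 ×ˢ Icc a b, (5 * C₃ * K) * (Real.exp (-(z.1 / 4)) * (ind z.2 + (T ^ 2)⁻¹)) := by
      refine setIntegral_mono_on (iA.mono_set hS) (j1.const_mul _) (measurableSet_Ioi.prod measurableSet_Icc) fun z hz => ?_
      have hx : 3 ≤ z.1 := le_of_lt hz.1
      have f1 := kap_nonneg (x := z.1) hp hq (by linarith)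
      have f2 := (hfar (pt z.1 z.2) (by rw [pt_re]; exact hx)).2.2.1
      rw [pt_re] at f2
      have f3 := lin_exp (C := C₃) hp hq hC₃.le hx
      have f4 := h.g2 _ hz.2
      have f5 : g z.2 ^ (m - 2) ≤ 1 := pow_le_one₀ (h.g0 _ hz.2) (h.g1 _ hz.2)
      have f6 := ind_nonneg z.2
      have f7 : |w2 z.2| ≤ K * (ind z.2 + (T ^ 2)⁻¹) := f4.trans (by
        refine mul_le_mul_of_nonneg_left ?_ hK
        have : (T ^ 2)⁻¹ * g z.2 ^ (m - 2) ≤ (T ^ 2)⁻¹ := mul_le_of_le_one_right (by positivity) f5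
        linarith)
      rw [hF]
      simp only
      rw [abs_mul, abs_mul, abs_of_nonneg f1]
      calc (p + q * (z.1 - 1 / 2)) * |w2 z.2| * |‖riemannZeta (pt z.1 z.2)‖ ^ k - 1|
          ≤ (p + q * (z.1 - 1 / 2)) * |w2 z.2| * (C₃ * Real.exp (-(z.1 / 2))) := by gcongr
        _ = ((p + q * (z.1 - 1 / 2)) * (C₃ * Real.exp (-(z.1 / 2)))) * |w2 z.2| := by ring
        _ ≤ ((p + 4 * q) * C₃ * Real.exp (-(z.1 / 4))) * (K * (ind z.2 + (T ^ 2)⁻¹)) := by gcongr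
        _ ≤ (5 * C₃ * Real.exp (-(z.1 / 4))) * (K * (ind z.2 + (T ^ 2)⁻¹)) := by
            gcongr
            linarith
        _ = _ := by ring
    refine this.trans ?_
    rw [integral_const_mul, j2]
    have i5 : 0 ≤ ∫ y in Icc a b, (ind y + (T ^ 2)⁻¹) :=
      setIntegral_nonneg measurableSet_Icc fun y _ => by have := ind_nonneg y; positivity
    have i6 : (∫ x in Ioi (3:ℝ), Real.exp (-(x / 4))) * ∫ y in Icc a b, (ind y + (T ^ 2)⁻¹) ≤ 4 * 2 := by gcongr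
    have : 0 ≤ 5 * C₃ * K := by positivity
    nlinarith
  have e4 : T⁻¹ * BB w k a b ≤ 5 / 2 * (T⁻¹ * AA w k (1 / 2) a b) + C₂ := by
    calc T⁻¹ * BB w k a b ≤ T⁻¹ * (5 / 2 * AA w k (1 / 2) a b + C₂ * T) := by gcongr
      _ = _ := by field_simp
  have hA' : 0 ≤ T⁻¹ * AA w k (1 / 2) a b := by positivity
  calc |∫ z in SI a b, F z| ≤ 4 * (K * (C₁ + T⁻¹ * BB w k a b)) + 5 * C₃ * K * 8 := by linarith
    _ ≤ 4 * (K * (C₁ + (5 / 2 * (T⁻¹ * AA w k (1 / 2) a b) + C₂))) + 5 * C₃ * K * 8 := by gcongr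
    _ ≤ _ := by
      have q1 : 0 ≤ 5 * C₃ * K * 8 := by positivity
      have q2 : 0 ≤ K * (C₁ + C₂) * (T⁻¹ * AA w k (1 / 2) a b) := by positivity
      have q3 : 0 ≤ 5 * C₃ * K * 8 * (T⁻¹ * AA w k (1 / 2) a b) := by positivity
      have q4 : 0 ≤ K := hK
      nlinarith

end

end Pool.Agent.L7h13.AF
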