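import Pool.Agent.L7h13.AF.Lim

/-!
# Zeta far to the right
-/

set_option autoImplicit false

open Complex MeasureTheory Set Filter Topology

namespace Pool.Agent.L7h13.AF

noncomputable section

/-- (after `Pool.Agent.H986R2.DBN.Xb.zeta_one`) -/
lemma zeta_one {s : ℂ} {r : ℝ} (hr : 1 ≤ r) (hs : s.re = 1 / 2 + r) :
    ‖riemannZeta s - 1‖ ≤ (2 * ∑' m : ℕ, 1 / ((m : ℝ) + 1) ^ (3 / 2 : ℝ)) * (2 : ℝ) ^ (-r) := by
  have hs1 : 1 < s.re := by rw [hs]; linarith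
  have hsum : Summable fun n : ℕ => 1 / ((n : ℂ) + 1) ^ s := by
    have := (Complex.summable_one_div_nat_cpow (p := s)).2 hs1
    have h2 := (summable_nat_add_iff (f := fun n : ℕ => 1 / (n : ℂ) ^ s) 1).2 this
    simpa using h2
  have hsumR : Summable fun n : ℕ => 1 / ((n : ℝ) + 1) ^ (3 / 2 : ℝ) := by
    have := (Real.summable_one_div_nat_rpow (p := 3 / 2)).2 (by norm_num)
    have h2 := (summable_nat_add_iff (f := fun n : ℕ => 1 / (n : ℝ) ^ (3 / 2 : ℝ)) 1).2 this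
    simpa using h2
  rw [zeta_eq_tsum_one_div_nat_add_one_cpow hs1, hsum.tsum_eq_zero_add]
  have h0 : (1 : ℂ) / (((0 : ℕ) : ℂ) + 1) ^ s = 1 := by simp
  rw [h0, add_sub_cancel_left]
  have hsumR' : Summable fun n : ℕ => 1 / (((n + 1 : ℕ) : ℝ) + 1) ^ (3 / 2 : ℝ) :=
    (summable_nat_add_iff (f := fun n : ℕ => 1 / ((n : ℝ) + 1) ^ (3 / 2 : ℝ)) 1).2 hsumR
  have hle : ∑' n : ℕ, 1 / (((n + 1 : ℕ) : ℝ) + 1) ^ (3 / 2 : ℝ) ≤
      ∑' m : ℕ, 1 / ((m : ℝ) + 1) ^ (3 / 2 : ℝ) := by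
    rw [hsumR.tsum_eq_zero_add]
    have : (0 : ℝ) ≤ 1 / (((0 : ℕ) : ℝ) + 1) ^ (3 / 2 : ℝ) := by positivity
    linarith
  have hterm : ∀ n : ℕ, ‖1 / (((n + 1 : ℕ) : ℂ) + 1) ^ s‖ ≤
      (2 * (2 : ℝ) ^ (-r)) * (1 / (((n + 1 : ℕ) : ℝ) + 1) ^ (3 / 2 : ℝ)) := by
    intro n
    set x : ℝ := ((n + 1 : ℕ) : ℝ) + 1 with hx
    have hx2 : 2 ≤ x := by
      rw [hx]; push_cast; have : (0 : ℝ) ≤ n := Nat.cast_nonneg n; linarith
    have hx0 : 0 < x := by linarith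
    have e1 : (((n + 1 : ℕ) : ℂ) + 1) = (x : ℂ) := by rw [hx]; push_cast; ring
    rw [e1, norm_div, norm_one, Complex.norm_cpow_eq_rpow_re_of_pos hx0, hs]
    have e2 : x ^ (1 / 2 + r) = x ^ (3 / 2 : ℝ) * x ^ (r - 1) := by
      rw [← Real.rpow_add hx0]; congr 1; ring
    have e3 : (2 : ℝ) ^ (r - 1) ≤ x ^ (r - 1) :=
      Real.rpow_le_rpow (by norm_num) hx2 (by linarith)
    have e4 : (2 : ℝ) ^ (r - 1) = 2 ^ r / 2 := by
      rw [Real.rpow_sub (by norm_num), Real.rpow_one]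
    have e5 : (0 : ℝ) < 2 ^ (r - 1) := Real.rpow_pos_of_pos (by norm_num) _
    have e6 : (0 : ℝ) < x ^ (3 / 2 : ℝ) := Real.rpow_pos_of_pos hx0 _
    have e7 : 2 * (2 : ℝ) ^ (-r) = 1 / (2 : ℝ) ^ (r - 1) := by
      rw [e4, Real.rpow_neg (by norm_num)]
      field_simp
    rw [e2, e7, div_mul_div_comm, one_mul]
    apply one_div_le_one_div_of_le (by positivity)
    rw [mul_comm (x ^ (3 / 2 : ℝ))]
    exact mul_le_mul_of_nonneg_right e3 e6.le
  have hS : Summable fun n : ℕ => (2 * (2 : ℝ) ^ (-r)) * (1 / (((n + 1 : ℕ) : ℝ) + 1) ^ (3 / 2 : ℝ)) :=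
    hsumR'.mul_left _
  calc ‖∑' n : ℕ, 1 / (((n + 1 : ℕ) : ℂ) + 1) ^ s‖
      ≤ ∑' n : ℕ, (2 * (2 : ℝ) ^ (-r)) * (1 / (((n + 1 : ℕ) : ℝ) + 1) ^ (3 / 2 : ℝ)) :=
        tsum_of_norm_bounded hS.hasSum hterm
    _ = (2 * (2 : ℝ) ^ (-r)) * ∑' n : ℕ, (1 / (((n + 1 : ℕ) : ℝ) + 1) ^ (3 / 2 : ℝ)) := tsum_mul_left
    _ ≤ (2 * (2 : ℝ) ^ (-r)) * ∑' m : ℕ, 1 / ((m : ℝ) + 1) ^ (3 / 2 : ℝ) :=
        mul_le_mul_of_nonneg_left hle (by positivity)
    _ = _ := by ring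

theorem zeta_sub_two (s : ℂ) (hs : 2 ≤ s.re) : ‖riemannZeta s - 1‖ ≤ 2 / 3 := by
  have hs1 : 1 < s.re := by linarith
  have hnorm : ‖riemannZeta s - 1‖ ≤ Real.pi ^ 2 / 6 - 1 := by
    have hz : riemannZeta s = ∑' n : ℕ, 1 / (n + 1 : ℂ) ^ s := zeta_eq_tsum_one_div_nat_add_one_cpow hs1
    have hsum : Summable (fun n : ℕ => 1 / (n + 1 : ℂ) ^ s) := by
      have h := (Complex.summable_one_div_nat_cpow (p := s)).2 hs1
      have h' := (summable_nat_add_iff 1).2 h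
      simpa using h'
    have h0 : riemannZeta s - 1 = ∑' n : ℕ, 1 / ((n + 1 : ℕ) + 1 : ℂ) ^ s := by
      rw [hz, hsum.tsum_eq_zero_add]
      simp
    have hR : HasSum (fun n : ℕ => 1 / (n : ℝ) ^ 2) (Real.pi ^ 2 / 6) := hasSum_zeta_two
    have hR2 : HasSum (fun n : ℕ => 1 / ((n + 2 : ℕ) : ℝ) ^ 2) (Real.pi ^ 2 / 6 - 1) := by
      have := (hasSum_nat_add_iff' (f := fun n : ℕ => 1 / (n : ℝ) ^ 2) 2).2 hR
      simpa [Finset.sum_range_succ] using this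
    rw [h0]
    refine tsum_of_norm_bounded hR2 ?_
    intro n
    rw [norm_div, norm_one]
    have e : (((n + 1 : ℕ) : ℂ) + 1) = (((n + 2 : ℕ) : ℝ) : ℂ) := by
      push_cast; ring
    rw [e, Complex.norm_cpow_eq_rpow_re_of_pos (by positivity)]
    have h2 : ((n + 2 : ℕ) : ℝ) ^ 2 ≤ ((n + 2 : ℕ) : ℝ) ^ s.re := by
      rw [← Real.rpow_natCast]
      exact Real.rpow_le_rpow_of_exponent_le (by push_cast; linarith [(Nat.cast_nonneg n : (0:ℝ) ≤ n)])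
        (by exact_mod_cast hs)
    exact one_div_le_one_div_of_le (by positivity) h2
  have hpi : Real.pi ^ 2 / 6 - 1 ≤ 2 / 3 := by
    have : Real.pi < 3.15 := Real.pi_lt_d2
    nlinarith [Real.pi_pos]
  linarith

lemma two_le_exp (x : ℝ) (hx : 0 ≤ x) : (2:ℝ) ^ (-x) ≤ Real.exp (-(x / 2)) := by
  rw [Real.rpow_def_of_pos (by norm_num), Real.exp_le_exp]
  have := Real.log_two_gt_d9
  nlinarith

lemma pow_lip (k : ℝ) : ∃ C : ℝ, 0 < C ∧ ∀ x : ℝ, 1 / 3 ≤ x → x ≤ 5 / 3 → |x ^ k - 1| ≤ C * |x - 1| := by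
  have hd : ∀ x ∈ Icc (1/3 : ℝ) (5/3), HasDerivWithinAt (fun x : ℝ => x ^ k) (k * x ^ (k - 1)) (Icc (1/3) (5/3)) x := by
    intro x hx
    have hx0 : x ≠ 0 := by have := hx.1; intro h; rw [h] at this; norm_num at this
    exact (Real.hasDerivAt_rpow_const (Or.inl hx0)).hasDerivWithinAt
  have hc : ContinuousOn (fun x : ℝ => k * x ^ (k - 1)) (Icc (1/3) (5/3)) := by
    refine continuousOn_const.mul (continuousOn_id.rpow_const fun x hx => Or.inl ?_)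
    have := hx.1; intro h
    have h' : x = 0 := h
    rw [h'] at this; norm_num at this
  obtain ⟨C, hC⟩ := isCompact_Icc.exists_bound_of_continuousOn hc
  refine ⟨max C 1, by positivity, fun x h1 h2 => ?_⟩
  have h := (convex_Icc (1/3 : ℝ) (5/3)).norm_image_sub_le_of_norm_hasDerivWithin_le (C := max C 1) hd
    (fun y hy => (hC y hy).trans (le_max_left _ _)) (x := 1) (y := x) ⟨by norm_num, by norm_num⟩ ⟨h1, h2⟩
  rw [Real.one_rpow] at h
  exact h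

/-- bounds for `Re s ≥ 3` -/
theorem far (k : ℝ) : ∃ C : ℝ, 0 < C ∧ ∀ s : ℂ, 3 ≤ s.re → riemannZeta s ≠ 0 ∧
    Fk riemannZeta k s ≤ C * Real.exp (-(s.re / 2)) ∧
    |‖riemannZeta s‖ ^ k - 1| ≤ C * Real.exp (-(s.re / 2)) ∧
    ‖riemannZeta s‖ ^ (k - 2) * |P riemannZeta s| ≤ C * Real.exp (-(s.re / 2)) := by
  obtain ⟨K, hK0, hK⟩ : ∃ K : ℝ, 0 < K ∧ ∀ s : ℂ, 3 / 2 ≤ s.re → ‖riemannZeta s - 1‖ ≤ K * Real.exp (-(s.re / 2)) := by
    refine ⟨max ((2 * ∑' m : ℕ, 1 / ((m : ℝ) + 1) ^ (3 / 2 : ℝ)) * Real.exp (1 / 4)) 1, by positivity, fun s hs => ?_⟩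
    have h := zeta_one (s := s) (r := s.re - 1 / 2) (by linarith) (by ring)
    refine h.trans ?_
    have h1 := two_le_exp (s.re - 1 / 2) (by linarith)
    have h2 : Real.exp (-((s.re - 1 / 2) / 2)) = Real.exp (1 / 4) * Real.exp (-(s.re / 2)) := by
      rw [← Real.exp_add]; congr 1; ring
    rw [h2] at h1
    have h3 : 0 ≤ 2 * ∑' m : ℕ, 1 / ((m : ℝ) + 1) ^ (3 / 2 : ℝ) := by positivity
    calc (2 * ∑' m : ℕ, 1 / ((m : ℝ) + 1) ^ (3 / 2 : ℝ)) * (2 : ℝ) ^ (-(s.re - 1 / 2))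
        ≤ (2 * ∑' m : ℕ, 1 / ((m : ℝ) + 1) ^ (3 / 2 : ℝ)) * (Real.exp (1 / 4) * Real.exp (-(s.re / 2))) := by gcongr
      _ = ((2 * ∑' m : ℕ, 1 / ((m : ℝ) + 1) ^ (3 / 2 : ℝ)) * Real.exp (1 / 4)) * Real.exp (-(s.re / 2)) := by ring
      _ ≤ _ := by gcongr; exact le_max_left _ _
  -- the derivative
  have hd : ∀ s : ℂ, 3 ≤ s.re → ‖deriv riemannZeta s‖ ≤ K * Real.exp (1 / 2) * Real.exp (-(s.re / 2)) := by
    intro s hs
    have e1 : deriv riemannZeta s = deriv (fun z => riemannZeta z - 1) s := by rw [deriv_sub_const]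
    rw [e1]
    have h1 := Complex.norm_deriv_le_of_forall_mem_sphere_norm_le (c := s) (R := 1) (C := K * Real.exp (1 / 2) * Real.exp (-(s.re / 2)))
      (f := fun z => riemannZeta z - 1) one_pos ?_ ?_
    · simpa using h1
    · apply DifferentiableOn.diffContOnCl
      rw [closure_ball _ one_ne_zero]
      intro z hz
      have hz1 : |(z - s).re| ≤ 1 := (Complex.abs_re_le_norm _).trans (by simpa [dist_eq_norm] using hz)
      have hz2 : z ≠ 1 := by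
        rintro rfl
        rw [Complex.sub_re, Complex.one_re, abs_le] at hz1
        linarith [hz1.1]
      exact ((differentiableAt_riemannZeta hz2).sub_const 1).differentiableWithinAt
    · intro z hz
      have hz1 : |(z - s).re| ≤ 1 := (Complex.abs_re_le_norm _).trans (by
        rw [mem_sphere_iff_norm] at hz; exact hz.le)
      rw [Complex.sub_re, abs_le] at hz1
      refine (hK z (by linarith [hz1.1])).trans ?_
      rw [mul_assoc, ← Real.exp_add]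
      gcongr
      linarith [hz1.1]
  obtain ⟨C₁, hC₁, hL⟩ := pow_lip k
  obtain ⟨C₂, hC₂, hL2⟩ := pow_lip (k - 2)
  have hn : ∀ s : ℂ, 3 ≤ s.re → riemannZeta s ≠ 0 ∧ 1 / 3 ≤ ‖riemannZeta s‖ ∧ ‖riemannZeta s‖ ≤ 5 / 3 := by
    intro s hs
    have hs2 : ‖riemannZeta s - 1‖ ≤ 2 / 3 := zeta_sub_two s (by linarith)
    have h1 : ‖(1 : ℂ)‖ ≤ ‖riemannZeta s‖ + ‖riemannZeta s - 1‖ := by
      calc ‖(1 : ℂ)‖ = ‖riemannZeta s - (riemannZeta s - 1)‖ := by congr 1; ring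
        _ ≤ _ := norm_sub_le _ _
    have h2 : ‖riemannZeta s‖ ≤ ‖(1 : ℂ)‖ + ‖riemannZeta s - 1‖ := by
      calc ‖riemannZeta s‖ = ‖1 + (riemannZeta s - 1)‖ := by congr 1; ring
        _ ≤ _ := norm_add_le _ _
    rw [norm_one] at h1 h2
    refine ⟨?_, by linarith, by linarith⟩
    intro h
    rw [h] at hs2
    norm_num at hs2
  set A := K * Real.exp (1 / 2) with hA
  have hA0 : 0 < A := by positivity
  refine ⟨(1 + C₂) * A ^ 2 + C₁ * K + (1 + C₂) * A * 2, by positivity, fun s hs => ?_⟩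
  obtain ⟨h0, h1, h2⟩ := hn s hs
  have hE : 0 < Real.exp (-(s.re / 2)) := Real.exp_pos _
  have hE1 : Real.exp (-(s.re / 2)) ≤ 1 := by rw [Real.exp_le_one_iff]; linarith
  have hd1 := hd s hs
  have hpow : ‖riemannZeta s‖ ^ (k - 2) ≤ 1 + C₂ := by
    have h3 := hL2 _ h1 h2
    have h4 : |‖riemannZeta s‖ - 1| ≤ 1 := by rw [abs_le]; constructor <;> linarith
    have h5 := le_abs_self (‖riemannZeta s‖ ^ (k - 2) - 1)
    nlinarith
  refine ⟨h0, ?_, ?_, ?_⟩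
  · unfold Fk
    calc ‖riemannZeta s‖ ^ (k - 2) * ‖deriv riemannZeta s‖ ^ 2
        ≤ (1 + C₂) * (A * Real.exp (-(s.re / 2))) ^ 2 := by gcongr
      _ = ((1 + C₂) * A ^ 2) * (Real.exp (-(s.re / 2)) * Real.exp (-(s.re / 2))) := by ring
      _ ≤ ((1 + C₂) * A ^ 2) * (1 * Real.exp (-(s.re / 2))) := by gcongr
      _ ≤ _ := by
        rw [one_mul]
        gcongr
        have : 0 ≤ C₁ * K := by positivity
        have : 0 ≤ (1 + C₂) * A * 2 := by positivity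
        linarith
  · have h3 := hL _ h1 h2
    have h4 : |‖riemannZeta s‖ - 1| ≤ ‖riemannZeta s - 1‖ := by
      have := abs_norm_sub_norm_le (riemannZeta s) 1
      rwa [norm_one] at this
    have h5 := hK s (by linarith)
    calc |‖riemannZeta s‖ ^ k - 1| ≤ C₁ * |‖riemannZeta s‖ - 1| := h3
      _ ≤ C₁ * (K * Real.exp (-(s.re / 2))) := by gcongr; exact h4.trans h5
      _ = C₁ * K * Real.exp (-(s.re / 2)) := by ring
      _ ≤ _ := by
        gcongr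
        have : 0 ≤ (1 + C₂) * A ^ 2 := by positivity
        have : 0 ≤ (1 + C₂) * A * 2 := by positivity
        linarith
  · have h3 : |P riemannZeta s| ≤ (A * Real.exp (-(s.re / 2))) * 2 := by
      unfold P
      refine (Complex.abs_re_le_norm _).trans ?_
      rw [norm_mul, Complex.norm_conj]
      gcongr
      linarith
    calc ‖riemannZeta s‖ ^ (k - 2) * |P riemannZeta s|
        ≤ (1 + C₂) * ((A * Real.exp (-(s.re / 2))) * 2) := by gcongr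
      _ = (1 + C₂) * A * 2 * Real.exp (-(s.re / 2)) := by ring
      _ ≤ _ := by
        gcongr
        have : 0 ≤ (1 + C₂) * A ^ 2 := by positivity
        have : 0 ≤ C₁ * K := by positivity
        linarith

end

end Pool.Agent.L7h13.AF
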