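import Pool.Agent.L7h13.AF.Dist
import Pool.Agent.W723.QS.Wt
import Pool.Agent.W22.QS.Dyad

/-!
# Equivalent forms of the asymptotic formula
-/

set_option autoImplicit false

open Complex MeasureTheory Set Filter Topology

namespace Pool.Agent.L7h13.AF

open Pool.Agent.W188.QS (cp XX lam)

noncomputable section

variable {k : ℝ}

theorem wt_iff (hk : 0 < k) {A c : ℝ} (hA : 0 ≤ A) :
    Tendsto (fun T : ℝ => MM k T / (T * Real.log T ^ A)) atTop (𝓝 c) ↔
      Tendsto (fun T : ℝ => LM k T / (T * Real.log T ^ (A + 1))) atTop (𝓝 c) := by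
  set V : ℝ → ℝ := fun T => ∫ t in (0:ℝ)..(max T 0), zl k t with hV
  set D : ℝ → ℝ := fun T => ∫ t in (50:ℝ)..(max T 50), lam t * zl k t with hD
  have hlam : ∀ y : ℝ, 50 ≤ y → 1 ≤ lam y := fun y hy => Pool.Agent.W338.QS.lam_ge hy
  have hVm : Monotone V := by
    intro S T hST
    have h1 : max S 0 ≤ max T 0 := max_le_max hST le_rfl
    have h2 := intervalIntegral.integral_add_adjacent_intervals (zl_ii hk 0 (max S 0)) (zl_ii hk (max S 0) (max T 0))
    have h3 : 0 ≤ ∫ t in (max S 0)..(max T 0), zl k t := intervalIntegral.integral_nonneg h1 fun y _ => zl_nonneg _ _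
    rw [hV]
    simp only
    linarith
  have hDm : Monotone D := by
    intro S T hST
    have h1 : max S 50 ≤ max T 50 := max_le_max hST le_rfl
    have h0 : (50:ℝ) ≤ max S 50 := le_max_right _ _
    have h2 := intervalIntegral.integral_add_adjacent_intervals (lz_ii hk (by norm_num : (1:ℝ) < 50) h0)
      (lz_ii hk (by linarith : 1 < max S 50) h1)
    have h3 : 0 ≤ ∫ t in (max S 50)..(max T 50), lam t * zl k t := intervalIntegral.integral_nonneg h1 fun y hy => by
      have := hlam y (h0.trans hy.1)
      exact mul_nonneg (by linarith) (zl_nonneg _ _)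
    rw [hD]
    simp only
    linarith
  have hV0 : ∀ x, 0 ≤ V x := fun x => intervalIntegral.integral_nonneg (le_max_right _ _) fun y _ => zl_nonneg _ _
  have hD0 : ∀ x, 0 ≤ D x := fun x => intervalIntegral.integral_nonneg (le_max_right _ _) fun y hy => by
    have := hlam y hy.1
    exact mul_nonneg (by linarith) (zl_nonneg _ _)
  have h := Pool.Agent.W723.QS.qs_wt Pool.Agent.W22.QS.qs_dyad c A 1 400 hA one_pos V D hVm hDm hV0 hD0 (fun T hT => by
    have e1 : V T - V (T / 2) = ∫ t in (T / 2)..T, zl k t := by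
      rw [hV]
      simp only
      rw [max_eq_left (by linarith : (0:ℝ) ≤ T), max_eq_left (by linarith : (0:ℝ) ≤ T / 2),
        intervalIntegral.integral_interval_sub_left (zl_ii hk _ _) (zl_ii hk _ _)]
    have e2 : D T - D (T / 2) = ∫ t in (T / 2)..T, lam t * zl k t := by
      rw [hD]
      simp only
      rw [max_eq_left (by linarith : (50:ℝ) ≤ T), max_eq_left (by linarith : (50:ℝ) ≤ T / 2),
        intervalIntegral.integral_interval_sub_left (lz_ii hk (by norm_num) (by linarith)) (lz_ii hk (by norm_num) (by linarith))]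
    have hb : ∀ y ∈ Icc (T / 2) T, Real.log T - 4 ≤ lam y ∧ lam y ≤ Real.log T := by
      intro y hy
      have hy0 : 50 ≤ y := by linarith [hy.1]
      have f1 := abs_le.1 (Pool.Agent.W338.QS.qs_line.1 y hy0).2.1
      have f2 : (14:ℝ) / y ≤ 7 / 100 := by
        rw [div_le_iff₀ (by linarith)]
        linarith [hy.1]
      have f3 : Real.log (y / (2 * Real.pi)) = Real.log y - Real.log (2 * Real.pi) :=
        Real.log_div (by linarith) (by positivity)
      have f4 : Real.log (T / 2) ≤ Real.log y := Real.log_le_log (by linarith) hy.1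
      have f5 : Real.log y ≤ Real.log T := Real.log_le_log (by linarith) hy.2
      rw [Real.log_div (by linarith) (by norm_num)] at f4
      have f6 := Real.log_two_lt_d9
      have f7 : Real.log (2 * Real.pi) ≤ 2 := by
        have : Real.log (2 * Real.pi) ≤ Real.log (Real.exp 2) := by
          apply Real.log_le_log (by positivity)
          have := Real.add_one_le_exp (1:ℝ)
          have h8 : Real.exp 2 = Real.exp 1 * Real.exp 1 := by rw [← Real.exp_add]; norm_num
          have h9 := Real.exp_one_gt_d9
          have h10 := Real.pi_lt_d2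
          nlinarith
        rwa [Real.log_exp] at this
      have f8 : 1 ≤ Real.log (2 * Real.pi) := by
        have : Real.log (Real.exp 1) ≤ Real.log (2 * Real.pi) := by
          apply Real.log_le_log (Real.exp_pos _)
          have h9 := Real.exp_one_lt_d9
          have h10 := Real.pi_gt_three
          linarith
        rwa [Real.log_exp] at this
      rw [f3] at f1
      constructor <;> linarith [f1.1, f1.2]
    have i1 := zl_ii hk (T / 2) T
    have i2 := lz_ii hk (by linarith : 1 < T / 2) (by linarith : T / 2 ≤ T)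
    rw [e1, e2, one_mul, ← intervalIntegral.integral_const_mul, ← intervalIntegral.integral_const_mul]
    constructor
    · refine intervalIntegral.integral_mono_on (by linarith) (i1.const_mul _) i2 fun y hy => ?_
      exact mul_le_mul_of_nonneg_right (hb y hy).1 (zl_nonneg _ _)
    · refine intervalIntegral.integral_mono_on (by linarith) i2 (i1.const_mul _) fun y hy => ?_
      exact mul_le_mul_of_nonneg_right (hb y hy).2 (zl_nonneg _ _))
  have g1 : (fun T : ℝ => MM k T / (T * Real.log T ^ A)) =ᶠ[atTop] fun T : ℝ => V T / (T * Real.log T ^ A) := by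
    filter_upwards [eventually_ge_atTop 0] with T hT
    rw [hV]
    simp only
    rw [max_eq_left hT]
    rfl
  have g2 : (fun T : ℝ => LM k T / (T * Real.log T ^ (A + 1))) =ᶠ[atTop] fun T : ℝ => 1 * D T / (T * Real.log T ^ (A + 1)) := by
    filter_upwards [eventually_ge_atTop 50] with T hT
    rw [hD]
    simp only
    rw [max_eq_left hT, one_mul]
    rfl
  rw [tendsto_congr' g1, tendsto_congr' g2]
  exact h

lemma scale_iff {F : ℝ → ℝ} {c d : ℝ} (hd : 0 < d) {G : ℝ → ℝ} :
    Tendsto (fun T : ℝ => d * F T / G T) atTop (𝓝 c) ↔ Tendsto (fun T : ℝ => F T / G T) atTop (𝓝 (c / d)) := by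
  constructor
  · intro h
    have := h.const_mul d⁻¹
    have e : d⁻¹ * c = c / d := by rw [div_eq_mul_inv, mul_comm]
    rw [e] at this
    refine this.congr fun T => ?_
    field_simp
  · intro h
    have := h.const_mul d
    rw [mul_div_cancel₀ _ hd.ne'] at this
    refine this.congr fun T => ?_
    ring

theorem iff_E (hk : 0 < k) {A c : ℝ} (hA : 0 < A) :
    Tendsto (fun T : ℝ => MM k T / (T * Real.log T ^ A)) atTop (𝓝 c) ↔
      Tendsto (fun T : ℝ => ZZ k 1 0 T / (T * Real.log T ^ (A + 1))) atTop (𝓝 (c / (2 * k))) := by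
  rw [wt_iff hk hA.le, ← scale_iff (by positivity : 0 < 2 * k)]
  exact ilv_iff (by linarith) (ilv_E hk).2 (ilv_E hk).1

theorem iff_V (hk : 0 < k) {A c : ℝ} (hA : 0 < A) :
    Tendsto (fun T : ℝ => MM k T / (T * Real.log T ^ A)) atTop (𝓝 c) ↔
      Tendsto (fun T : ℝ => ZZ k 0 1 T / (T * Real.log T ^ A)) atTop (𝓝 (c / k ^ 2)) := by
  rw [← scale_iff (by positivity : 0 < k ^ 2)]
  exact ilv_iff hA (ilv_V hk).2 (ilv_V hk).1

end

end Pool.Agent.L7h13.AF
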