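import Pool.Agent.L7h13.AF.Zt

/-!
# The identities in the half strip
-/

set_option autoImplicit false

open Complex MeasureTheory Set Filter Topology

namespace Pool.Agent.L7h13.AF

open Pool.Agent.W188.QS (cp XX lam)

noncomputable section

variable {k : ℝ} {w w1 w2 : ℝ → ℝ} {a b X : ℝ}

/-- `‖ζ‖^k` is continuous -/
lemma zk_cont (hk : 0 < k) : ContinuousOn (fun s => ‖riemannZeta s‖ ^ k) UU :=
  UU_diff.continuousOn.norm.rpow_const fun _ _ => Or.inr hk.le

lemma comp_c {F : ℂ → ℝ} (hF : ContinuousOn F UU) {S : Set (ℝ × ℝ)} (hS : ∀ z ∈ S, pt z.1 z.2 ∈ UU) :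
    ContinuousOn (fun z : ℝ × ℝ => F (pt z.1 z.2)) S := hF.comp pt_cont.continuousOn hS

lemma RC_U {x₀ : ℝ} (ha : 0 < a) : ∀ z ∈ RC x₀ X a b, pt z.1 z.2 ∈ UU := fun z hz => RC_UU ha z.1 hz.1 z.2 hz.2

theorem fin_id (hk : 0 < k) (h : Wt w w1 w2 a b) (hw0 : ∀ y ∈ Icc a b, 0 ≤ w y) (ha : 1 < a) (hab : a ≤ b) (hX : 3 ≤ X)
    {p q : ℝ} (hp : 0 ≤ p) (hq : 0 ≤ q) :
    IntegrableOn (fun z : ℝ × ℝ => (p + q * (z.1 - 1 / 2)) * w z.2 * Fk riemannZeta k (pt z.1 z.2)) (RC (1 / 2) X a b) ∧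
    k ^ 2 * ∫ z in RC (1 / 2) X a b, (p + q * (z.1 - 1 / 2)) * w z.2 * Fk riemannZeta k (pt z.1 z.2) =
      LL w k X a b p q + ∫ z in RC (1 / 2) X a b, (p + q * (z.1 - 1 / 2)) * w2 z.2 * ‖riemannZeta (pt z.1 z.2)‖ ^ k := by
  have ha0 : 0 < a := by linarith
  have hX2 : (1:ℝ) / 2 ≤ X := by linarith
  have hκw2 : Continuous fun z : ℝ × ℝ => (p + q * (z.1 - 1 / 2)) * w2 z.2 :=
    (by fun_prop : Continuous fun z : ℝ × ℝ => p + q * (z.1 - 1 / 2)).mul (h.c2.comp continuous_snd)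
  refine area_lim (κ := fun x => p + q * (x - 1 / 2)) UU_open UU_diff hk h.c hw0 (by fun_prop) (fun x hx => ?_)
    (RC_UU ha0) (zeros_ae _) ?_
  · have : 0 ≤ q * (x - 1 / 2) := mul_nonneg hq (by linarith [hx.1])
    linarith
  have e1 : (fun ε => ∫ z in RC (1 / 2) X a b, (p + q * (z.1 - 1 / 2)) * w z.2 * D riemannZeta (k / 2) ε (pt z.1 z.2)) =ᶠ[𝓝[>] 0]
      fun ε => LH riemannZeta w (k / 2) (1 / 2) X a b p q ε +
        ∫ z in RC (1 / 2) X a b, (p + q * (z.1 - 1 / 2)) * w2 z.2 * G riemannZeta (k / 2) ε (pt z.1 z.2) := by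
    filter_upwards [self_mem_nhdsWithin] with ε hε
    exact (green2 UU_open UU_diff hε h hab hX2 (RC_UU ha0) p q).2.2
  refine Tendsto.congr' e1.symm ((LH_lim hk h.c ha hab hX p q).add ?_)
  have hb : Integrable (fun z : ℝ × ℝ => |(p + q * (z.1 - 1 / 2)) * w2 z.2| * G riemannZeta (k / 2) 1 (pt z.1 z.2))
      (volume.restrict (RC (1 / 2) X a b)) :=
    (hκw2.abs.continuousOn.mul (comp_c (cG UU_diff one_pos) (RC_U ha0))).integrableOn_compact RC_comp
  refine tendsto_integral_filter_of_dominated_convergence _ ?_ ?_ hb ?_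
  · filter_upwards [self_mem_nhdsWithin] with ε hε
    exact ((hκw2.continuousOn.mul (comp_c (cG UU_diff hε) (RC_U ha0))).integrableOn_compact RC_comp).aestronglyMeasurable
  · have h1 : ∀ᶠ ε : ℝ in 𝓝[>] 0, ε ≤ 1 := nhdsWithin_le_nhds (Iic_mem_nhds one_pos)
    filter_upwards [self_mem_nhdsWithin, h1] with ε hε hε1
    refine Eventually.of_forall fun z => ?_
    rw [norm_mul, Real.norm_eq_abs, Real.norm_of_nonneg (G_nonneg hε _)]
    exact mul_le_mul_of_nonneg_left (G_mono hk hε hε1 _) (abs_nonneg _)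
  · exact Eventually.of_forall fun z => (G_tendsto hk _).const_mul _

/-- the half strip -/
def SI (a b : ℝ) : Set (ℝ × ℝ) := Ici (1 / 2) ×ˢ Icc a b

lemma SI_U (ha : 0 < a) : ∀ z ∈ SI a b, pt z.1 z.2 ∈ UU := by
  intro z hz
  simp only [UU, mem_ofPred_eq, pt_im]
  linarith [hz.2.1]

lemma SI_meas : MeasurableSet (SI a b) := measurableSet_Ici.prod measurableSet_Icc

/-- integrability far to the right -/
lemma far_int {g : ℝ × ℝ → ℝ} (hg : ContinuousOn g (Ici 3 ×ˢ Icc a b)) {M : ℝ}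
    (hM : ∀ z ∈ Ici (3:ℝ) ×ˢ Icc a b, |g z| ≤ M * Real.exp (-(z.1 / 4))) : IntegrableOn g (Ici 3 ×ˢ Icc a b) := by
  have h1 : IntegrableOn (fun x : ℝ => Real.exp (-(x / 4))) (Ici 3) := by
    have := integrableOn_exp_mul_Ioi (a := -(1/4 : ℝ)) (by norm_num) 3
    rw [integrableOn_Ici_iff_integrableOn_Ioi]
    refine this.congr_fun (fun x _ => ?_) measurableSet_Ioi
    simp only
    congr 1
    ring
  have h2 : IntegrableOn (fun _ : ℝ => (1:ℝ)) (Icc a b) := by
    exact continuous_const.continuousOn.integrableOn_compact isCompact_Icc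
  have h3 : IntegrableOn (fun z : ℝ × ℝ => M * Real.exp (-(z.1 / 4))) (Ici 3 ×ˢ Icc a b) := by
    have := (h1.mul_prod h2).const_mul M
    rw [Measure.prod_restrict] at this
    refine Integrable.congr this (Eventually.of_forall fun z => ?_)
    simp
  refine Integrable.mono' h3 (hg.aestronglyMeasurable (measurableSet_Ici.prod measurableSet_Icc)) ?_
  filter_upwards [ae_restrict_mem (measurableSet_Ici.prod measurableSet_Icc)] with z hz
  exact hM z hz

lemma SI_split : SI a b = RC (1 / 2) 3 a b ∪ Ici 3 ×ˢ Icc a b := by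
  unfold SI RC
  rw [← union_prod, Icc_union_Ici_eq_Ici (by norm_num)]

lemma lin_exp {p q x C : ℝ} (hp : 0 ≤ p) (hq : 0 ≤ q) (hC : 0 ≤ C) (hx : 3 ≤ x) :
    (p + q * (x - 1 / 2)) * (C * Real.exp (-(x / 2))) ≤ (p + 4 * q) * C * Real.exp (-(x / 4)) := by
  have e1 : Real.exp (-(x / 2)) = Real.exp (-(x / 4)) * Real.exp (-(x / 4)) := by rw [← Real.exp_add]; congr 1; ring
  have e2 : x / 4 ≤ Real.exp (x / 4) := by linarith [Real.add_one_le_exp (x / 4)]
  have e3 : (p + q * (x - 1 / 2)) * Real.exp (-(x / 4)) ≤ p + 4 * q := by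
    rw [Real.exp_neg, ← div_eq_mul_inv, div_le_iff₀ (Real.exp_pos _)]
    have e4 : 1 ≤ Real.exp (x / 4) := Real.one_le_exp (by linarith)
    nlinarith
  calc (p + q * (x - 1 / 2)) * (C * Real.exp (-(x / 2)))
      = ((p + q * (x - 1 / 2)) * Real.exp (-(x / 4))) * (C * Real.exp (-(x / 4))) := by rw [e1]; ring
    _ ≤ (p + 4 * q) * (C * Real.exp (-(x / 4))) := by gcongr
    _ = _ := by ring

lemma kap_nonneg {p q x : ℝ} (hp : 0 ≤ p) (hq : 0 ≤ q) (hx : 1 / 2 ≤ x) : 0 ≤ p + q * (x - 1 / 2) := by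
  have : 0 ≤ q * (x - 1 / 2) := mul_nonneg hq (by linarith)
  linarith

/-- integrability in the half strip, functions with a bound to the right -/
lemma SI_int {g : ℂ → ℝ} {v : ℝ → ℝ} (ha : 1 < a) (hv : Continuous v) {p q : ℝ} (hp : 0 ≤ p) (hq : 0 ≤ q)
    (hg : ContinuousOn g {s : ℂ | 3 ≤ s.re ∧ 0 < s.im}) {C : ℝ} (hC : 0 ≤ C)
    (hgC : ∀ s : ℂ, 3 ≤ s.re → |g s| ≤ C * Real.exp (-(s.re / 2)))
    (h1 : IntegrableOn (fun z : ℝ × ℝ => (p + q * (z.1 - 1 / 2)) * v z.2 * g (pt z.1 z.2)) (RC (1 / 2) 3 a b)) :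
    IntegrableOn (fun z : ℝ × ℝ => (p + q * (z.1 - 1 / 2)) * v z.2 * g (pt z.1 z.2)) (SI a b) := by
  rw [SI_split]
  refine h1.union ?_
  obtain ⟨V, hV⟩ := (isCompact_Icc (a := a) (b := b)).exists_bound_of_continuousOn hv.continuousOn
  refine far_int (M := max V 0 * ((p + 4 * q) * C)) ?_ fun z hz => ?_
  · refine ContinuousOn.mul (Continuous.continuousOn ?_) (hg.comp pt_cont.continuousOn fun z hz => ?_)
    · exact (by fun_prop : Continuous fun z : ℝ × ℝ => p + q * (z.1 - 1 / 2)).mul (hv.comp continuous_snd)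
    · refine ⟨?_, ?_⟩
      · rw [pt_re]; exact hz.1
      · rw [pt_im]; linarith [hz.2.1]
  · have hx : 3 ≤ z.1 := hz.1
    have e1 := hgC (pt z.1 z.2) (by rw [pt_re]; exact hx)
    rw [pt_re] at e1
    have e2 : |v z.2| ≤ max V 0 := (hV z.2 hz.2).trans (le_max_left _ _)
    have e3 := kap_nonneg (x := z.1) hp hq (by linarith)
    rw [abs_mul, abs_mul, abs_of_nonneg e3]
    calc (p + q * (z.1 - 1 / 2)) * |v z.2| * |g (pt z.1 z.2)|
        ≤ (p + q * (z.1 - 1 / 2)) * max V 0 * (C * Real.exp (-(z.1 / 2))) := by gcongr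
      _ = max V 0 * ((p + q * (z.1 - 1 / 2)) * (C * Real.exp (-(z.1 / 2)))) := by ring
      _ ≤ max V 0 * ((p + 4 * q) * C * Real.exp (-(z.1 / 4))) := by
          refine mul_le_mul_of_nonneg_left (lin_exp hp hq hC hx) (le_max_right _ _)
      _ = _ := by ring

lemma far_cont (β : ℝ) : ContinuousOn (fun s => ‖riemannZeta s‖ ^ β) {s : ℂ | 3 ≤ s.re ∧ 0 < s.im} := by
  obtain ⟨C, hC, hfar⟩ := far β
  refine (UU_diff.continuousOn.norm.mono fun s hs => hs.2).rpow_const fun s hs => Or.inl ?_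
  exact norm_ne_zero_iff.2 (hfar s hs.1).1

/-- the limit of `LL` -/
def L0 (w : ℝ → ℝ) (k a b p q : ℝ) : ℝ :=
  ∫ y in a..b, w y * (p * (k / 2 * lam y * ‖riemannZeta (pt (1 / 2) y)‖ ^ k) +
    q * (‖riemannZeta (pt (1 / 2) y)‖ ^ k - 1))

lemma lin_le (hk : 0 < k) (hw : Continuous w) (ha : 1 < a) (hab : a ≤ b) {p q : ℝ} (hp : 0 ≤ p) (hq : 0 ≤ q) :
    Tendsto (fun X => LL w k X a b p q) atTop (𝓝 (L0 w k a b p q)) := by
  obtain ⟨C, hC, hfar⟩ := far k
  have hyU : ∀ x : ℝ, ∀ y ∈ uIcc a b, pt x y ∈ UU := by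
    intro x y hy
    rw [uIcc_of_le hab] at hy
    simp only [UU, mem_ofPred_eq, pt_im]
    linarith [hy.1]
  have hpy : ∀ x : ℝ, Continuous fun y : ℝ => pt x y := fun x =>
    pt_cont.comp (by fun_prop : Continuous fun y : ℝ => (x, y))
  have hc : ∀ {F : ℂ → ℝ} (x : ℝ), ContinuousOn F UU → ContinuousOn (fun y : ℝ => F (pt x y)) (uIcc a b) :=
    fun {F} x hF => hF.comp (hpy x).continuousOn (hyU x)
  have hlam : ContinuousOn lam (uIcc a b) := lam_cont.mono fun y hy => by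
    rw [uIcc_of_le hab] at hy
    exact lt_of_lt_of_le ha hy.1
  obtain ⟨V, hV⟩ := (isCompact_Icc (a := a) (b := b)).exists_bound_of_continuousOn hw.continuousOn
  have hz : ∀ x : ℝ, ContinuousOn (fun y => ‖riemannZeta (pt x y)‖ ^ k) (uIcc a b) := fun x =>
    hc (F := fun s => ‖riemannZeta s‖ ^ k) x (zk_cont hk)
  have hbase : ContinuousOn (fun y => p * (k / 2 * lam y * ‖riemannZeta (pt (1 / 2) y)‖ ^ k) +
      q * ‖riemannZeta (pt (1 / 2) y)‖ ^ k) (uIcc a b) :=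
    (continuousOn_const.mul ((continuousOn_const.mul hlam).mul (hz _))).add (continuousOn_const.mul (hz _))
  rw [tendsto_iff_norm_sub_tendsto_zero]
  have hb : ∀ᶠ X : ℝ in atTop, ‖LL w k X a b p q - L0 w k a b p q‖ ≤
      (max V 0 * ((k * (p + 4 * q) + q) * C) * |b - a|) * Real.exp (-(X / 4)) := by
    filter_upwards [eventually_ge_atTop 3] with X hX
    have hXne : ∀ y : ℝ, riemannZeta (pt X y) ≠ 0 := fun y => (hfar (pt X y) (by simpa using hX)).1
    have i1 : ContinuousOn (fun y => w y * ((p + q * (X - 1 / 2)) * (k * ‖riemannZeta (pt X y)‖ ^ (k - 2) *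
        P riemannZeta (pt X y)) - q * ‖riemannZeta (pt X y)‖ ^ k +
        p * (k / 2 * lam y * ‖riemannZeta (pt (1 / 2) y)‖ ^ k) + q * ‖riemannZeta (pt (1 / 2) y)‖ ^ k)) (uIcc a b) := by
      refine hw.continuousOn.mul ?_
      refine (((continuousOn_const.mul ((continuousOn_const.mul ?_).mul (hc X (cP UU_open UU_diff)))).sub
        (continuousOn_const.mul (hz X))).add (continuousOn_const.mul ((continuousOn_const.mul hlam).mul (hz _)))).add
        (continuousOn_const.mul (hz _))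
      exact (hc (F := fun s => ‖riemannZeta s‖) X UU_diff.continuousOn.norm).rpow_const
        fun y _ => Or.inl (norm_ne_zero_iff.2 (hXne y))
    have i2 : ContinuousOn (fun y => w y * (p * (k / 2 * lam y * ‖riemannZeta (pt (1 / 2) y)‖ ^ k) +
        q * (‖riemannZeta (pt (1 / 2) y)‖ ^ k - 1))) (uIcc a b) := by
      refine hw.continuousOn.mul ?_
      exact (continuousOn_const.mul ((continuousOn_const.mul hlam).mul (hz _))).add
        (continuousOn_const.mul ((hz _).sub continuousOn_const))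
    unfold LL L0
    rw [← intervalIntegral.integral_sub i1.intervalIntegrable i2.intervalIntegrable]
    have hbd : ∀ y ∈ uIoc a b, ‖w y * ((p + q * (X - 1 / 2)) * (k * ‖riemannZeta (pt X y)‖ ^ (k - 2) *
        P riemannZeta (pt X y)) - q * ‖riemannZeta (pt X y)‖ ^ k +
        p * (k / 2 * lam y * ‖riemannZeta (pt (1 / 2) y)‖ ^ k) + q * ‖riemannZeta (pt (1 / 2) y)‖ ^ k) -
        w y * (p * (k / 2 * lam y * ‖riemannZeta (pt (1 / 2) y)‖ ^ k) +
        q * (‖riemannZeta (pt (1 / 2) y)‖ ^ k - 1))‖ ≤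
        max V 0 * ((k * (p + 4 * q) + q) * C) * Real.exp (-(X / 4)) := by
      intro y hy
      rw [uIoc_of_le hab] at hy
      have e0 := hfar (pt X y) (by rw [pt_re]; exact hX)
      rw [pt_re] at e0
      obtain ⟨-, -, e1, e2⟩ := e0
      have e3 : |w y| ≤ max V 0 := (hV y ⟨hy.1.le, hy.2⟩).trans (le_max_left _ _)
      have e4 := kap_nonneg (x := X) hp hq (by linarith)
      have e5 : Real.exp (-(X / 2)) ≤ Real.exp (-(X / 4)) := by
        apply Real.exp_le_exp.2; linarith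
      have e6 : w y * ((p + q * (X - 1 / 2)) * (k * ‖riemannZeta (pt X y)‖ ^ (k - 2) *
        P riemannZeta (pt X y)) - q * ‖riemannZeta (pt X y)‖ ^ k +
        p * (k / 2 * lam y * ‖riemannZeta (pt (1 / 2) y)‖ ^ k) + q * ‖riemannZeta (pt (1 / 2) y)‖ ^ k) -
        w y * (p * (k / 2 * lam y * ‖riemannZeta (pt (1 / 2) y)‖ ^ k) +
        q * (‖riemannZeta (pt (1 / 2) y)‖ ^ k - 1)) =
        w y * ((p + q * (X - 1 / 2)) * (k * (‖riemannZeta (pt X y)‖ ^ (k - 2) * P riemannZeta (pt X y))) -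
          q * (‖riemannZeta (pt X y)‖ ^ k - 1)) := by ring
      rw [e6, norm_mul, Real.norm_eq_abs, Real.norm_eq_abs]
      have e7 : |(p + q * (X - 1 / 2)) * (k * (‖riemannZeta (pt X y)‖ ^ (k - 2) * P riemannZeta (pt X y))) -
          q * (‖riemannZeta (pt X y)‖ ^ k - 1)| ≤ (k * (p + 4 * q) + q) * C * Real.exp (-(X / 4)) := by
        refine (abs_sub _ _).trans ?_
        rw [abs_mul, abs_mul, abs_mul, abs_mul, abs_of_nonneg e4, abs_of_pos hk, abs_of_nonneg hq,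
          abs_of_nonneg (by positivity : 0 ≤ ‖riemannZeta (pt X y)‖ ^ (k - 2))]
        have e8 := lin_exp (C := C) hp hq hC.le hX
        calc (p + q * (X - 1 / 2)) * (k * (‖riemannZeta (pt X y)‖ ^ (k - 2) * |P riemannZeta (pt X y)|)) +
              q * |‖riemannZeta (pt X y)‖ ^ k - 1|
            ≤ (p + q * (X - 1 / 2)) * (k * (C * Real.exp (-(X / 2)))) + q * (C * Real.exp (-(X / 4))) := by
              gcongr
              exact e1.trans (by gcongr)
          _ = k * ((p + q * (X - 1 / 2)) * (C * Real.exp (-(X / 2)))) + q * (C * Real.exp (-(X / 4))) := by ring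
          _ ≤ k * ((p + 4 * q) * C * Real.exp (-(X / 4))) + q * (C * Real.exp (-(X / 4))) := by gcongr
          _ = _ := by ring
      calc |w y| * _ ≤ max V 0 * ((k * (p + 4 * q) + q) * C * Real.exp (-(X / 4))) := by gcongr
        _ = _ := by ring
    refine (intervalIntegral.norm_integral_le_of_norm_le_const hbd).trans (le_of_eq ?_)
    ring
  have hlim : Tendsto (fun X : ℝ => (max V 0 * ((k * (p + 4 * q) + q) * C) * |b - a|) * Real.exp (-(X / 4))) atTop (𝓝 0) := by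
    have : Tendsto (fun X : ℝ => Real.exp (-(X / 4))) atTop (𝓝 0) := by
      refine Real.tendsto_exp_neg_atTop_nhds_zero.comp ?_
      exact tendsto_id.atTop_div_const (by norm_num)
    simpa using this.const_mul (max V 0 * ((k * (p + 4 * q) + q) * C) * |b - a|)
  exact squeeze_zero' (Eventually.of_forall fun _ => norm_nonneg _) hb hlim

theorem inf_id (hk : 0 < k) (h : Wt w w1 w2 a b) (hw0 : ∀ y ∈ Icc a b, 0 ≤ w y) (ha : 1 < a) (hab : a ≤ b)
    {p q : ℝ} (hp : 0 ≤ p) (hq : 0 ≤ q) :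
    IntegrableOn (fun z : ℝ × ℝ => (p + q * (z.1 - 1 / 2)) * w z.2 * Fk riemannZeta k (pt z.1 z.2)) (SI a b) ∧
    IntegrableOn (fun z : ℝ × ℝ => (p + q * (z.1 - 1 / 2)) * w2 z.2 * (‖riemannZeta (pt z.1 z.2)‖ ^ k - 1)) (SI a b) ∧
    k ^ 2 * ∫ z in SI a b, (p + q * (z.1 - 1 / 2)) * w z.2 * Fk riemannZeta k (pt z.1 z.2) =
      L0 w k a b p q +
        ∫ z in SI a b, (p + q * (z.1 - 1 / 2)) * w2 z.2 * (‖riemannZeta (pt z.1 z.2)‖ ^ k - 1) := by
  obtain ⟨C, hC, hfar⟩ := far k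
  have ha0 : 0 < a := by linarith
  have hκw2 : Continuous fun z : ℝ × ℝ => (p + q * (z.1 - 1 / 2)) * w2 z.2 :=
    (by fun_prop : Continuous fun z : ℝ × ℝ => p + q * (z.1 - 1 / 2)).mul (h.c2.comp continuous_snd)
  have I1 : IntegrableOn (fun z : ℝ × ℝ => (p + q * (z.1 - 1 / 2)) * w z.2 * Fk riemannZeta k (pt z.1 z.2)) (SI a b) := by
    refine SI_int (g := Fk riemannZeta k) ha h.c hp hq ?_ hC.le (fun s hs => ?_)
      (fin_id hk h hw0 ha hab le_rfl hp hq).1
    · unfold Fk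
      exact (far_cont (k - 2)).mul (((c1 UU_open UU_diff).norm.pow 2).mono fun s hs => hs.2)
    · rw [abs_of_nonneg (Fk_nonneg _ _ _)]
      exact (hfar s hs).2.1
  have J : ∀ X : ℝ, IntegrableOn (fun z : ℝ × ℝ => (p + q * (z.1 - 1 / 2)) * w2 z.2 * (‖riemannZeta (pt z.1 z.2)‖ ^ k - 1))
      (RC (1 / 2) X a b) := fun X =>
    (hκw2.continuousOn.mul ((comp_c (zk_cont hk) (RC_U ha0)).sub continuousOn_const)).integrableOn_compact RC_comp
  have I2 : IntegrableOn (fun z : ℝ × ℝ => (p + q * (z.1 - 1 / 2)) * w2 z.2 * (‖riemannZeta (pt z.1 z.2)‖ ^ k - 1)) (SI a b) := by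
    refine SI_int (g := fun s => ‖riemannZeta s‖ ^ k - 1) ha h.c2 hp hq ?_ hC.le (fun s hs => ?_) (J 3)
    · exact (far_cont k).sub continuousOn_const
    · exact (hfar s hs).2.2.1
  refine ⟨I1, I2, ?_⟩
  -- the finite identities
  have hfin : ∀ X : ℝ, 3 ≤ X → k ^ 2 * ∫ z in RC (1 / 2) X a b, (p + q * (z.1 - 1 / 2)) * w z.2 * Fk riemannZeta k (pt z.1 z.2) =
      LL w k X a b p q + ∫ z in RC (1 / 2) X a b, (p + q * (z.1 - 1 / 2)) * w2 z.2 * (‖riemannZeta (pt z.1 z.2)‖ ^ k - 1) := by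
    intro X hX
    rw [(fin_id hk h hw0 ha hab hX hp hq).2]
    congr 1
    have j1 : IntegrableOn (fun z : ℝ × ℝ => (p + q * (z.1 - 1 / 2)) * w2 z.2) (RC (1 / 2) X a b) :=
      hκw2.continuousOn.integrableOn_compact RC_comp
    have e1 : ∫ z in RC (1 / 2) X a b, (p + q * (z.1 - 1 / 2)) * w2 z.2 = 0 := by
      rw [← iter_eq (F := fun z : ℝ × ℝ => (p + q * (z.1 - 1 / 2)) * w2 z.2) (by linarith : (1:ℝ) / 2 ≤ X) hab j1]
      have e2 : ∫ y in a..b, w2 y = 0 := by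
        rw [intervalIntegral.integral_eq_sub_of_hasDerivAt (fun y _ => h.d2 y) (h.c2.intervalIntegrable _ _), h.w1a, h.w1b,
          sub_zero]
      simp_rw [intervalIntegral.integral_const_mul, e2, mul_zero]
      simp
    have j2 : IntegrableOn (fun z : ℝ × ℝ => (p + q * (z.1 - 1 / 2)) * w2 z.2 * ‖riemannZeta (pt z.1 z.2)‖ ^ k) (RC (1 / 2) X a b) :=
      (hκw2.continuousOn.mul (comp_c (zk_cont hk) (RC_U ha0))).integrableOn_compact RC_comp
    have e3 : ∫ z in RC (1 / 2) X a b, (p + q * (z.1 - 1 / 2)) * w2 z.2 * (‖riemannZeta (pt z.1 z.2)‖ ^ k - 1) =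
        (∫ z in RC (1 / 2) X a b, (p + q * (z.1 - 1 / 2)) * w2 z.2 * ‖riemannZeta (pt z.1 z.2)‖ ^ k) -
        ∫ z in RC (1 / 2) X a b, (p + q * (z.1 - 1 / 2)) * w2 z.2 := by
      rw [← integral_sub j2 j1]
      refine integral_congr_ae (Eventually.of_forall fun z => ?_)
      simp only
      ring
    rw [e3, e1, sub_zero]
  have hmono : Monotone fun n : ℕ => RC (1 / 2) ((n : ℝ) + 3) a b := by
    intro m n hmn
    refine prod_mono (Icc_subset_Icc le_rfl ?_) le_rfl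
    have : (m : ℝ) ≤ n := by exact_mod_cast hmn
    linarith
  have hU : ⋃ n : ℕ, RC (1 / 2) ((n : ℝ) + 3) a b = SI a b := by
    ext z
    simp only [mem_iUnion]
    constructor
    · rintro ⟨n, h1, h2⟩
      exact ⟨h1.1, h2⟩
    · rintro ⟨h1, h2⟩
      obtain ⟨n, hn⟩ := exists_nat_ge z.1
      exact ⟨n, ⟨h1, by linarith⟩, h2⟩
  have hn : Tendsto (fun n : ℕ => (n : ℝ) + 3) atTop atTop :=
    tendsto_atTop_add_const_right _ _ tendsto_natCast_atTop_atTop
  have T1 := tendsto_setIntegral_of_monotone (fun n : ℕ => RC_meas (x₀ := 1 / 2) (X := (n : ℝ) + 3) (a := a) (b := b)) hmono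
    (by rw [hU]; exact I1)
  have T2 := tendsto_setIntegral_of_monotone (fun n : ℕ => RC_meas (x₀ := 1 / 2) (X := (n : ℝ) + 3) (a := a) (b := b)) hmono
    (by rw [hU]; exact I2)
  rw [hU] at T1 T2
  have T3 := (lin_le hk h.c ha hab hp hq).comp hn
  refine tendsto_nhds_unique (T1.const_mul (k ^ 2)) ((T3.add T2).congr fun n => ?_)
  exact (hfin _ (by have : (0:ℝ) ≤ n := Nat.cast_nonneg n; linarith)).symm

end

end Pool.Agent.L7h13.AF
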