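import Pool.Agent.L7h13.AF.Rect

/-!
# The limit `ε → 0` in Green's identity
-/

set_option autoImplicit false

open Complex MeasureTheory Set Filter Topology

namespace Pool.Agent.L7h13.AF

noncomputable section

/-- `|f|^{k-2} |f'|²` -/
def Fk (f : ℂ → ℂ) (k : ℝ) (s : ℂ) : ℝ := ‖f s‖ ^ (k - 2) * ‖deriv f s‖ ^ 2

/-- the rectangle -/
def RC (x₀ X a b : ℝ) : Set (ℝ × ℝ) := Icc x₀ X ×ˢ Icc a b

variable {f : ℂ → ℂ} {ε k : ℝ} {U : Set ℂ} {w w1 w2 : ℝ → ℝ} {a b x₀ X : ℝ}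

lemma Fk_nonneg (f : ℂ → ℂ) (k : ℝ) (s : ℂ) : 0 ≤ Fk f k s := by unfold Fk; positivity

lemma RC_meas : MeasurableSet (RC x₀ X a b) := measurableSet_Icc.prod measurableSet_Icc
lemma RC_comp : IsCompact (RC x₀ X a b) := isCompact_Icc.prod isCompact_Icc

lemma iter_eq (hX : x₀ ≤ X) (hab : a ≤ b) {F : ℝ × ℝ → ℝ} (hF : IntegrableOn F (RC x₀ X a b)) :
    ∫ x in x₀..X, ∫ y in a..b, F (x, y) = ∫ z in RC x₀ X a b, F z := by
  unfold RC at *
  rw [Measure.volume_eq_prod, setIntegral_prod _ hF, intervalIntegral.integral_of_le hX, integral_Icc_eq_integral_Ioc]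
  refine setIntegral_congr_fun measurableSet_Ioc fun x _ => ?_
  rw [intervalIntegral.integral_of_le hab, integral_Icc_eq_integral_Ioc]

/-- the left side of Green's identity -/
def LH (f : ℂ → ℂ) (w : ℝ → ℝ) (α x₀ X a b p q ε : ℝ) : ℝ :=
  ∫ y in a..b, w y * ((p + q * (X - x₀)) * Gx f α ε (pt X y) - q * G f α ε (pt X y) -
      p * Gx f α ε (pt x₀ y) + q * G f α ε (pt x₀ y))

theorem green2 {α : ℝ} (hU : IsOpen U) (hf : DifferentiableOn ℂ f U) (hε : 0 < ε) (h : Wt w w1 w2 a b) (hab : a ≤ b)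
    (hX : x₀ ≤ X) (hR : ∀ x ∈ Icc x₀ X, ∀ y ∈ Icc a b, pt x y ∈ U) (p q : ℝ) :
    IntegrableOn (fun z : ℝ × ℝ => (p + q * (z.1 - x₀)) * w z.2 * D f α ε (pt z.1 z.2)) (RC x₀ X a b) ∧
    IntegrableOn (fun z : ℝ × ℝ => (p + q * (z.1 - x₀)) * w2 z.2 * G f α ε (pt z.1 z.2)) (RC x₀ X a b) ∧
    ∫ z in RC x₀ X a b, (p + q * (z.1 - x₀)) * w z.2 * D f α ε (pt z.1 z.2) =
      LH f w α x₀ X a b p q ε + ∫ z in RC x₀ X a b, (p + q * (z.1 - x₀)) * w2 z.2 * G f α ε (pt z.1 z.2) := by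
  have hRU : ∀ z ∈ RC x₀ X a b, pt z.1 z.2 ∈ U := fun z hz => hR z.1 hz.1 z.2 hz.2
  have hcont : ∀ {F : ℂ → ℝ}, ContinuousOn F U → ContinuousOn (fun z : ℝ × ℝ => F (pt z.1 z.2)) (RC x₀ X a b) :=
    fun {F} hF => hF.comp pt_cont.continuousOn hRU
  have i1 : IntegrableOn (fun z : ℝ × ℝ => (p + q * (z.1 - x₀)) * w z.2 * D f α ε (pt z.1 z.2)) (RC x₀ X a b) := by
    refine ContinuousOn.integrableOn_compact RC_comp ?_
    refine ContinuousOn.mul (Continuous.continuousOn ?_) (hcont (cD hU hf hε))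
    exact (by fun_prop : Continuous fun z : ℝ × ℝ => p + q * (z.1 - x₀)).mul (h.c.comp continuous_snd)
  have i2 : IntegrableOn (fun z : ℝ × ℝ => (p + q * (z.1 - x₀)) * w2 z.2 * G f α ε (pt z.1 z.2)) (RC x₀ X a b) := by
    refine ContinuousOn.integrableOn_compact RC_comp ?_
    refine ContinuousOn.mul (Continuous.continuousOn ?_) (hcont (cG hf hε))
    exact (by fun_prop : Continuous fun z : ℝ × ℝ => p + q * (z.1 - x₀)).mul (h.c2.comp continuous_snd)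
  refine ⟨i1, i2, ?_⟩
  have e := green (α := α) hU hf hε h hab hX hR p q
  rw [iter_eq (F := fun z => (p + q * (z.1 - x₀)) * (w z.2 * D f α ε (pt z.1 z.2) - w2 z.2 * G f α ε (pt z.1 z.2))) hX hab
    (by
      refine (i1.sub i2).congr (Eventually.of_forall fun z => ?_)
      simp only [Pi.sub_apply]
      ring)] at e
  have e2 : ∫ z in RC x₀ X a b, (p + q * (z.1 - x₀)) * (w z.2 * D f α ε (pt z.1 z.2) - w2 z.2 * G f α ε (pt z.1 z.2)) =
      (∫ z in RC x₀ X a b, (p + q * (z.1 - x₀)) * w z.2 * D f α ε (pt z.1 z.2)) -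
      ∫ z in RC x₀ X a b, (p + q * (z.1 - x₀)) * w2 z.2 * G f α ε (pt z.1 z.2) := by
    rw [← integral_sub i1 i2]
    refine integral_congr_ae (Eventually.of_forall fun z => ?_)
    simp only
    ring
  rw [e2] at e
  unfold LH
  linarith

/-! pointwise limits -/

lemma h0_tendsto (f : ℂ → ℂ) (s : ℂ) : Tendsto (fun ε => h0 f ε s) (𝓝[>] 0) (𝓝 (‖f s‖ ^ 2)) := by
  unfold h0
  have : Tendsto (fun ε : ℝ => ‖f s‖ ^ 2 + ε) (𝓝 0) (𝓝 (‖f s‖ ^ 2 + 0)) := by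
    exact tendsto_const_nhds.add tendsto_id
  rw [add_zero] at this
  exact this.mono_left nhdsWithin_le_nhds

lemma sq_rpow (x β : ℝ) (hx : 0 ≤ x) : (x ^ 2) ^ β = x ^ (2 * β) := by
  rw [← Real.rpow_natCast, ← Real.rpow_mul hx]
  norm_num

lemma G_tendsto (hk : 0 < k) (s : ℂ) : Tendsto (fun ε => G f (k / 2) ε s) (𝓝[>] 0) (𝓝 (‖f s‖ ^ k)) := by
  have h := (h0_tendsto f s).rpow_const (p := k / 2) (Or.inr (by linarith))
  rw [sq_rpow _ _ (norm_nonneg _), mul_div_cancel₀ _ (two_ne_zero' ℝ)] at h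
  exact h

lemma D_tendsto {s : ℂ} (hs : f s ≠ 0) :
    Tendsto (fun ε => D f (k / 2) ε s) (𝓝[>] 0) (𝓝 (k ^ 2 * Fk f k s)) := by
  have hn : 0 < ‖f s‖ := norm_pos_iff.2 hs
  have h1 := (h0_tendsto f s).rpow_const (p := k / 2 - 2) (Or.inl (by positivity))
  rw [sq_rpow _ _ (norm_nonneg _)] at h1
  have h2 : Tendsto (fun ε : ℝ => k / 2 * ‖f s‖ ^ 2 + ε) (𝓝[>] 0) (𝓝 (k / 2 * ‖f s‖ ^ 2 + 0)) :=
    (tendsto_const_nhds.add tendsto_id).mono_left nhdsWithin_le_nhds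
  have h3 := (h1.const_mul (4 * (k / 2) * E1 f s)).mul h2
  unfold D
  convert h3 using 2
  unfold Fk E1
  have e : ‖f s‖ ^ (k - 2) = ‖f s‖ ^ (2 * (k / 2 - 2)) * ‖f s‖ ^ 2 := by
    rw [← Real.rpow_natCast (‖f s‖) 2, ← Real.rpow_add hn]
    congr 1
    push_cast
    ring
  rw [e]
  ring

/-- domination -/
lemma D_le (hk : 0 < k) (hε : 0 < ε) (hε1 : ε ≤ 1) {s : ℂ} (hs : f s ≠ 0) :
    D f (k / 2) ε s ≤ (k ^ 2 + 2 * k) * (Fk f k s + E1 f s * (‖f s‖ ^ 2 + 1) ^ |k / 2 - 1|) := by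
  have hn : 0 < ‖f s‖ := norm_pos_iff.2 hs
  have h := h0_pos (f := f) hε s
  have e0 : 0 ≤ E1 f s := by unfold E1; positivity
  have e1 : D f (k / 2) ε s ≤ (k ^ 2 + 2 * k) * (E1 f s * h0 f ε s ^ (k / 2 - 1)) := by
    have e3 : h0 f ε s ^ (k / 2 - 1) = h0 f ε s ^ (k / 2 - 2) * h0 f ε s := by
      rw [← Real.rpow_add_one h.ne']; congr 1; ring
    rw [e3]
    unfold D
    have e4 : 0 ≤ h0 f ε s ^ (k / 2 - 2) := (Real.rpow_pos_of_pos h _).le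
    have e5 : 2 * k * (k / 2 * ‖f s‖ ^ 2 + ε) ≤ (k ^ 2 + 2 * k) * h0 f ε s := by
      unfold h0
      have : 0 ≤ ‖f s‖ ^ 2 := by positivity
      nlinarith [mul_nonneg hk.le this, mul_nonneg (sq_nonneg k) hε.le]
    calc 4 * (k / 2) * E1 f s * h0 f ε s ^ (k / 2 - 2) * (k / 2 * ‖f s‖ ^ 2 + ε)
        = E1 f s * h0 f ε s ^ (k / 2 - 2) * (2 * k * (k / 2 * ‖f s‖ ^ 2 + ε)) := by ring
      _ ≤ E1 f s * h0 f ε s ^ (k / 2 - 2) * ((k ^ 2 + 2 * k) * h0 f ε s) := by gcongr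
      _ = _ := by ring
  refine e1.trans ?_
  have e6 : h0 f ε s ^ (k / 2 - 1) ≤ ‖f s‖ ^ (k - 2) + (‖f s‖ ^ 2 + 1) ^ |k / 2 - 1| := by
    rcases le_total (k / 2) 1 with h1 | h1
    · have e7 : h0 f ε s ^ (k / 2 - 1) ≤ (‖f s‖ ^ 2) ^ (k / 2 - 1) := by
        apply Real.rpow_le_rpow_of_nonpos (by positivity) _ (by linarith)
        unfold h0
        linarith
      rw [sq_rpow _ _ hn.le] at e7
      have e8 : 2 * (k / 2 - 1) = k - 2 := by ring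
      rw [e8] at e7
      have : 0 ≤ (‖f s‖ ^ 2 + 1) ^ |k / 2 - 1| := by positivity
      linarith
    · have e7 : h0 f ε s ^ (k / 2 - 1) ≤ (‖f s‖ ^ 2 + 1) ^ (k / 2 - 1) := by
        apply Real.rpow_le_rpow h.le _ (by linarith)
        unfold h0
        linarith
      rw [abs_of_nonneg (by linarith : (0:ℝ) ≤ k / 2 - 1)]
      have : 0 ≤ ‖f s‖ ^ (k - 2) := by positivity
      linarith
  have e9 : Fk f k s = E1 f s * ‖f s‖ ^ (k - 2) := by unfold Fk E1; ring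
  rw [e9, ← mul_add]
  gcongr

/-- the limit in the area integral -/
theorem area_lim (hU : IsOpen U) (hf : DifferentiableOn ℂ f U) (hk : 0 < k)
    (hwc : Continuous w) (hw0 : ∀ y ∈ Icc a b, 0 ≤ w y) {κ : ℝ → ℝ} (hκc : Continuous κ)
    (hκ0 : ∀ x ∈ Icc x₀ X, 0 ≤ κ x)
    (hR : ∀ x ∈ Icc x₀ X, ∀ y ∈ Icc a b, pt x y ∈ U)
    (hz : ∀ᵐ z : ℝ × ℝ ∂(volume.restrict (RC x₀ X a b)), f (pt z.1 z.2) ≠ 0) {L : ℝ}
    (hL : Tendsto (fun ε => ∫ z in RC x₀ X a b, κ z.1 * w z.2 * D f (k / 2) ε (pt z.1 z.2)) (𝓝[>] 0) (𝓝 L)) :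
    IntegrableOn (fun z : ℝ × ℝ => κ z.1 * w z.2 * Fk f k (pt z.1 z.2)) (RC x₀ X a b) ∧
    k ^ 2 * ∫ z in RC x₀ X a b, κ z.1 * w z.2 * Fk f k (pt z.1 z.2) = L := by
  have hRU : ∀ z ∈ RC x₀ X a b, pt z.1 z.2 ∈ U := fun z hz => hR z.1 hz.1 z.2 hz.2
  have hcont : ∀ {F : ℂ → ℝ}, ContinuousOn F U → ContinuousOn (fun z : ℝ × ℝ => F (pt z.1 z.2)) (RC x₀ X a b) :=
    fun {F} hF => hF.comp pt_cont.continuousOn hRU
  have hκw : Continuous fun z : ℝ × ℝ => κ z.1 * w z.2 := (hκc.comp continuous_fst).mul (hwc.comp continuous_snd)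
  have hκw0 : ∀ z ∈ RC x₀ X a b, 0 ≤ κ z.1 * w z.2 := fun z hz => mul_nonneg (hκ0 _ hz.1) (hw0 _ hz.2)
  have hDi : ∀ ε : ℝ, 0 < ε → IntegrableOn (fun z : ℝ × ℝ => κ z.1 * w z.2 * D f (k / 2) ε (pt z.1 z.2)) (RC x₀ X a b) :=
    fun ε hε => (hκw.continuousOn.mul (hcont (cD hU hf hε))).integrableOn_compact RC_comp
  set μ := volume.restrict (RC x₀ X a b) with hμ
  set e : ℕ → ℝ := fun n => 1 / ((n : ℝ) + 1) with he
  have he0 : ∀ n, 0 < e n := fun n => by positivity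
  have hel : Tendsto e atTop (𝓝[>] 0) := by
    refine tendsto_nhdsWithin_iff.2 ⟨tendsto_one_div_add_atTop_nhds_zero_nat, Eventually.of_forall fun n => he0 n⟩
  -- almost everywhere convergence
  have hae : ∀ᵐ z : ℝ × ℝ ∂μ, Tendsto (fun ε => κ z.1 * w z.2 * D f (k / 2) ε (pt z.1 z.2)) (𝓝[>] 0)
      (𝓝 (κ z.1 * w z.2 * (k ^ 2 * Fk f k (pt z.1 z.2)))) := by
    filter_upwards [hz] with z hz
    exact (D_tendsto hz).const_mul _
  have hm : AEStronglyMeasurable (fun z : ℝ × ℝ => κ z.1 * w z.2 * (k ^ 2 * Fk f k (pt z.1 z.2))) μ :=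
    aestronglyMeasurable_of_tendsto_ae atTop (fun n => (hDi (e n) (he0 n)).aestronglyMeasurable)
      (hae.mono fun z hz => hz.comp hel)
  -- Fatou
  have hfin : Integrable (fun z : ℝ × ℝ => κ z.1 * w z.2 * (k ^ 2 * Fk f k (pt z.1 z.2))) μ := by
    refine ⟨hm, ?_⟩
    have h1 : ∫⁻ z, ‖κ z.1 * w z.2 * (k ^ 2 * Fk f k (pt z.1 z.2))‖ₑ ∂μ ≤
        liminf (fun n => ∫⁻ z, ‖κ z.1 * w z.2 * D f (k / 2) (e n) (pt z.1 z.2)‖ₑ ∂μ) atTop := by
      have h2 : ∫⁻ z, ‖κ z.1 * w z.2 * (k ^ 2 * Fk f k (pt z.1 z.2))‖ₑ ∂μ =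
          ∫⁻ z, liminf (fun n => ‖κ z.1 * w z.2 * D f (k / 2) (e n) (pt z.1 z.2)‖ₑ) atTop ∂μ := by
        refine lintegral_congr_ae (hae.mono fun z hz => ?_)
        exact ((hz.comp hel).enorm.liminf_eq).symm
      rw [h2]
      exact lintegral_liminf_le' fun n => (hDi (e n) (he0 n)).aestronglyMeasurable.enorm
    have h3 : ∀ n, ∫⁻ z, ‖κ z.1 * w z.2 * D f (k / 2) (e n) (pt z.1 z.2)‖ₑ ∂μ =
        ENNReal.ofReal (∫ z in RC x₀ X a b, κ z.1 * w z.2 * D f (k / 2) (e n) (pt z.1 z.2)) := by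
      intro n
      rw [ofReal_integral_eq_lintegral_ofReal (hDi (e n) (he0 n))]
      · refine lintegral_congr_ae ?_
        filter_upwards [ae_restrict_mem RC_meas] with z hz
        rw [Real.enorm_of_nonneg (mul_nonneg (hκw0 z hz) (D_nonneg (by linarith) (he0 n) _))]
      · filter_upwards [ae_restrict_mem RC_meas] with z hz
        exact mul_nonneg (hκw0 z hz) (D_nonneg (by linarith) (he0 n) _)
    simp_rw [h3] at h1
    have h4 : Tendsto (fun n => ENNReal.ofReal (∫ z in RC x₀ X a b, κ z.1 * w z.2 * D f (k / 2) (e n) (pt z.1 z.2)))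
        atTop (𝓝 (ENNReal.ofReal L)) := (ENNReal.continuous_ofReal.tendsto L).comp (hL.comp hel)
    rw [h4.liminf_eq] at h1
    exact lt_of_le_of_lt h1 ENNReal.ofReal_lt_top
  have hk2 : k ^ 2 ≠ 0 := by positivity
  have hF : IntegrableOn (fun z : ℝ × ℝ => κ z.1 * w z.2 * Fk f k (pt z.1 z.2)) (RC x₀ X a b) := by
    have := hfin.const_mul ((k ^ 2)⁻¹)
    refine this.congr (Eventually.of_forall fun z => ?_)
    simp only
    field_simp
  refine ⟨hF, ?_⟩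
  -- dominated convergence
  have hcE : ContinuousOn (fun s => E1 f s * (‖f s‖ ^ 2 + 1) ^ |k / 2 - 1|) U := by
    refine (cE hU hf).mul ?_
    exact ((((c0 hf).norm.pow 2).add continuousOn_const).rpow_const (fun s _ => Or.inr (abs_nonneg _)))
  have hdom : Integrable (fun z : ℝ × ℝ => (k ^ 2 + 2 * k) * (κ z.1 * w z.2 * Fk f k (pt z.1 z.2) +
      κ z.1 * w z.2 * (E1 f (pt z.1 z.2) * (‖f (pt z.1 z.2)‖ ^ 2 + 1) ^ |k / 2 - 1|))) μ := by
    refine (hF.add ?_).const_mul _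
    exact (hκw.continuousOn.mul (hcont hcE)).integrableOn_compact RC_comp
  have h5 : Tendsto (fun ε => ∫ z, κ z.1 * w z.2 * D f (k / 2) ε (pt z.1 z.2) ∂μ) (𝓝[>] 0)
      (𝓝 (∫ z, κ z.1 * w z.2 * (k ^ 2 * Fk f k (pt z.1 z.2)) ∂μ)) := by
    refine tendsto_integral_filter_of_dominated_convergence _ ?_ ?_ hdom hae
    · filter_upwards [self_mem_nhdsWithin] with ε hε
      exact (hDi ε hε).aestronglyMeasurable
    · have : ∀ᶠ ε : ℝ in 𝓝[>] 0, ε ≤ 1 :=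
        nhdsWithin_le_nhds (Iic_mem_nhds one_pos)
      filter_upwards [self_mem_nhdsWithin, this] with ε hε hε1
      filter_upwards [ae_restrict_mem RC_meas, hz] with z hz hz0
      rw [Real.norm_of_nonneg (mul_nonneg (hκw0 z hz) (D_nonneg (by linarith) hε _))]
      calc κ z.1 * w z.2 * D f (k / 2) ε (pt z.1 z.2) ≤ κ z.1 * w z.2 * ((k ^ 2 + 2 * k) *
            (Fk f k (pt z.1 z.2) + E1 f (pt z.1 z.2) * (‖f (pt z.1 z.2)‖ ^ 2 + 1) ^ |k / 2 - 1|)) :=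
            mul_le_mul_of_nonneg_left (D_le hk hε hε1 hz0) (hκw0 z hz)
        _ = _ := by ring
  have h6 := tendsto_nhds_unique h5 hL
  rw [← h6, ← integral_const_mul]
  refine integral_congr_ae (Eventually.of_forall fun z => ?_)
  simp only
  ring

end

end Pool.Agent.L7h13.AF
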