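import Mathlib

/-!
# Green's identities for `(|f|² + ε)^α` on a rectangle
-/

set_option autoImplicit false

open Complex MeasureTheory Set Filter Topology

namespace Pool.Agent.L7h13.AF

noncomputable section

/-- the point `x + i y` -/
def pt (x y : ℝ) : ℂ := (x : ℂ) + (y : ℂ) * I

@[simp] lemma pt_re (x y : ℝ) : (pt x y).re = x := by simp [pt]
@[simp] lemma pt_im (x y : ℝ) : (pt x y).im = y := by simp [pt]

lemma pt_cont : Continuous fun p : ℝ × ℝ => pt p.1 p.2 := by unfold pt; fun_prop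

lemma pt_dx (x y : ℝ) : HasDerivAt (fun x : ℝ => pt x y) 1 x := by
  unfold pt
  exact (Complex.ofRealCLM.hasDerivAt (x := x)).add_const _

lemma pt_dy (x y : ℝ) : HasDerivAt (fun y : ℝ => pt x y) I y := by
  unfold pt
  have h := ((Complex.ofRealCLM.hasDerivAt (x := y)).mul_const I).const_add (x : ℂ)
  simpa using h

/-- `|f|² + ε` -/
def h0 (f : ℂ → ℂ) (ε : ℝ) (s : ℂ) : ℝ := ‖f s‖ ^ 2 + ε
/-- `(|f|² + ε)^α` -/
def G (f : ℂ → ℂ) (α ε : ℝ) (s : ℂ) : ℝ := h0 f ε s ^ α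
def P (f : ℂ → ℂ) (s : ℂ) : ℝ := (deriv f s * (starRingEnd ℂ) (f s)).re
def Q (f : ℂ → ℂ) (s : ℂ) : ℝ := (deriv f s * (starRingEnd ℂ) (f s)).im
def R (f : ℂ → ℂ) (s : ℂ) : ℝ := (deriv (deriv f) s * (starRingEnd ℂ) (f s)).re
def E1 (f : ℂ → ℂ) (s : ℂ) : ℝ := ‖deriv f s‖ ^ 2
def Gx (f : ℂ → ℂ) (α ε : ℝ) (s : ℂ) : ℝ := 2 * α * h0 f ε s ^ (α - 1) * P f s
def Gy (f : ℂ → ℂ) (α ε : ℝ) (s : ℂ) : ℝ := -(2 * α * h0 f ε s ^ (α - 1) * Q f s)
def Gxx (f : ℂ → ℂ) (α ε : ℝ) (s : ℂ) : ℝ :=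
  4 * α * (α - 1) * h0 f ε s ^ (α - 2) * P f s ^ 2 + 2 * α * h0 f ε s ^ (α - 1) * (R f s + E1 f s)
def Gyy (f : ℂ → ℂ) (α ε : ℝ) (s : ℂ) : ℝ :=
  4 * α * (α - 1) * h0 f ε s ^ (α - 2) * Q f s ^ 2 - 2 * α * h0 f ε s ^ (α - 1) * (R f s - E1 f s)
/-- the Laplacian of `G` -/
def D (f : ℂ → ℂ) (α ε : ℝ) (s : ℂ) : ℝ :=
  4 * α * E1 f s * h0 f ε s ^ (α - 2) * (α * ‖f s‖ ^ 2 + ε)

variable {f : ℂ → ℂ} {α ε : ℝ}

lemma h0_pos (hε : 0 < ε) (s : ℂ) : 0 < h0 f ε s := by unfold h0; positivity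

lemma PQ (s : ℂ) : P f s ^ 2 + Q f s ^ 2 = E1 f s * ‖f s‖ ^ 2 := by
  unfold P Q E1
  rw [← mul_pow, ← Complex.norm_conj (f s), ← norm_mul, ← Complex.normSq_eq_norm_sq, Complex.normSq_apply]
  ring

lemma lap (hε : 0 < ε) (s : ℂ) : Gxx f α ε s + Gyy f α ε s = D f α ε s := by
  have h := h0_pos (f := f) hε s
  have e1 : h0 f ε s ^ (α - 1) = h0 f ε s ^ (α - 2) * h0 f ε s := by
    rw [← Real.rpow_add_one h.ne']; congr 1; ring
  have e2 := PQ (f := f) s
  unfold Gxx Gyy D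
  rw [e1]
  have e3 : h0 f ε s = ‖f s‖ ^ 2 + ε := rfl
  have e4 : P f s ^ 2 = E1 f s * ‖f s‖ ^ 2 - Q f s ^ 2 := by linarith
  rw [e4]
  generalize h0 f ε s ^ (α - 2) = H
  rw [e3]
  ring

lemma D_nonneg (hα : 0 < α) (hε : 0 < ε) (s : ℂ) : 0 ≤ D f α ε s := by
  have h := h0_pos (f := f) hε s
  unfold D E1
  have : 0 ≤ h0 f ε s ^ (α - 2) := (Real.rpow_pos_of_pos h _).le
  positivity

section deriv

variable {U : Set ℂ}

lemma d0 (hU : IsOpen U) (hf : DifferentiableOn ℂ f U) {s : ℂ} (hs : s ∈ U) : HasDerivAt f (deriv f s) s :=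
  (hf.differentiableAt (hU.mem_nhds hs)).hasDerivAt

lemma d1 (hU : IsOpen U) (hf : DifferentiableOn ℂ f U) {s : ℂ} (hs : s ∈ U) :
    HasDerivAt (deriv f) (deriv (deriv f) s) s := d0 hU (hf.deriv hU) hs

lemma fx (hU : IsOpen U) (hf : DifferentiableOn ℂ f U) {x y : ℝ} (hs : pt x y ∈ U) :
    HasDerivAt (fun x : ℝ => f (pt x y)) (deriv f (pt x y)) x := by
  exact ((d0 hU hf hs).comp x (pt_dx x y)).congr_deriv (mul_one _)

lemma fy (hU : IsOpen U) (hf : DifferentiableOn ℂ f U) {x y : ℝ} (hs : pt x y ∈ U) :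
    HasDerivAt (fun y : ℝ => f (pt x y)) (deriv f (pt x y) * I) y :=
  (d0 hU hf hs).comp y (pt_dy x y)

lemma hx (hU : IsOpen U) (hf : DifferentiableOn ℂ f U) {x y : ℝ} (hs : pt x y ∈ U) :
    HasDerivAt (fun x : ℝ => h0 f ε (pt x y)) (2 * P f (pt x y)) x := by
  refine ((fx hU hf hs).norm_sq.add_const ε).congr_deriv ?_
  unfold P
  rw [Complex.inner]

lemma hy (hU : IsOpen U) (hf : DifferentiableOn ℂ f U) {x y : ℝ} (hs : pt x y ∈ U) :
    HasDerivAt (fun y : ℝ => h0 f ε (pt x y)) (-(2 * Q f (pt x y))) y := by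
  refine ((fy hU hf hs).norm_sq.add_const ε).congr_deriv ?_
  unfold Q
  rw [Complex.inner]
  simp only [Complex.mul_re, Complex.mul_im, Complex.conj_re, Complex.conj_im, Complex.I_re, Complex.I_im]
  ring

lemma conjx (hU : IsOpen U) (hf : DifferentiableOn ℂ f U) {x y : ℝ} (hs : pt x y ∈ U) :
    HasDerivAt (fun x : ℝ => (starRingEnd ℂ) (f (pt x y))) ((starRingEnd ℂ) (deriv f (pt x y))) x :=
  (fx hU hf hs).star

lemma conjy (hU : IsOpen U) (hf : DifferentiableOn ℂ f U) {x y : ℝ} (hs : pt x y ∈ U) :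
    HasDerivAt (fun y : ℝ => (starRingEnd ℂ) (f (pt x y))) ((starRingEnd ℂ) (deriv f (pt x y) * I)) y :=
  (fy hU hf hs).star

lemma reD {g : ℝ → ℂ} {g' : ℂ} {x : ℝ} (h : HasDerivAt g g' x) : HasDerivAt (fun x => (g x).re) g'.re x := by
  exact (Complex.reCLM.hasFDerivAt (x := g x)).comp_hasDerivAt x h

lemma imD {g : ℝ → ℂ} {g' : ℂ} {x : ℝ} (h : HasDerivAt g g' x) : HasDerivAt (fun x => (g x).im) g'.im x := by
  exact (Complex.imCLM.hasFDerivAt (x := g x)).comp_hasDerivAt x h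

lemma Px (hU : IsOpen U) (hf : DifferentiableOn ℂ f U) {x y : ℝ} (hs : pt x y ∈ U) :
    HasDerivAt (fun x : ℝ => P f (pt x y)) (R f (pt x y) + E1 f (pt x y)) x := by
  refine (reD ((fx hU (hf.deriv hU) hs).mul (conjx hU hf hs))).congr_deriv ?_
  unfold R E1
  rw [Complex.add_re, Complex.mul_conj, ← Complex.normSq_eq_norm_sq]
  simp

lemma Qy (hU : IsOpen U) (hf : DifferentiableOn ℂ f U) {x y : ℝ} (hs : pt x y ∈ U) :
    HasDerivAt (fun y : ℝ => Q f (pt x y)) (R f (pt x y) - E1 f (pt x y)) y := by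
  refine (imD ((fy hU (hf.deriv hU) hs).mul (conjy hU hf hs))).congr_deriv ?_
  unfold R E1
  rw [Complex.add_im, ← Complex.normSq_eq_norm_sq, Complex.normSq_apply]
  simp only [Complex.mul_re, Complex.mul_im, Complex.conj_re, Complex.conj_im, Complex.I_re, Complex.I_im]
  ring

lemma GxD (hU : IsOpen U) (hf : DifferentiableOn ℂ f U) (hε : 0 < ε) {x y : ℝ} (hs : pt x y ∈ U) :
    HasDerivAt (fun x : ℝ => G f α ε (pt x y)) (Gx f α ε (pt x y)) x := by
  refine ((hx (ε := ε) hU hf hs).rpow_const (p := α) (Or.inl (h0_pos hε _).ne')).congr_deriv ?_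
  unfold Gx
  ring

lemma GyD (hU : IsOpen U) (hf : DifferentiableOn ℂ f U) (hε : 0 < ε) {x y : ℝ} (hs : pt x y ∈ U) :
    HasDerivAt (fun y : ℝ => G f α ε (pt x y)) (Gy f α ε (pt x y)) y := by
  refine ((hy (ε := ε) hU hf hs).rpow_const (p := α) (Or.inl (h0_pos hε _).ne')).congr_deriv ?_
  unfold Gy
  ring

lemma GxxD (hU : IsOpen U) (hf : DifferentiableOn ℂ f U) (hε : 0 < ε) {x y : ℝ} (hs : pt x y ∈ U) :
    HasDerivAt (fun x : ℝ => Gx f α ε (pt x y)) (Gxx f α ε (pt x y)) x := by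
  have h1 := (hx (ε := ε) hU hf hs).rpow_const (p := α - 1) (Or.inl (h0_pos hε _).ne')
  refine ((h1.const_mul (2 * α)).mul (Px hU hf hs)).congr_deriv ?_
  unfold Gxx
  have e : α - 1 - 1 = α - 2 := by ring
  rw [e]
  ring

lemma GyyD (hU : IsOpen U) (hf : DifferentiableOn ℂ f U) (hε : 0 < ε) {x y : ℝ} (hs : pt x y ∈ U) :
    HasDerivAt (fun y : ℝ => Gy f α ε (pt x y)) (Gyy f α ε (pt x y)) y := by
  have h1 := (hy (ε := ε) hU hf hs).rpow_const (p := α - 1) (Or.inl (h0_pos hε _).ne')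
  refine ((h1.const_mul (2 * α)).mul (Qy hU hf hs)).neg.congr_deriv ?_
  unfold Gyy
  have e : α - 1 - 1 = α - 2 := by ring
  rw [e]
  ring

/-! continuity -/

lemma c0 (hf : DifferentiableOn ℂ f U) : ContinuousOn f U := hf.continuousOn
lemma c1 (hU : IsOpen U) (hf : DifferentiableOn ℂ f U) : ContinuousOn (deriv f) U := (hf.deriv hU).continuousOn
lemma c2 (hU : IsOpen U) (hf : DifferentiableOn ℂ f U) : ContinuousOn (deriv (deriv f)) U :=
  ((hf.deriv hU).deriv hU).continuousOn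

lemma h0_c (hf : DifferentiableOn ℂ f U) : ContinuousOn (h0 f ε) U := by
  unfold h0; exact ((c0 hf).norm.pow 2).add continuousOn_const

lemma h0r_c (hf : DifferentiableOn ℂ f U) (hε : 0 < ε) (β : ℝ) : ContinuousOn (fun s => h0 f ε s ^ β) U :=
  (h0_c hf).rpow_const (fun s _ => Or.inl (h0_pos hε s).ne')

lemma cP (hU : IsOpen U) (hf : DifferentiableOn ℂ f U) : ContinuousOn (P f) U := by
  unfold P
  exact Complex.continuous_re.comp_continuousOn ((c1 hU hf).mul (Complex.continuous_conj.comp_continuousOn (c0 hf)))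
lemma cQ (hU : IsOpen U) (hf : DifferentiableOn ℂ f U) : ContinuousOn (Q f) U := by
  unfold Q
  exact Complex.continuous_im.comp_continuousOn ((c1 hU hf).mul (Complex.continuous_conj.comp_continuousOn (c0 hf)))
lemma cR (hU : IsOpen U) (hf : DifferentiableOn ℂ f U) : ContinuousOn (R f) U := by
  unfold R
  exact Complex.continuous_re.comp_continuousOn ((c2 hU hf).mul (Complex.continuous_conj.comp_continuousOn (c0 hf)))
lemma cE (hU : IsOpen U) (hf : DifferentiableOn ℂ f U) : ContinuousOn (E1 f) U := by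
  unfold E1
  exact (c1 hU hf).norm.pow 2
lemma cG (hf : DifferentiableOn ℂ f U) (hε : 0 < ε) : ContinuousOn (G f α ε) U := h0r_c hf hε α
lemma cGx (hU : IsOpen U) (hf : DifferentiableOn ℂ f U) (hε : 0 < ε) : ContinuousOn (Gx f α ε) U := by
  unfold Gx
  exact ((h0r_c hf hε (α - 1)).const_smul (2 * α)).mul (cP hU hf)
lemma cGy (hU : IsOpen U) (hf : DifferentiableOn ℂ f U) (hε : 0 < ε) : ContinuousOn (Gy f α ε) U := by
  unfold Gy
  exact (((h0r_c hf hε (α - 1)).const_smul (2 * α)).mul (cQ hU hf)).neg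
lemma cGxx (hU : IsOpen U) (hf : DifferentiableOn ℂ f U) (hε : 0 < ε) : ContinuousOn (Gxx f α ε) U := by
  unfold Gxx
  exact (((h0r_c hf hε (α - 2)).const_smul (4 * α * (α - 1))).mul ((cP hU hf).pow 2)).add
    (((h0r_c hf hε (α - 1)).const_smul (2 * α)).mul ((cR hU hf).add (cE hU hf)))
lemma cGyy (hU : IsOpen U) (hf : DifferentiableOn ℂ f U) (hε : 0 < ε) : ContinuousOn (Gyy f α ε) U := by
  unfold Gyy
  exact (((h0r_c hf hε (α - 2)).const_smul (4 * α * (α - 1))).mul ((cQ hU hf).pow 2)).sub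
    (((h0r_c hf hε (α - 1)).const_smul (2 * α)).mul ((cR hU hf).sub (cE hU hf)))
lemma cD (hU : IsOpen U) (hf : DifferentiableOn ℂ f U) (hε : 0 < ε) : ContinuousOn (D f α ε) U := by
  unfold D
  exact (((cE hU hf).const_smul (4 * α)).mul (h0r_c hf hε (α - 2))).mul
    (((c0 hf).norm.pow 2).const_smul α |>.add continuousOn_const)

/-- weights on `[a, b]` with their derivatives -/
structure Wt (w w1 w2 : ℝ → ℝ) (a b : ℝ) : Prop where
  d1 : ∀ t, HasDerivAt w (w1 t) t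
  d2 : ∀ t, HasDerivAt w1 (w2 t) t
  c2 : Continuous w2
  wa : w a = 0
  wb : w b = 0
  w1a : w1 a = 0
  w1b : w1 b = 0

variable {w w1 w2 : ℝ → ℝ} {a b : ℝ}

lemma Wt.c (h : Wt w w1 w2 a b) : Continuous w := continuous_iff_continuousAt.2 fun t => (h.d1 t).continuousAt
lemma Wt.c1 (h : Wt w w1 w2 a b) : Continuous w1 := continuous_iff_continuousAt.2 fun t => (h.d2 t).continuousAt

/-- integration by parts in `y` -/
lemma parts (hU : IsOpen U) (hf : DifferentiableOn ℂ f U) (hε : 0 < ε) (h : Wt w w1 w2 a b) (hab : a ≤ b) {x : ℝ}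
    (hx : ∀ y ∈ Icc a b, pt x y ∈ U) :
    ∫ y in a..b, w y * Gyy f α ε (pt x y) = ∫ y in a..b, w2 y * G f α ε (pt x y) := by
  have hpy : Continuous fun y : ℝ => pt x y := pt_cont.comp (by fun_prop : Continuous fun y : ℝ => (x, y))
  have hm : MapsTo (fun y : ℝ => pt x y) (uIcc a b) U := by
    intro y hy
    rw [uIcc_of_le hab] at hy
    exact hx y hy
  have e1 := intervalIntegral.integral_mul_deriv_eq_deriv_mul (a := a) (b := b) (u := w) (u' := w1)
    (v := fun y => Gy f α ε (pt x y)) (v' := fun y => Gyy f α ε (pt x y)) (fun y _ => h.d1 y)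
    (fun y hy => GyyD hU hf hε (hm hy)) (h.c1.intervalIntegrable a b)
    (((cGyy hU hf hε).comp hpy.continuousOn hm).intervalIntegrable)
  have e2 := intervalIntegral.integral_mul_deriv_eq_deriv_mul (a := a) (b := b) (u := w1) (u' := w2)
    (v := fun y => G f α ε (pt x y)) (v' := fun y => Gy f α ε (pt x y)) (fun y _ => h.d2 y)
    (fun y hy => GyD hU hf hε (hm hy)) (h.c2.intervalIntegrable a b)
    (((cGy hU hf hε).comp hpy.continuousOn hm).intervalIntegrable)
  rw [e1, e2, h.wa, h.wb, h.w1a, h.w1b]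
  ring

/-- Green's identity on a rectangle, with an affine kernel -/
theorem green (hU : IsOpen U) (hf : DifferentiableOn ℂ f U) (hε : 0 < ε) (h : Wt w w1 w2 a b) (hab : a ≤ b)
    {x₀ X : ℝ} (hX : x₀ ≤ X) (hR : ∀ x ∈ Icc x₀ X, ∀ y ∈ Icc a b, pt x y ∈ U) (p q : ℝ) :
    ∫ y in a..b, w y * ((p + q * (X - x₀)) * Gx f α ε (pt X y) - q * G f α ε (pt X y) -
      p * Gx f α ε (pt x₀ y) + q * G f α ε (pt x₀ y)) =
    ∫ x in x₀..X, ∫ y in a..b, (p + q * (x - x₀)) * (w y * D f α ε (pt x y) - w2 y * G f α ε (pt x y)) := by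
  have hRU : ∀ z ∈ uIcc x₀ X ×ˢ uIcc a b, pt z.1 z.2 ∈ U := by
    rintro ⟨x, y⟩ ⟨h1, h2⟩
    rw [uIcc_of_le hX] at h1
    rw [uIcc_of_le hab] at h2
    exact hR x h1 y h2
  have hcont : ∀ {F : ℂ → ℝ}, ContinuousOn F U → ContinuousOn (fun z : ℝ × ℝ => F (pt z.1 z.2)) (uIcc x₀ X ×ˢ uIcc a b) :=
    fun {F} hF => hF.comp pt_cont.continuousOn hRU
  have hpx : ∀ y : ℝ, Continuous fun x : ℝ => pt x y := fun y =>
    pt_cont.comp (by fun_prop : Continuous fun x : ℝ => (x, y))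
  -- the integral in `x`
  have e1 : ∀ y ∈ Icc a b, ∫ x in x₀..X, (p + q * (x - x₀)) * Gxx f α ε (pt x y) =
      (p + q * (X - x₀)) * Gx f α ε (pt X y) - q * G f α ε (pt X y) -
      p * Gx f α ε (pt x₀ y) + q * G f α ε (pt x₀ y) := by
    intro y hy
    have hm : MapsTo (fun x : ℝ => pt x y) (uIcc x₀ X) U := by
      intro x hx
      rw [uIcc_of_le hX] at hx
      exact hR x hx y hy
    have f1 := intervalIntegral.integral_mul_deriv_eq_deriv_mul (a := x₀) (b := X)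
      (u := fun x => p + q * (x - x₀)) (u' := fun _ => q)
      (v := fun x => Gx f α ε (pt x y)) (v' := fun x => Gxx f α ε (pt x y))
      (fun x _ => by
        have := (((hasDerivAt_id x).sub_const x₀).const_mul q).const_add p
        simpa using this)
      (fun x hx => GxxD hU hf hε (hm hx)) (continuous_const.intervalIntegrable _ _)
      (((cGxx hU hf hε).comp (hpx y).continuousOn hm).intervalIntegrable)
    have f2 := intervalIntegral.integral_eq_sub_of_hasDerivAt (a := x₀) (b := X)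
      (f := fun x => G f α ε (pt x y)) (f' := fun x => Gx f α ε (pt x y)) (fun x hx => GxD hU hf hε (hm hx))
      (((cGx hU hf hε).comp (hpx y).continuousOn hm).intervalIntegrable)
    rw [f1, intervalIntegral.integral_const_mul, f2]
    ring
  have e2 : ∫ y in a..b, w y * ((p + q * (X - x₀)) * Gx f α ε (pt X y) - q * G f α ε (pt X y) -
      p * Gx f α ε (pt x₀ y) + q * G f α ε (pt x₀ y)) =
      ∫ y in a..b, ∫ x in x₀..X, w y * ((p + q * (x - x₀)) * Gxx f α ε (pt x y)) := by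
    refine intervalIntegral.integral_congr fun y hy => ?_
    rw [uIcc_of_le hab] at hy
    rw [intervalIntegral.integral_const_mul, e1 y hy]
  rw [e2]
  -- swap
  have hint : ContinuousOn (fun z : ℝ × ℝ => w z.2 * ((p + q * (z.1 - x₀)) * Gxx f α ε (pt z.1 z.2)))
      (uIcc x₀ X ×ˢ uIcc a b) := by
    refine ContinuousOn.mul ?_ (ContinuousOn.mul ?_ (hcont (cGxx hU hf hε)))
    · exact (h.c.comp continuous_snd).continuousOn
    · exact Continuous.continuousOn (by fun_prop)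
  have hII : IntegrableOn (fun z : ℝ × ℝ => w z.2 * ((p + q * (z.1 - x₀)) * Gxx f α ε (pt z.1 z.2)))
      (uIoc x₀ X ×ˢ uIoc a b) (volume.prod volume) := by
    refine (hint.integrableOn_compact (isCompact_uIcc.prod isCompact_uIcc)).mono_set ?_
    exact prod_mono uIoc_subset_uIcc uIoc_subset_uIcc
  rw [← intervalIntegral_intervalIntegral_swap (F := fun x y => w y * ((p + q * (x - x₀)) * Gxx f α ε (pt x y)))]
  · refine intervalIntegral.integral_congr fun x hx => ?_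
    rw [uIcc_of_le hX] at hx
    have hm : MapsTo (fun y : ℝ => pt x y) (uIcc a b) U := by
      intro y hy
      rw [uIcc_of_le hab] at hy
      exact hR x hx y hy
    have hpy : Continuous fun y : ℝ => pt x y := pt_cont.comp (by fun_prop : Continuous fun y : ℝ => (x, y))
    have i1 : IntervalIntegrable (fun y => w y * D f α ε (pt x y)) volume a b :=
      ((h.c.continuousOn).mul ((cD hU hf hε).comp hpy.continuousOn hm)).intervalIntegrable
    have i2 : IntervalIntegrable (fun y => w2 y * G f α ε (pt x y)) volume a b :=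
      ((h.c2.continuousOn).mul ((cG hf hε).comp hpy.continuousOn hm)).intervalIntegrable
    have i3 : IntervalIntegrable (fun y => w y * Gyy f α ε (pt x y)) volume a b :=
      ((h.c.continuousOn).mul ((cGyy hU hf hε).comp hpy.continuousOn hm)).intervalIntegrable
    rw [intervalIntegral.integral_const_mul, intervalIntegral.integral_sub i1 i2,
      ← parts hU hf hε h hab (fun y hy => hR x hx y hy), ← intervalIntegral.integral_sub i1 i3,
      ← intervalIntegral.integral_const_mul]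
    refine intervalIntegral.integral_congr fun y _ => ?_
    rw [← lap hε]
    ring
  · exact hII

end deriv

end

end Pool.Agent.L7h13.AF
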