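import Pool.Agent.L7h13.AF.Asy

/-!
# The identities for weights of any sign, in the half plane
-/

set_option autoImplicit false

open Complex MeasureTheory Set Filter Topology

namespace Pool.Agent.L7h13.AF

open Pool.Agent.W188.QS (cp XX lam)

noncomputable section

variable {k : ℝ} {w w1 w2 v v1 v2 : ℝ → ℝ} {a b X : ℝ}

lemma Wt.add (h : Wt w w1 w2 a b) (h' : Wt v v1 v2 a b) :
    Wt (fun t => w t + v t) (fun t => w1 t + v1 t) (fun t => w2 t + v2 t) a b :=
  ⟨fun t => (h.d1 t).add (h'.d1 t), fun t => (h.d2 t).add (h'.d2 t), h.c2.add h'.c2, by rw [h.wa, h'.wa, add_zero],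
    by rw [h.wb, h'.wb, add_zero], by rw [h.w1a, h'.w1a, add_zero], by rw [h.w1b, h'.w1b, add_zero]⟩

lemma Wt.smul (h : Wt w w1 w2 a b) (c : ℝ) : Wt (fun t => c * w t) (fun t => c * w1 t) (fun t => c * w2 t) a b :=
  ⟨fun t => (h.d1 t).const_mul c, fun t => (h.d2 t).const_mul c, continuous_const.mul h.c2, by rw [h.wa, mul_zero],
    by rw [h.wb, mul_zero], by rw [h.w1a, mul_zero], by rw [h.w1b, mul_zero]⟩

/-- the identity -/
def Idt (k : ℝ) (w w2 : ℝ → ℝ) (a b p q : ℝ) : Prop :=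
    IntegrableOn (fun z : ℝ × ℝ => (p + q * (z.1 - 1 / 2)) * w z.2 * Fk riemannZeta k (pt z.1 z.2)) (SI a b) ∧
    IntegrableOn (fun z : ℝ × ℝ => (p + q * (z.1 - 1 / 2)) * w2 z.2 * (‖riemannZeta (pt z.1 z.2)‖ ^ k - 1)) (SI a b) ∧
    k ^ 2 * ∫ z in SI a b, (p + q * (z.1 - 1 / 2)) * w z.2 * Fk riemannZeta k (pt z.1 z.2) =
      L0 w k a b p q +
        ∫ z in SI a b, (p + q * (z.1 - 1 / 2)) * w2 z.2 * (‖riemannZeta (pt z.1 z.2)‖ ^ k - 1)

lemma L0_ii (hk : 0 < k) (ha : 1 < a) (hab : a ≤ b) (hw : Continuous w) (p q : ℝ) :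
    IntervalIntegrable (fun y => w y * (p * (k / 2 * lam y * ‖riemannZeta (pt (1 / 2) y)‖ ^ k) +
    q * (‖riemannZeta (pt (1 / 2) y)‖ ^ k - 1))) volume a b := by
  refine ContinuousOn.intervalIntegrable ?_
  rw [uIcc_of_le hab]
  have h1 : ContinuousOn lam (Icc a b) := lam_cont.mono fun y hy => lt_of_lt_of_le ha hy.1
  have h2 : ContinuousOn (fun y => ‖riemannZeta (pt (1 / 2) y)‖ ^ k) (Icc a b) := (zl_cont hk).continuousOn
  exact hw.continuousOn.mul ((continuousOn_const.mul ((continuousOn_const.mul h1).mul h2)).add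
    (continuousOn_const.mul (h2.sub continuousOn_const)))

lemma Idt.sub (hk : 0 < k) (ha : 1 < a) (hab : a ≤ b) {p q c : ℝ} (hw : Continuous w) (hv : Continuous v)
    (h : Idt k (fun t => w t + c * v t) (fun t => w2 t + c * v2 t) a b p q) (h' : Idt k v v2 a b p q) :
    Idt k w w2 a b p q := by
  obtain ⟨h1, h2, h3⟩ := h
  obtain ⟨h1', h2', h3'⟩ := h'
  have i1 : IntegrableOn (fun z : ℝ × ℝ => (p + q * (z.1 - 1 / 2)) * w z.2 * Fk riemannZeta k (pt z.1 z.2)) (SI a b) := by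
    refine (h1.sub (h1'.const_mul c)).congr (Eventually.of_forall fun z => ?_)
    simp only [Pi.sub_apply]; ring
  have i2 : IntegrableOn (fun z : ℝ × ℝ => (p + q * (z.1 - 1 / 2)) * w2 z.2 * (‖riemannZeta (pt z.1 z.2)‖ ^ k - 1)) (SI a b) := by
    refine (h2.sub (h2'.const_mul c)).congr (Eventually.of_forall fun z => ?_)
    simp only [Pi.sub_apply]; ring
  refine ⟨i1, i2, ?_⟩
  have e1 : ∫ z in SI a b, (p + q * (z.1 - 1 / 2)) * w z.2 * Fk riemannZeta k (pt z.1 z.2) =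
      (∫ z in SI a b, (p + q * (z.1 - 1 / 2)) * (w z.2 + c * v z.2) * Fk riemannZeta k (pt z.1 z.2)) -
      c * ∫ z in SI a b, (p + q * (z.1 - 1 / 2)) * v z.2 * Fk riemannZeta k (pt z.1 z.2) := by
    rw [← integral_const_mul, ← integral_sub h1 (h1'.const_mul c)]
    refine integral_congr_ae (Eventually.of_forall fun z => ?_)
    simp only; ring
  have e2 : ∫ z in SI a b, (p + q * (z.1 - 1 / 2)) * w2 z.2 * (‖riemannZeta (pt z.1 z.2)‖ ^ k - 1) =
      (∫ z in SI a b, (p + q * (z.1 - 1 / 2)) * (w2 z.2 + c * v2 z.2) * (‖riemannZeta (pt z.1 z.2)‖ ^ k - 1)) -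
      c * ∫ z in SI a b, (p + q * (z.1 - 1 / 2)) * v2 z.2 * (‖riemannZeta (pt z.1 z.2)‖ ^ k - 1) := by
    rw [← integral_const_mul, ← integral_sub h2 (h2'.const_mul c)]
    refine integral_congr_ae (Eventually.of_forall fun z => ?_)
    simp only; ring
  have e3 : L0 w k a b p q = L0 (fun t => w t + c * v t) k a b p q - c * L0 v k a b p q := by
    have e4 := intervalIntegral.integral_sub (L0_ii hk ha hab (hw.add (continuous_const.mul hv) : Continuous fun t => w t + c * v t) p q)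
      ((L0_ii hk ha hab hv p q).const_mul c)
    rw [intervalIntegral.integral_const_mul] at e4
    unfold L0
    refine Eq.trans ?_ e4
    refine intervalIntegral.integral_congr fun y _ => ?_
    show w y * (p * (k / 2 * lam y * ‖riemannZeta (pt (1 / 2) y)‖ ^ k) + q * (‖riemannZeta (pt (1 / 2) y)‖ ^ k - 1)) =
      (w y + c * v y) * (p * (k / 2 * lam y * ‖riemannZeta (pt (1 / 2) y)‖ ^ k) + q * (‖riemannZeta (pt (1 / 2) y)‖ ^ k - 1)) -
      c * (v y * (p * (k / 2 * lam y * ‖riemannZeta (pt (1 / 2) y)‖ ^ k) + q * (‖riemannZeta (pt (1 / 2) y)‖ ^ k - 1)))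
    ring
  rw [e1, e2, e3]
  linear_combination h3 - c * h3'

/-- the identity for `C²` functions with support in `[a, b]`, on the larger interval `[(1+a)/2, b+1]` -/
theorem idt_signed (hk : 0 < k) (hd1 : ∀ t, HasDerivAt w (w1 t) t) (hd2 : ∀ t, HasDerivAt w1 (w2 t) t) (hc2 : Continuous w2)
    (ha : 1 < a) (hab : a ≤ b) (hs : ∀ t, t ∉ Icc a b → w t = 0) {p q : ℝ} (hp : 0 ≤ p) (hq : 0 ≤ q) :
    Idt k w w2 ((1 + a) / 2) (b + 1) p q := by
  have hw : Continuous w := continuous_iff_continuousAt.2 fun t => (hd1 t).continuousAt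
  have hout : ∀ t, t ∉ Icc a b → w1 t = 0 := by
    intro t ht
    have : w =ᶠ[𝓝 t] fun _ => (0:ℝ) := by
      filter_upwards [isClosed_Icc.isOpen_compl.mem_nhds ht] with u hu
      exact hs u hu
    exact (hd1 t).unique ((hasDerivAt_const t (0:ℝ)).congr_of_eventuallyEq this)
  have n1 : (1 + a) / 2 ∉ Icc a b := fun h => by have := h.1; linarith
  have n2 : b + 1 ∉ Icc a b := fun h => by have := h.2; linarith
  have hW : Wt w w1 w2 ((1 + a) / 2) (b + 1) := ⟨hd1, hd2, hc2, hs _ n1, hs _ n2, hout _ n1, hout _ n2⟩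
  obtain ⟨M, hM⟩ := (isCompact_Icc (a := a) (b := b)).exists_bound_of_continuousOn hw.continuousOn
  obtain ⟨v, v1, v2, hv, hv0, -, hv1⟩ := exists_wt (a' := (1 + a) / 2) (a := a) (b := b) (b' := b + 1)
    (by linarith) hab (by linarith)
  have hab' : (1 + a) / 2 ≤ b + 1 := by linarith
  have ha' : 1 < (1 + a) / 2 := by linarith
  have hsum := hW.add (hv.smul (max M 0))
  refine Idt.sub (c := max M 0) hk ha' hab' hw hv.c ?_ (inf_id hk hv (fun y _ => hv0 y) ha' hab' hp hq)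
  refine inf_id hk hsum (fun y _ => ?_) ha' hab' hp hq
  show 0 ≤ w y + max M 0 * v y
  by_cases hy : y ∈ Icc a b
  · rw [hv1 y hy, mul_one]
    have := (abs_le.1 (hM y hy)).1
    have := le_max_left M 0
    linarith
  · rw [hs y hy, zero_add]
    exact mul_nonneg (le_max_right _ _) (hv0 y)

/-- the half plane -/
def HP : Set (ℝ × ℝ) := {z | 1 / 2 < z.1}

lemma HP_meas : MeasurableSet HP := measurableSet_lt measurable_const measurable_fst

lemma null_line : volume {z : ℝ × ℝ | z.1 = 1 / 2} = 0 := by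
  have : {z : ℝ × ℝ | z.1 = 1 / 2} = ({1 / 2} : Set ℝ) ×ˢ univ := by ext z; simp
  rw [this, Measure.volume_eq_prod, Measure.prod_prod]
  simp

/-- from the half strip to the half plane -/
lemma SI_HP {F : ℝ × ℝ → ℝ} (hF : ∀ z : ℝ × ℝ, z.2 ∉ Icc a b → F z = 0) (hi : IntegrableOn F (SI a b)) :
    IntegrableOn F HP ∧ ∫ z in HP, F z = ∫ z in SI a b, F z := by
  set S' : Set (ℝ × ℝ) := Ioi (1 / 2) ×ˢ Icc a b with hS'
  have hae : (S' : Set (ℝ × ℝ)) =ᵐ[volume] SI a b := by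
    refine (ae_eq_set.2 ⟨?_, ?_⟩)
    · have : S' \ SI a b = ∅ := by
        rw [sdiff_eq_empty]
        exact Set.prod_mono Ioi_subset_Ici_self (subset_refl _)
      rw [this]; simp
    · refine measure_mono_null ?_ null_line
      rintro z ⟨h1, h2⟩
      by_contra h3
      refine h2 ⟨?_, h1.2⟩
      exact lt_of_le_of_ne h1.1 (Ne.symm h3)
  have hm : MeasurableSet S' := measurableSet_Ioi.prod measurableSet_Icc
  have hsub : S' ⊆ HP := fun z hz => hz.1
  have hz : ∀ z ∈ HP \ S', F z = 0 := by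
    rintro z ⟨h1, h2⟩
    exact hF z fun h => h2 ⟨h1, h⟩
  have e1 : ∫ z in SI a b, F z = ∫ z in S', F z := (setIntegral_congr_set hae).symm
  have i1 : IntegrableOn F S' := by
    rw [IntegrableOn, Measure.restrict_congr_set hae]; exact hi
  constructor
  · exact i1.of_forall_sdiff_eq_zero HP_meas hz
  · rw [e1]
    exact setIntegral_eq_of_subset_of_forall_sdiff_eq_zero HP_meas hsub hz

end

end Pool.Agent.L7h13.AF
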