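import Pool.Agent.L7h13.AF.Far
import Pool.Agent.W338.QS.Line

/-!
# The identities for zeta on a finite rectangle with left side on the critical line
-/

set_option autoImplicit false

open Complex MeasureTheory Set Filter Topology

namespace Pool.Agent.L7h13.AF

open Pool.Agent.W188.QS (cp XX lam)

noncomputable section

/-- the upper half plane -/
def UU : Set ℂ := {s : ℂ | 0 < s.im}

lemma UU_open : IsOpen UU := isOpen_lt continuous_const Complex.continuous_im

lemma UU_diff : DifferentiableOn ℂ riemannZeta UU := by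
  intro s hs
  refine (differentiableAt_riemannZeta ?_).differentiableWithinAt
  rintro rfl
  simp [UU] at hs

variable {k : ℝ} {w w1 w2 : ℝ → ℝ} {a b X : ℝ}

lemma RC_UU {x₀ : ℝ} (ha : 0 < a) : ∀ x ∈ Icc x₀ X, ∀ y ∈ Icc a b, pt x y ∈ UU := by
  intro x _ y hy
  simp only [UU, mem_ofPred_eq, pt_im]
  linarith [hy.1]

/-- the zeros are a null set -/
lemma zeros_null : {z : ℝ × ℝ | riemannZeta (pt z.1 z.2) = 0}.Countable := by
  have hz : riemannZetaZeros.Countable := by
    have h2 : riemannZetaZeros = ⋃ m : ℕ, (Metric.closedBall (0:ℂ) m ∩ riemannZetaZeros) := by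
      ext z
      simp only [Set.mem_iUnion, Set.mem_inter_iff, Metric.mem_closedBall, dist_zero_right]
      constructor
      · intro hz
        obtain ⟨m, hm⟩ := exists_nat_ge ‖z‖
        exact ⟨m, hm, hz⟩
      · rintro ⟨m, -, hz⟩
        exact hz
    rw [h2]
    exact Set.countable_iUnion fun m => ((isCompact_closedBall (0:ℂ) m).inter_riemannZetaZeros_finite).countable
  have h3 : {z : ℝ × ℝ | riemannZeta (pt z.1 z.2) = 0} ⊆ (fun z : ℝ × ℝ => pt z.1 z.2) ⁻¹' riemannZetaZeros :=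
    fun z hz => hz
  refine Set.Countable.mono h3 (hz.preimage_of_injOn fun z _ u _ hzu => ?_)
  have h4 := congrArg Complex.im hzu
  have h5 := congrArg Complex.re hzu
  simp only [pt_im, pt_re] at h4 h5
  exact Prod.ext h5 h4

lemma zeros_ae (S : Set (ℝ × ℝ)) : ∀ᵐ z : ℝ × ℝ ∂(volume.restrict S), riemannZeta (pt z.1 z.2) ≠ 0 := by
  refine ae_restrict_of_ae ?_
  have : volume {z : ℝ × ℝ | riemannZeta (pt z.1 z.2) = 0} = 0 := zeros_null.measure_zero _
  exact compl_mem_ae_iff.2 this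

lemma cp_eq (t : ℝ) : cp t = pt (1 / 2) t := by unfold cp pt; push_cast; ring

/-- the flux through the critical line -/
lemma flux {t : ℝ} (ht : 1 < t) :
    P riemannZeta (pt (1 / 2) t) = -(lam t / 2) * ‖riemannZeta (pt (1 / 2) t)‖ ^ 2 := by
  have hd : HasDerivAt (fun t : ℝ => riemannZeta (cp t)) (deriv riemannZeta (cp t) * I) t := by
    have h1 : cp t ∈ UU := by rw [cp_eq]; simp only [UU, mem_ofPred_eq, pt_im]; linarith
    exact (d0 UU_open UU_diff h1).comp t (Pool.Agent.W338.QS.hasDerivAt_cp t)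
  have hX : HasDerivAt (fun t : ℝ => XX (cp t)) (XX (cp t) * (lam t : ℂ) * I) t := by
    have h0 : 0 < (cp t).re := by rw [Pool.Agent.W338.QS.cp_re]; norm_num
    have h1 : 1 ≤ (cp t).im := by rw [Pool.Agent.W338.QS.cp_im]; exact ht.le
    have h2 := H345.Chi.hasDerivAt_XX h0 h1
    rw [← Pool.Agent.W338.QS.ld h0 h1, Pool.Agent.W338.QS.ld_line ht.le] at h2
    exact h2.comp t (Pool.Agent.W338.QS.hasDerivAt_cp t)
  have h1 : HasDerivAt (fun t : ℝ => (starRingEnd ℂ) (riemannZeta (cp t)))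
      ((starRingEnd ℂ) (deriv riemannZeta (cp t) * I)) t := hd.star
  have h2 := hX.mul hd
  have h3 : (fun t : ℝ => (starRingEnd ℂ) (riemannZeta (cp t))) =ᶠ[𝓝 t] (fun t : ℝ => XX (cp t)) * (fun t : ℝ => riemannZeta (cp t)) := by
    filter_upwards [Ioi_mem_nhds ht] with u hu
    exact Pool.Agent.W188.Ray.fe_line (le_of_lt hu)
  have h4 := (h1.congr_of_eventuallyEq h3.symm).unique h2
  have h5 : (starRingEnd ℂ) (riemannZeta (cp t)) = XX (cp t) * riemannZeta (cp t) := Pool.Agent.W188.Ray.fe_line ht.le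
  rw [← cp_eq]
  unfold P
  set z := riemannZeta (cp t) with hz
  set d := deriv riemannZeta (cp t) with hdd
  rw [map_mul, Complex.conj_I] at h4
  -- `-conj d = XX (lam z + d)`
  have h6 : -(starRingEnd ℂ) d = XX (cp t) * ((lam t : ℂ) * z + d) := by
    have := congrArg (fun u => u * (-I)) h4
    have e1 : (starRingEnd ℂ) d * -I * -I = -(starRingEnd ℂ) d := by
      rw [mul_assoc, neg_mul_neg, Complex.I_mul_I]; ring
    have e2 : (XX (cp t) * (lam t : ℂ) * I * z + XX (cp t) * (d * I)) * -I = XX (cp t) * ((lam t : ℂ) * z + d) := by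
      have : (XX (cp t) * (lam t : ℂ) * I * z + XX (cp t) * (d * I)) * -I =
        -(I * I) * (XX (cp t) * ((lam t : ℂ) * z + d)) := by ring
      rw [this, Complex.I_mul_I]; ring
    rw [e1, e2] at this
    exact this
  have h7 : -((starRingEnd ℂ) d * z) = (lam t : ℂ) * (z * (starRingEnd ℂ) z) + d * (starRingEnd ℂ) z := by
    rw [h5]
    calc -((starRingEnd ℂ) d * z) = -(starRingEnd ℂ) d * z := by ring
      _ = XX (cp t) * ((lam t : ℂ) * z + d) * z := by rw [h6]
      _ = _ := by ring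
  have h8 := congrArg Complex.re h7
  rw [Complex.mul_conj, Complex.neg_re, Complex.add_re, ← Complex.ofReal_mul, Complex.ofReal_re,
    Complex.normSq_eq_norm_sq] at h8
  have h9 : ((starRingEnd ℂ) d * z).re = (d * (starRingEnd ℂ) z).re := by
    simp only [Complex.mul_re, Complex.conj_re, Complex.conj_im]
    ring
  rw [h9] at h8
  linarith

lemma lam_cont : ContinuousOn lam (Ioi 1) := by
  have hV : IsOpen {s : ℂ | 0 < s.re ∧ 1 < s.im} :=
    (isOpen_lt continuous_const Complex.continuous_re).inter (isOpen_lt continuous_const Complex.continuous_im)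
  have hD : DifferentiableOn ℂ XX {s : ℂ | 0 < s.re ∧ 1 < s.im} := fun s hs =>
    (H345.Chi.hasDerivAt_XX hs.1 (le_of_lt hs.2)).differentiableAt.differentiableWithinAt
  have hc : ContinuousOn (logDeriv XX) {s : ℂ | 0 < s.re ∧ 1 < s.im} := by
    have h1 := (hD.deriv hV).continuousOn.div hD.continuousOn (fun s hs => H345.Chi.XX_ne hs.1 (le_of_lt hs.2))
    exact h1
  have hcp : Continuous cp := by unfold cp; fun_prop
  unfold lam
  refine Complex.continuous_re.comp_continuousOn (hc.comp hcp.continuousOn fun t ht => ?_)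
  refine ⟨?_, ?_⟩
  · rw [Pool.Agent.W338.QS.cp_re]; norm_num
  · rw [Pool.Agent.W338.QS.cp_im]; exact ht

/-- the limit of `LH` -/
def LL (w : ℝ → ℝ) (k X a b p q : ℝ) : ℝ :=
  ∫ y in a..b, w y * ((p + q * (X - 1 / 2)) * (k * ‖riemannZeta (pt X y)‖ ^ (k - 2) * P riemannZeta (pt X y)) -
    q * ‖riemannZeta (pt X y)‖ ^ k + p * (k / 2 * lam y * ‖riemannZeta (pt (1 / 2) y)‖ ^ k) +
    q * ‖riemannZeta (pt (1 / 2) y)‖ ^ k)

lemma G_mono {f : ℂ → ℂ} {ε : ℝ} (hk : 0 < k) (hε : 0 < ε) (hε1 : ε ≤ 1) (s : ℂ) : G f (k / 2) ε s ≤ G f (k / 2) 1 s := by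
  unfold G h0
  apply Real.rpow_le_rpow (by positivity) (by linarith) (by linarith)

lemma G_nonneg {f : ℂ → ℂ} {ε : ℝ} (hε : 0 < ε) (s : ℂ) : 0 ≤ G f (k / 2) ε s := by
  unfold G; exact (Real.rpow_pos_of_pos (h0_pos hε s) _).le

/-- the flux term -/
lemma Gx_line {ε t : ℝ} (ht : 1 < t) : Gx riemannZeta (k / 2) ε (pt (1 / 2) t) =
    -(k / 2 * lam t * (h0 riemannZeta ε (pt (1 / 2) t) ^ (k / 2 - 1) * ‖riemannZeta (pt (1 / 2) t)‖ ^ 2)) := by
  unfold Gx
  rw [flux ht]
  ring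

lemma flux_tendsto (hk : 0 < k) (f : ℂ → ℂ) (s : ℂ) :
    Tendsto (fun ε => h0 f ε s ^ (k / 2 - 1) * ‖f s‖ ^ 2) (𝓝[>] 0) (𝓝 (‖f s‖ ^ k)) := by
  rcases eq_or_ne (f s) 0 with h | h
  · have : ‖f s‖ = 0 := by rw [h, norm_zero]
    rw [this, Real.zero_rpow hk.ne']
    simp
  · have hn : 0 < ‖f s‖ := norm_pos_iff.2 h
    have h1 := ((h0_tendsto f s).rpow_const (p := k / 2 - 1) (Or.inl (by positivity))).mul_const (‖f s‖ ^ 2)
    rw [sq_rpow _ _ hn.le] at h1
    have e : ‖f s‖ ^ (2 * (k / 2 - 1)) * ‖f s‖ ^ 2 = ‖f s‖ ^ k := by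
      rw [← Real.rpow_natCast (‖f s‖) 2, ← Real.rpow_add hn]
      congr 1
      push_cast
      ring
    rwa [e] at h1

lemma flux_le (hk : 0 < k) {f : ℂ → ℂ} {ε : ℝ} (hε : 0 < ε) (hε1 : ε ≤ 1) (s : ℂ) :
    h0 f ε s ^ (k / 2 - 1) * ‖f s‖ ^ 2 ≤ G f (k / 2) 1 s := by
  refine le_trans ?_ (G_mono hk hε hε1 s)
  have h := h0_pos (f := f) hε s
  unfold G
  have e : h0 f ε s ^ (k / 2) = h0 f ε s ^ (k / 2 - 1) * h0 f ε s := by
    rw [← Real.rpow_add_one h.ne']; congr 1; ring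
  rw [e]
  have h1 : 0 ≤ h0 f ε s ^ (k / 2 - 1) := (Real.rpow_pos_of_pos h _).le
  have h2 : ‖f s‖ ^ 2 ≤ h0 f ε s := by unfold h0; linarith
  gcongr

lemma h0_le {f : ℂ → ℂ} {ε : ℝ} (hε : 0 < ε) (hε1 : ε ≤ 1) {s : ℂ} (hs : f s ≠ 0) :
    h0 f ε s ^ (k / 2 - 1) ≤ ‖f s‖ ^ (k - 2) + (‖f s‖ ^ 2 + 1) ^ |k / 2 - 1| := by
  have hn : 0 < ‖f s‖ := norm_pos_iff.2 hs
  have h := h0_pos (f := f) hε s
  rcases le_total (k / 2) 1 with h1 | h1
  · have e7 : h0 f ε s ^ (k / 2 - 1) ≤ (‖f s‖ ^ 2) ^ (k / 2 - 1) := by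
      apply Real.rpow_le_rpow_of_nonpos (by positivity) _ (by linarith)
      unfold h0
      linarith
    rw [sq_rpow _ _ hn.le] at e7
    have e8 : 2 * (k / 2 - 1) = k - 2 := by ring
    rw [e8] at e7
    have : 0 ≤ (‖f s‖ ^ 2 + 1) ^ |k / 2 - 1| := by positivity
    linarith
  · have e7 : h0 f ε s ^ (k / 2 - 1) ≤ (‖f s‖ ^ 2 + 1) ^ (k / 2 - 1) := by
      apply Real.rpow_le_rpow h.le _ (by linarith)
      unfold h0
      linarith
    rw [abs_of_nonneg (by linarith : (0:ℝ) ≤ k / 2 - 1)]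
    have : 0 ≤ ‖f s‖ ^ (k - 2) := by positivity
    linarith

lemma LH_lim (hk : 0 < k) (hw : Continuous w) (ha : 1 < a) (hab : a ≤ b) (hX : 3 ≤ X) (p q : ℝ) :
    Tendsto (fun ε => LH riemannZeta w (k / 2) (1 / 2) X a b p q ε) (𝓝[>] 0) (𝓝 (LL w k X a b p q)) := by
  have hyU : ∀ x : ℝ, ∀ y ∈ uIcc a b, pt x y ∈ UU := by
    intro x y hy
    rw [uIcc_of_le hab] at hy
    simp only [UU, mem_ofPred_eq, pt_im]
    linarith [hy.1]
  have hpy : ∀ x : ℝ, Continuous fun y : ℝ => pt x y := fun x =>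
    pt_cont.comp (by fun_prop : Continuous fun y : ℝ => (x, y))
  have hc : ∀ {F : ℂ → ℝ} (x : ℝ), ContinuousOn F UU → ContinuousOn (fun y : ℝ => F (pt x y)) (uIcc a b) :=
    fun {F} x hF => hF.comp (hpy x).continuousOn (hyU x)
  obtain ⟨C, hC, hfar⟩ := far k
  have hXne : ∀ y : ℝ, riemannZeta (pt X y) ≠ 0 := fun y => (hfar (pt X y) (by simpa using hX)).1
  have hlam : ContinuousOn lam (uIcc a b) := lam_cont.mono fun y hy => by
    rw [uIcc_of_le hab] at hy
    exact lt_of_lt_of_le ha hy.1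
  have hzc : ∀ x : ℝ, ContinuousOn (fun y : ℝ => ‖riemannZeta (pt x y)‖) (uIcc a b) := fun x =>
    hc (F := fun s => ‖riemannZeta s‖) x UU_diff.continuousOn.norm
  unfold LH LL
  set Bd : ℝ → ℝ := fun y => |w y| * (|p + q * (X - 1 / 2)| * (k * (‖riemannZeta (pt X y)‖ ^ (k - 2) +
      (‖riemannZeta (pt X y)‖ ^ 2 + 1) ^ |k / 2 - 1|) * |P riemannZeta (pt X y)|) + |q| * G riemannZeta (k / 2) 1 (pt X y) +
      |p| * (k / 2 * |lam y| * G riemannZeta (k / 2) 1 (pt (1 / 2) y)) + |q| * G riemannZeta (k / 2) 1 (pt (1 / 2) y)) with hBd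
  have hBdi : IntervalIntegrable Bd volume a b := by
    apply ContinuousOn.intervalIntegrable
    refine hw.abs.continuousOn.mul ?_
    refine ((((continuousOn_const.mul ?_).add (continuousOn_const.mul (hc X (cG UU_diff one_pos)))).add
      (continuousOn_const.mul ((continuousOn_const.mul hlam.abs).mul (hc (1 / 2) (cG UU_diff one_pos)))))).add
      (continuousOn_const.mul (hc (1 / 2) (cG UU_diff one_pos)))
    refine (continuousOn_const.mul (ContinuousOn.add ?_ ?_)).mul (hc X (cP UU_open UU_diff)).abs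
    · exact (hzc X).rpow_const fun y _ => Or.inl (norm_ne_zero_iff.2 (hXne y))
    · exact (((hzc X).pow 2).add continuousOn_const).rpow_const fun y _ => Or.inr (abs_nonneg _)
  refine intervalIntegral.tendsto_integral_filter_of_dominated_convergence Bd ?_ ?_ hBdi ?_
  · filter_upwards [self_mem_nhdsWithin] with ε hε
    have : ContinuousOn (fun y => w y * ((p + q * (X - 1 / 2)) * Gx riemannZeta (k / 2) ε (pt X y) -
      q * G riemannZeta (k / 2) ε (pt X y) - p * Gx riemannZeta (k / 2) ε (pt (1 / 2) y) +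
      q * G riemannZeta (k / 2) ε (pt (1 / 2) y))) (uIcc a b) := by
      refine hw.continuousOn.mul ?_
      exact (((continuousOn_const.mul (hc X (cGx UU_open UU_diff hε))).sub
        (continuousOn_const.mul (hc X (cG UU_diff hε)))).sub
        (continuousOn_const.mul (hc (1 / 2) (cGx UU_open UU_diff hε)))).add
        (continuousOn_const.mul (hc (1 / 2) (cG UU_diff hε)))
    exact this.intervalIntegrable.aestronglyMeasurable_restrict_uIoc
  · have h1 : ∀ᶠ ε : ℝ in 𝓝[>] 0, ε ≤ 1 := nhdsWithin_le_nhds (Iic_mem_nhds one_pos)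
    filter_upwards [self_mem_nhdsWithin, h1] with ε hε hε1
    refine Eventually.of_forall fun y hy => ?_
    have hy1 : 1 < y := by
      rw [uIoc_of_le hab] at hy
      linarith [hy.1]
    have hε' : 0 < ε := hε
    rw [hBd]
    simp only
    rw [norm_mul, Real.norm_eq_abs, Real.norm_eq_abs, Gx_line hy1]
    refine mul_le_mul_of_nonneg_left ?_ (abs_nonneg _)
    have t1 : |(p + q * (X - 1 / 2)) * Gx riemannZeta (k / 2) ε (pt X y)| ≤ |p + q * (X - 1 / 2)| *
        (k * (‖riemannZeta (pt X y)‖ ^ (k - 2) + (‖riemannZeta (pt X y)‖ ^ 2 + 1) ^ |k / 2 - 1|) *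
          |P riemannZeta (pt X y)|) := by
      rw [abs_mul]
      refine mul_le_mul_of_nonneg_left ?_ (abs_nonneg _)
      unfold Gx
      rw [abs_mul, abs_mul, abs_of_nonneg (by linarith : (0:ℝ) ≤ 2 * (k / 2)),
        abs_of_nonneg (Real.rpow_pos_of_pos (h0_pos hε' _) _).le]
      have := h0_le (k := k) hε' hε1 (hXne y)
      have e : 2 * (k / 2) = k := by ring
      rw [e]
      gcongr
    have t2 : |q * G riemannZeta (k / 2) ε (pt X y)| ≤ |q| * G riemannZeta (k / 2) 1 (pt X y) := by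
      rw [abs_mul, abs_of_nonneg (G_nonneg hε' _)]
      exact mul_le_mul_of_nonneg_left (G_mono hk hε' hε1 _) (abs_nonneg _)
    have t3 : |p * -(k / 2 * lam y * (h0 riemannZeta ε (pt (1 / 2) y) ^ (k / 2 - 1) * ‖riemannZeta (pt (1 / 2) y)‖ ^ 2))| ≤
        |p| * (k / 2 * |lam y| * G riemannZeta (k / 2) 1 (pt (1 / 2) y)) := by
      rw [abs_mul, abs_neg, abs_mul, abs_mul, abs_of_nonneg (by linarith : (0:ℝ) ≤ k / 2)]
      refine mul_le_mul_of_nonneg_left ?_ (abs_nonneg _)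
      refine mul_le_mul_of_nonneg_left ?_ (by positivity)
      rw [abs_of_nonneg (mul_nonneg (Real.rpow_pos_of_pos (h0_pos hε' _) _).le (by positivity))]
      exact flux_le hk hε' hε1 _
    have t4 : |q * G riemannZeta (k / 2) ε (pt (1 / 2) y)| ≤ |q| * G riemannZeta (k / 2) 1 (pt (1 / 2) y) := by
      rw [abs_mul, abs_of_nonneg (G_nonneg hε' _)]
      exact mul_le_mul_of_nonneg_left (G_mono hk hε' hε1 _) (abs_nonneg _)
    refine (abs_add_le _ _).trans (add_le_add ((abs_sub _ _).trans (add_le_add ((abs_sub _ _).trans (add_le_add t1 t2)) t3)) t4)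
  · refine Eventually.of_forall fun y hy => ?_
    have hy1 : 1 < y := by
      rw [uIoc_of_le hab] at hy
      linarith [hy.1]
    refine Tendsto.const_mul _ ?_
    have l1 : Tendsto (fun ε => Gx riemannZeta (k / 2) ε (pt X y)) (𝓝[>] 0)
        (𝓝 (k * ‖riemannZeta (pt X y)‖ ^ (k - 2) * P riemannZeta (pt X y))) := by
      have hn : 0 < ‖riemannZeta (pt X y)‖ := norm_pos_iff.2 (hXne y)
      have h1 := ((h0_tendsto riemannZeta (pt X y)).rpow_const (p := k / 2 - 1) (Or.inl (by positivity)))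
      rw [sq_rpow _ _ hn.le] at h1
      have h2 := (h1.const_mul (2 * (k / 2))).mul_const (P riemannZeta (pt X y))
      have e1 : 2 * (k / 2 - 1) = k - 2 := by ring
      have e2 : 2 * (k / 2) = k := by ring
      rw [e1] at h2
      unfold Gx
      convert h2 using 2
      rw [e2]
    have l2 : Tendsto (fun ε => Gx riemannZeta (k / 2) ε (pt (1 / 2) y)) (𝓝[>] 0)
        (𝓝 (-(k / 2 * lam y * ‖riemannZeta (pt (1 / 2) y)‖ ^ k))) := by
      simp_rw [Gx_line hy1]
      exact ((flux_tendsto hk riemannZeta (pt (1 / 2) y)).const_mul _).neg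
    have l3 := G_tendsto hk (f := riemannZeta) (pt X y)
    have l4 := G_tendsto hk (f := riemannZeta) (pt (1 / 2) y)
    have h := (((l1.const_mul (p + q * (X - 1 / 2))).sub (l3.const_mul q)).sub (l2.const_mul p)).add (l4.const_mul q)
    convert h using 2
    ring

end

end Pool.Agent.L7h13.AF
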